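import Mathlib
import Pool.Agent.H374R2.T.TaskD1

/-!
The Turán–Kubilius inequality in an interval, and integers of a short interval without prime
divisor between `N ^ κ` and `N ^ θ`.
-/

set_option autoImplicit false

namespace Pool.Agent.H755R4

open Finset Filter Topology Pool.Agent.H374R2 Pool.Agent.Helper923.HMertens

theorem cnt_dvd (b Y n : ℕ) (hn : 0 < n) :
    ∑ B ∈ Finset.Ioc b (b + Y), (if n ∣ B then (1 : ℝ) else 0) ≤ (Y : ℝ) / n + 1 ∧
      (Y : ℝ) / n - 1 ≤ ∑ B ∈ Finset.Ioc b (b + Y), (if n ∣ B then (1 : ℝ) else 0) := by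
  have hnR : (0 : ℝ) < n := by exact_mod_cast hn
  have h1 : ∀ M : ℕ, ∑ B ∈ Finset.Ioc 0 M, (if n ∣ B then (1 : ℝ) else 0) = ((M / n : ℕ) : ℝ) := by
    intro M
    rw [Finset.sum_boole, Nat.Ioc_filter_dvd_card_eq_div]
  have h2 : ∑ B ∈ Finset.Ioc 0 b, (if n ∣ B then (1 : ℝ) else 0) +
      ∑ B ∈ Finset.Ioc b (b + Y), (if n ∣ B then (1 : ℝ) else 0) =
      ∑ B ∈ Finset.Ioc 0 (b + Y), (if n ∣ B then (1 : ℝ) else 0) := by
    rw [← Finset.sum_union]
    · rw [Finset.Ioc_union_Ioc_eq_Ioc (Nat.zero_le _) (Nat.le_add_right _ _)]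
    · exact Finset.Ioc_disjoint_Ioc_of_le le_rfl
  rw [h1, h1] at h2
  have h3 : (((b + Y) / n : ℕ) : ℝ) ≤ ((b + Y : ℕ) : ℝ) / n := Nat.cast_div_le
  have h4 : ((b / n : ℕ) : ℝ) ≤ (b : ℝ) / n := Nat.cast_div_le
  have h5 : ((b + Y : ℕ) : ℝ) / n - 1 ≤ (((b + Y) / n : ℕ) : ℝ) := by
    have h := Nat.lt_div_mul_add (a := b + Y) hn
    have h' : ((b + Y : ℕ) : ℝ) < (((b + Y) / n : ℕ) : ℝ) * n + n := by exact_mod_cast h
    rw [sub_le_iff_le_add, div_le_iff₀ hnR]
    nlinarith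
  have h6 : (b : ℝ) / n - 1 ≤ ((b / n : ℕ) : ℝ) := by
    have h := Nat.lt_div_mul_add (a := b) hn
    have h' : (b : ℝ) < ((b / n : ℕ) : ℝ) * n + n := by exact_mod_cast h
    rw [sub_le_iff_le_add, div_le_iff₀ hnR]
    nlinarith
  have h7 : ((b + Y : ℕ) : ℝ) / n = (b : ℝ) / n + (Y : ℝ) / n := by
    push_cast; rw [add_div]
  rw [h7] at h3 h5
  constructor <;> linarith

/-- Turán–Kubilius in an interval. -/
theorem tk_interval {b Y : ℕ} (S : Finset ℕ) (hS : ∀ p ∈ S, p.Prime) (hS2 : S.card ^ 2 ≤ Y) :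
    (((Finset.Ioc b (b + Y)).filter (fun B => ∀ p ∈ S, ¬ p ∣ B)).card : ℝ) *
      (∑ p ∈ S, (1 : ℝ) / p) ≤ 4 * Y := by
  classical
  set μ : ℝ := ∑ p ∈ S, (1 : ℝ) / p with hμ
  have hμ0 : 0 ≤ μ := Finset.sum_nonneg (fun p _ => by positivity)
  set T := (Finset.Ioc b (b + Y)).filter (fun B => ∀ p ∈ S, ¬ p ∣ B) with hT
  have hTY : (T.card : ℝ) ≤ Y := by
    have h1 := Finset.card_filter_le (Finset.Ioc b (b + Y)) (fun B => ∀ p ∈ S, ¬ p ∣ B)
    rw [Nat.card_Ioc] at h1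
    have h2 : T.card ≤ Y := by rw [hT]; omega
    exact_mod_cast h2
  have hY0 : (0 : ℝ) ≤ Y := Nat.cast_nonneg Y
  rcases le_or_gt μ 1 with hμ1 | hμ1
  · nlinarith
  have hs0 : (0 : ℝ) ≤ S.card := Nat.cast_nonneg _
  have hs2 : (S.card : ℝ) ^ 2 ≤ Y := by exact_mod_cast hS2
  have hs1 : (S.card : ℝ) ≤ Y := by
    have h1 : S.card ≤ S.card ^ 2 := Nat.le_self_pow (by norm_num) _
    exact_mod_cast h1.trans hS2
  let w : ℕ → ℝ := fun B => ∑ p ∈ S, if p ∣ B then (1 : ℝ) else 0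
  have hw1 : (Y : ℝ) * μ - S.card ≤ ∑ B ∈ Finset.Ioc b (b + Y), w B := by
    have e1 : ∑ B ∈ Finset.Ioc b (b + Y), w B =
        ∑ p ∈ S, ∑ B ∈ Finset.Ioc b (b + Y), (if p ∣ B then (1 : ℝ) else 0) := by
      simp only [w]
      rw [Finset.sum_comm]
    rw [e1, hμ, Finset.mul_sum, Finset.card_eq_sum_ones]
    push_cast
    rw [← Finset.sum_sub_distrib]
    apply Finset.sum_le_sum
    intro p hp
    have h := (cnt_dvd b Y p (hS p hp).pos).2
    rw [mul_one_div]
    exact h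
  have hw2 : ∑ B ∈ Finset.Ioc b (b + Y), w B ^ 2 ≤ Y * (μ ^ 2 + μ) + (S.card : ℝ) ^ 2 := by
    have e1 : ∑ B ∈ Finset.Ioc b (b + Y), w B ^ 2 =
        ∑ p ∈ S, ∑ q ∈ S, ∑ B ∈ Finset.Ioc b (b + Y), (if p ∣ B ∧ q ∣ B then (1 : ℝ) else 0) := by
      simp only [w, pow_two]
      calc ∑ B ∈ Finset.Ioc b (b + Y), (∑ p ∈ S, if p ∣ B then (1 : ℝ) else 0) *
            (∑ p ∈ S, if p ∣ B then (1 : ℝ) else 0)
          = ∑ B ∈ Finset.Ioc b (b + Y), ∑ p ∈ S, ∑ q ∈ S,
              (if p ∣ B ∧ q ∣ B then (1 : ℝ) else 0) := by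
            apply Finset.sum_congr rfl
            intro B _
            rw [Finset.sum_mul_sum]
            apply Finset.sum_congr rfl
            intro p _
            apply Finset.sum_congr rfl
            intro q _
            by_cases h1 : p ∣ B <;> by_cases h2 : q ∣ B <;> simp [h1, h2]
        _ = _ := by
            rw [Finset.sum_comm]
            apply Finset.sum_congr rfl
            intro p _
            rw [Finset.sum_comm]
    rw [e1]
    have e2 : ∀ p ∈ S, ∀ q ∈ S, ∑ B ∈ Finset.Ioc b (b + Y), (if p ∣ B ∧ q ∣ B then (1 : ℝ) else 0) ≤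
        (Y * ((1 / p) * (1 / q)) + (if p = q then (Y : ℝ) * (1 / p) else 0)) + 1 := by
      intro p hp q hq
      have hp0 := hS p hp
      have hq0 := hS q hq
      by_cases hpq : p = q
      · subst hpq
        rw [if_pos rfl]
        simp only [and_self]
        have h1 := (cnt_dvd b Y p hp0.pos).1
        have h2 : 0 ≤ (Y : ℝ) * ((1 / p) * (1 / p)) := by positivity
        have h3 : (Y : ℝ) / p = (Y : ℝ) * (1 / p) := by rw [mul_one_div]
        linarith
      · rw [if_neg hpq, add_zero]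
        have hcop : Nat.Coprime p q := (Nat.coprime_primes hp0 hq0).mpr hpq
        have h1 : ∀ B ∈ Finset.Ioc b (b + Y), (if p ∣ B ∧ q ∣ B then (1 : ℝ) else 0) =
            if p * q ∣ B then (1 : ℝ) else 0 := by
          intro B _
          by_cases h : p * q ∣ B
          · rw [if_pos h, if_pos ⟨(Dvd.intro _ rfl).trans h, (Dvd.intro_left _ rfl).trans h⟩]
          · rw [if_neg h, if_neg (fun h' => h (Nat.Coprime.mul_dvd_of_dvd_of_dvd hcop h'.1 h'.2))]
        rw [Finset.sum_congr rfl h1]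
        have h2 := (cnt_dvd b Y (p * q) (Nat.mul_pos hp0.pos hq0.pos)).1
        calc _ ≤ (Y : ℝ) / ((p * q : ℕ) : ℝ) + 1 := h2
          _ = _ := by push_cast; rw [one_div_mul_one_div]; ring
    calc ∑ p ∈ S, ∑ q ∈ S, ∑ B ∈ Finset.Ioc b (b + Y), (if p ∣ B ∧ q ∣ B then (1 : ℝ) else 0)
        ≤ ∑ p ∈ S, ∑ q ∈ S, ((Y * ((1 / (p : ℝ)) * (1 / q)) +
            (if p = q then (Y : ℝ) * (1 / p) else 0)) + 1) :=
          Finset.sum_le_sum (fun p hp => Finset.sum_le_sum (fun q hq => e2 p hp q hq))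
      _ = Y * (μ ^ 2 + μ) + (S.card : ℝ) ^ 2 := by
          have e3 : ∀ p ∈ S, ∑ q ∈ S, ((Y * ((1 / (p : ℝ)) * (1 / q)) +
              (if p = q then (Y : ℝ) * (1 / p) else 0)) + 1) =
                (Y * (1 / (p : ℝ)) * μ + Y * (1 / p)) + S.card := by
            intro p hp
            rw [Finset.sum_add_distrib, Finset.sum_add_distrib, Finset.sum_ite_eq, if_pos hp, hμ,
              Finset.mul_sum]
            congr 1
            · congr 1
              apply Finset.sum_congr rfl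
              intro q _
              ring
            · simp
          rw [Finset.sum_congr rfl e3, Finset.sum_add_distrib, Finset.sum_add_distrib,
            ← Finset.sum_mul, ← Finset.mul_sum, ← hμ, Finset.sum_const, nsmul_eq_mul]
          ring
  have hvar : ∑ B ∈ Finset.Ioc b (b + Y), (w B - μ) ^ 2 ≤ 4 * Y * μ := by
    have e1 : ∑ B ∈ Finset.Ioc b (b + Y), (w B - μ) ^ 2 =
        ∑ B ∈ Finset.Ioc b (b + Y), w B ^ 2 - 2 * μ * ∑ B ∈ Finset.Ioc b (b + Y), w B +
          Y * μ ^ 2 := by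
      have : ∀ B ∈ Finset.Ioc b (b + Y), (w B - μ) ^ 2 = w B ^ 2 - 2 * μ * w B + μ ^ 2 :=
        fun B _ => by ring
      rw [Finset.sum_congr rfl this, Finset.sum_add_distrib, Finset.sum_sub_distrib,
        ← Finset.mul_sum, Finset.sum_const, Nat.card_Ioc, Nat.add_sub_cancel_left, nsmul_eq_mul]
    rw [e1]
    have a1 := mul_le_mul_of_nonneg_left hw1 hμ0
    have a2 := mul_le_mul_of_nonneg_left hs1 hμ0
    have a3 : (Y : ℝ) ≤ Y * μ := by nlinarith
    nlinarith
  have hle : (T.card : ℝ) * μ ^ 2 ≤ ∑ B ∈ Finset.Ioc b (b + Y), (w B - μ) ^ 2 := by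
    calc (T.card : ℝ) * μ ^ 2 = ∑ B ∈ T, (w B - μ) ^ 2 := by
          rw [← nsmul_eq_mul, ← Finset.sum_const]
          apply Finset.sum_congr rfl
          intro B hB
          have hB' := (Finset.mem_filter.mp hB).2
          have : w B = 0 := by
            simp only [w]
            apply Finset.sum_eq_zero
            intro p hp
            rw [if_neg (hB' p hp)]
          rw [this]; ring
      _ ≤ _ := Finset.sum_le_sum_of_subset_of_nonneg (Finset.filter_subset _ _)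
          (fun B _ _ => sq_nonneg _)
  have hfin := hle.trans hvar
  have h4 : (T.card * μ) * μ ≤ (4 * Y) * μ := by nlinarith
  exact le_of_mul_le_mul_right h4 (by linarith)

end Pool.Agent.H755R4
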