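import Mathlib
import Pool.Agent.H374R2.GcE

set_option autoImplicit false

namespace Pool.Agent.H755R4

open Finset Filter Topology Pool.Agent.H374R2

/-- Few integers of an interval have no small prime factor which is `3` modulo `4`. -/
theorem three_prime {ε : ℝ} (hε : 0 < ε) : ∃ P₀ N₀ : ℕ, ∀ b Y : ℕ, N₀ ≤ Y →
    (({B : ℕ | b < B ∧ B ≤ b + Y ∧ ∀ p : ℕ, p ≤ P₀ → p.Prime → p % 4 = 3 → ¬ p ∣ B}.ncard : ℕ) : ℝ)
      ≤ ε * Y := by
  obtain ⟨F, hF, hsum⟩ := Cof.exists_primes_class 4 (by norm_num) 3 (by norm_num) (-Real.log (ε / 2))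
  have hodd : ∀ p ∈ F, p % 4 = 3 := fun p hp => (hF p hp).2
  set R : ℝ := ∏ p ∈ F, (({x : ZMod p | x ≠ 0}.ncard : ℕ) : ℝ) with hR
  set M : ℝ := ∏ p ∈ F, (p : ℝ) with hM
  have hR0 : 0 ≤ R := Finset.prod_nonneg (fun _ _ => by positivity)
  have hM0 : 0 < M := Finset.prod_pos (fun p hp => by exact_mod_cast (hF p hp).1.pos)
  have hRM : R / M ≤ ε / 2 := by
    have h1 := Cof.prod_le_exp F (fun p hp => (hF p hp).1)
    calc R / M ≤ _ := h1
      _ ≤ Real.exp (Real.log (ε / 2)) := Real.exp_le_exp.mpr (by linarith)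
      _ = ε / 2 := Real.exp_log (by positivity)
  obtain ⟨N₀, hN₀⟩ := exists_nat_ge (R / (ε / 2))
  refine ⟨F.sup id, N₀, fun b N hN => ?_⟩
  have hshift : ∀ p : ℕ, {x : ZMod p | x + (b : ZMod p) ≠ 0}.ncard = {x : ZMod p | x ≠ 0}.ncard := by
    intro p
    have h1 : {x : ZMod p | x ≠ 0} = (fun x => x + (b : ZMod p)) '' {x : ZMod p | x + (b : ZMod p) ≠ 0} := by
      ext x
      constructor
      · intro hx
        exact ⟨x - b, by simpa using hx, by simp⟩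
      · rintro ⟨y, hy, rfl⟩
        exact hy
    rw [h1, Set.ncard_image_of_injective _ (add_left_injective _)]
  set E : Set ℕ := {n : ℕ | ∀ p : ℕ, p ≤ F.sup id → p.Prime → p % 4 = 3 → ¬ p ∣ (n + b)} with hE
  have h1 := Cof.count1 F (fun p hp => (hF p hp).1) (fun p => {x : ZMod p | x + (b : ZMod p) ≠ 0}) E (by
      intro m hm p hp
      have := hm p (Finset.le_sup (f := id) hp) (hF p hp).1 (hodd p hp)
      show (m : ZMod p) + (b : ZMod p) ≠ 0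
      rwa [← Nat.cast_add, Ne, ZMod.natCast_eq_zero_iff]) N
  simp only [hshift] at h1
  have h0 : {B : ℕ | b < B ∧ B ≤ b + N ∧ ∀ p : ℕ, p ≤ F.sup id → p.Prime → p % 4 = 3 → ¬ p ∣ B} ⊆
      (fun n => n + b) '' (E ∩ Set.Ioc 0 N) := by
    rintro B ⟨h1, h2, h3⟩
    refine ⟨B - b, ⟨?_, ?_, ?_⟩, by simp only; omega⟩
    · show ∀ p : ℕ, p ≤ F.sup id → p.Prime → p % 4 = 3 → ¬ p ∣ (B - b + b)
      rw [Nat.sub_add_cancel h1.le]
      exact h3
    · omega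
    · omega
  have hEfin : (E ∩ Set.Ioc 0 N).Finite := (Set.finite_Ioc 0 N).subset Set.inter_subset_right
  have h2 : ((E ∩ Set.Ioc 0 N).ncard : ℝ) ≤ R * ((N : ℝ) / M + 1) := by
    calc _ ≤ (((∏ p ∈ F, {x : ZMod p | x ≠ 0}.ncard) * (N / (∏ p ∈ F, p) + 1) : ℕ) : ℝ) := by
          exact_mod_cast h1
      _ = R * (((N / (∏ p ∈ F, p) : ℕ) : ℝ) + 1) := by rw [hR]; push_cast; ring
      _ ≤ _ := by
        apply mul_le_mul_of_nonneg_left _ hR0
        have h3 : ((N / (∏ p ∈ F, p) : ℕ) : ℝ) ≤ (N : ℝ) / ((∏ p ∈ F, p : ℕ) : ℝ) := Nat.cast_div_le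
        push_cast at h3
        linarith
  have h3 : R ≤ (ε / 2) * N := by
    have h4 : R / (ε / 2) ≤ N := hN₀.trans (by exact_mod_cast hN)
    rwa [div_le_iff₀ (by positivity), mul_comm] at h4
  calc _ ≤ ((E ∩ Set.Ioc 0 N).ncard : ℝ) := by
        exact_mod_cast (Set.ncard_le_ncard h0 (hEfin.image _)).trans (Set.ncard_image_le hEfin)
    _ ≤ R * ((N : ℝ) / M + 1) := h2
    _ = (R / M) * N + R := by field_simp
    _ ≤ (ε / 2) * N + (ε / 2) * N := by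
      have : (R / M) * N ≤ (ε / 2) * N := mul_le_mul_of_nonneg_right hRM (by positivity)
      linarith
    _ = ε * N := by ring

/-- The `k`-th powers in an interval. -/
theorem kpow_card (b Y k : ℕ) (hk : 2 ≤ k) :
    {B : ℕ | b < B ∧ B ≤ b + Y ∧ ∃ w : ℕ, B = w ^ k}.ncard ≤ Nat.sqrt Y + 1 := by
  classical
  set S : Set ℕ := {B : ℕ | b < B ∧ B ≤ b + Y ∧ ∃ w : ℕ, B = w ^ k} with hS
  by_cases hne : ∃ w : ℕ, b < w ^ k
  swap
  · have : S = ∅ := by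
      ext B
      simp only [hS, Set.mem_ofPred_eq, Set.mem_empty_iff_false, iff_false]
      rintro ⟨h1, h2, w, rfl⟩
      exact hne ⟨w, h1⟩
    rw [this]; simp
  · set w₀ := Nat.find hne with hw₀
    have h0 : b < w₀ ^ k := Nat.find_spec hne
    have hsub : S ⊆ ((Finset.Icc w₀ (w₀ + Nat.sqrt Y)).image (fun w => w ^ k) : Finset ℕ) := by
      rintro B ⟨h1, h2, w, rfl⟩
      rw [Finset.coe_image]
      refine ⟨w, ?_, rfl⟩
      rw [Finset.mem_coe, Finset.mem_Icc]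
      have hw : w₀ ≤ w := Nat.find_min' hne h1
      refine ⟨hw, ?_⟩
      obtain ⟨d, rfl⟩ := Nat.exists_eq_add_of_le hw
      have h3 : d ≤ Nat.sqrt Y := by
        rw [Nat.le_sqrt']
        rcases Nat.eq_zero_or_pos d with hd | hd
        · rw [hd]; simp
        · have h4 : w₀ ^ k + d ^ k ≤ (w₀ + d) ^ k := by
            have := pow_add_pow_le (Nat.zero_le w₀) (Nat.zero_le d) (by omega : k ≠ 0)
            exact this
          have h5 : d ^ 2 ≤ d ^ k := Nat.pow_le_pow_right hd hk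
          omega
      omega
    calc S.ncard ≤ _ := Set.ncard_le_ncard hsub (Finset.finite_toSet _)
      _ ≤ (Finset.Icc w₀ (w₀ + Nat.sqrt Y)).card := by
          rw [Set.ncard_coe_finset]; exact Finset.card_image_le
      _ = Nat.sqrt Y + 1 := by rw [Nat.card_Icc]; omega

theorem pp_card (b Y : ℕ) :
    {B : ℕ | b < B ∧ B ≤ b + Y ∧ ∃ w k : ℕ, 2 ≤ k ∧ B = w ^ k}.ncard ≤
      1 + (Nat.log 2 (b + Y) + 1) * (Nat.sqrt Y + 1) := by
  classical
  set f : ℕ → Set ℕ := fun k => {B : ℕ | b < B ∧ B ≤ b + Y ∧ ∃ w : ℕ, B = w ^ k} with hf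
  have hfin : ∀ k, (f k).Finite := fun k =>
    (Set.finite_Ioc b (b + Y)).subset (fun B hB => ⟨hB.1, hB.2.1⟩)
  have hsub : {B : ℕ | b < B ∧ B ≤ b + Y ∧ ∃ w k : ℕ, 2 ≤ k ∧ B = w ^ k} ⊆
      ({1} : Set ℕ) ∪ ⋃ k ∈ (Finset.range (Nat.log 2 (b + Y) + 1)).filter (fun k => 2 ≤ k), f k := by
    rintro B ⟨h1, h2, w, k, hk, rfl⟩
    by_cases hw : w ≤ 1
    · left
      have : w = 0 ∨ w = 1 := by omega
      rcases this with rfl | rfl
      · rw [zero_pow (by omega)] at h1; omega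
      · simp
    · right
      push Not at hw
      rw [Set.mem_iUnion₂]
      refine ⟨k, ?_, h1, h2, w, rfl⟩
      rw [Finset.mem_filter, Finset.mem_range]
      refine ⟨?_, hk⟩
      apply Nat.lt_succ_of_le
      apply Nat.le_log_of_pow_le (by norm_num)
      exact (Nat.pow_le_pow_left (by omega) k).trans h2
  have hfin2 : (⋃ k ∈ (Finset.range (Nat.log 2 (b + Y) + 1)).filter (fun k => 2 ≤ k), f k).Finite := by
    apply Set.Finite.biUnion (Finset.finite_toSet _)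
    intro k _
    exact hfin k
  calc _ ≤ _ := Set.ncard_le_ncard hsub ((Set.finite_singleton 1).union hfin2)
    _ ≤ ({1} : Set ℕ).ncard + (⋃ k ∈ (Finset.range (Nat.log 2 (b + Y) + 1)).filter
          (fun k => 2 ≤ k), f k).ncard := Set.ncard_union_le _ _
    _ ≤ 1 + ∑ k ∈ (Finset.range (Nat.log 2 (b + Y) + 1)).filter (fun k => 2 ≤ k), (f k).ncard := by
        apply Nat.add_le_add
        · rw [Set.ncard_singleton]
        · exact Finset.set_ncard_biUnion_le _ _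
    _ ≤ 1 + ∑ k ∈ (Finset.range (Nat.log 2 (b + Y) + 1)).filter (fun k => 2 ≤ k),
          (Nat.sqrt Y + 1) := by
        apply Nat.add_le_add_left
        apply Finset.sum_le_sum
        intro k hk
        exact kpow_card b Y k (Finset.mem_filter.mp hk).2
    _ ≤ _ := by
        rw [Finset.sum_const, smul_eq_mul]
        apply Nat.add_le_add_left
        apply Nat.mul_le_mul_right
        exact (Finset.card_filter_le _ _).trans (by rw [Finset.card_range])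

/-- Few perfect powers in a short interval. -/
theorem perfect_powers {ε : ℝ} (hε : 0 < ε) (K : ℕ) : ∃ N₀ : ℕ, ∀ b Y : ℕ, N₀ ≤ Y →
    b + Y ≤ Y ^ K →
    (({B : ℕ | b < B ∧ B ≤ b + Y ∧ ∃ w k : ℕ, 2 ≤ k ∧ B = w ^ k}.ncard : ℕ) : ℝ) ≤ ε * Y := by
  have e1 := Gc.log_pow_le (k := 1) (show (0 : ℝ) < 1 / 4 by norm_num)
    (show (0 : ℝ) < 2 * K + 1 by positivity)
  have e2 := Gc.log_pow_le (k := 0) (show (0 : ℝ) < 1 / 4 by norm_num)
    (show (0 : ℝ) < 5 / ε by positivity)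
  obtain ⟨N₀, hN₀⟩ := eventually_atTop.mp ((e1.and e2).and
    ((Gc.tendsto_log_nat.eventually (eventually_ge_atTop 1)).and (eventually_ge_atTop 2)))
  refine ⟨N₀, fun b Y hY hK => ?_⟩
  obtain ⟨⟨h1, h2⟩, h3, h4⟩ := hN₀ Y hY
  rw [pow_one] at h1
  rw [pow_zero, mul_one] at h2
  have hY0 : (0 : ℝ) < Y := by exact_mod_cast (by omega : 0 < Y)
  set r : ℝ := (Y : ℝ) ^ (1 / 4 : ℝ) with hr
  have hr4 : r ^ 4 = Y := by
    rw [hr, ← Real.rpow_natCast, ← Real.rpow_mul hY0.le]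
    norm_num
  have hr1 : 1 ≤ r := Real.one_le_rpow (by exact_mod_cast (by omega : 1 ≤ Y)) (by norm_num)
  have hsq : (Nat.sqrt Y : ℝ) ≤ r ^ 2 := by
    have h1 : ((Nat.sqrt Y : ℕ) : ℝ) ^ 2 ≤ Y := by
      have := Nat.sqrt_le' Y
      exact_mod_cast this
    have h2 : (Y : ℝ) = (r ^ 2) ^ 2 := by rw [← hr4]; ring
    rw [h2] at h1
    exact le_of_sq_le_sq h1 (by positivity)
  have hlog : (Nat.log 2 (b + Y) : ℝ) ≤ r := by
    have h5 : (2 : ℝ) ^ (Nat.log 2 (b + Y)) ≤ (Y : ℝ) ^ K := by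
      have h6 := Nat.pow_log_le_self 2 (by omega : b + Y ≠ 0)
      exact_mod_cast h6.trans hK
    have h6 := Real.log_le_log (by positivity) h5
    rw [Real.log_pow, Real.log_pow] at h6
    have h7 : (1 / 2 : ℝ) ≤ Real.log 2 := by
      have := Real.log_two_gt_d9
      linarith
    have h8 : (0 : ℝ) ≤ Nat.log 2 (b + Y) := Nat.cast_nonneg _
    have h9 : (Nat.log 2 (b + Y) : ℝ) * (1 / 2) ≤ (Nat.log 2 (b + Y) : ℝ) * Real.log 2 :=
      mul_le_mul_of_nonneg_left h7 h8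
    have h10 : (0 : ℝ) ≤ Real.log Y := by linarith
    linarith
  have hc : (({B : ℕ | b < B ∧ B ≤ b + Y ∧ ∃ w k : ℕ, 2 ≤ k ∧ B = w ^ k}.ncard : ℕ) : ℝ) ≤
      1 + ((Nat.log 2 (b + Y) : ℝ) + 1) * ((Nat.sqrt Y : ℝ) + 1) := by
    exact_mod_cast pp_card b Y
  have h20 : 5 ≤ ε * r := by
    rw [div_le_iff₀ hε] at h2
    linarith
  calc (({B : ℕ | b < B ∧ B ≤ b + Y ∧ ∃ w k : ℕ, 2 ≤ k ∧ B = w ^ k}.ncard : ℕ) : ℝ)
      ≤ 1 + ((Nat.log 2 (b + Y) : ℝ) + 1) * ((Nat.sqrt Y : ℝ) + 1) := hc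
    _ ≤ 1 + (r + 1) * (r ^ 2 + 1) := by gcongr
    _ ≤ 5 * r ^ 3 := by
        have h1 : 1 ≤ r ^ 2 := one_le_pow₀ hr1
        have h2 : 1 ≤ r ^ 3 := one_le_pow₀ hr1
        have h3 : (r + 1) * (r ^ 2 + 1) ≤ (2 * r) * (2 * r ^ 2) := by
          apply mul_le_mul <;> first | positivity | linarith
        nlinarith
    _ ≤ ε * r * r ^ 3 := by gcongr
    _ = ε * r ^ 4 := by ring
    _ = ε * Y := by rw [hr4]

/-- Few integers `B` of an interval of length `Y` have `B ^ 2 < Y`. -/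
theorem small_sq {ε : ℝ} (hε : 0 < ε) : ∃ N₀ : ℕ, ∀ b Y : ℕ, N₀ ≤ Y →
    (({B : ℕ | b < B ∧ B ≤ b + Y ∧ B ^ 2 < Y}.ncard : ℕ) : ℝ) ≤ ε * Y := by
  obtain ⟨N₀, hN₀⟩ := Gc.small_sq hε
  refine ⟨N₀, fun b Y hY => le_trans ?_ (hN₀ Y hY)⟩
  have hsub : {B : ℕ | b < B ∧ B ≤ b + Y ∧ B ^ 2 < Y} ⊆ {B : ℕ | 0 < B ∧ B ≤ Y ∧ B ^ 2 < Y} := by
    rintro B ⟨h1, h2, h3⟩
    have h4 : B ≤ B ^ 2 := Nat.le_self_pow (by norm_num) B
    exact ⟨by omega, by omega, h3⟩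
  exact_mod_cast Set.ncard_le_ncard hsub ((Set.finite_Icc 0 Y).subset (fun B hB =>
    ⟨Nat.zero_le _, hB.2.1⟩))

end Pool.Agent.H755R4
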