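import Mathlib
import Pool.Agent.H374R2.V.Final
import Pool.Agent.H374R2.W.Glue
import Pool.Agent.H755R4.PB
import Pool.Agent.H755R4.Sm

/-!
The Beal equation with one large exponent for almost all integers `B` of a short interval and each
single `A`.
-/

set_option autoImplicit false

namespace Pool.Agent.H755R4

open Finset Filter Topology Pool.Agent.H374R2
open Pool.Agent.H374R2.W (SetP SetR ht)

/-- Typical integers. -/
structure Typ (N Y P₀ : ℕ) (κ θ : ℝ) (B : ℕ) : Prop where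
  mid : ∃ p : ℕ, p.Prime ∧ (N : ℝ) ^ κ < p ∧ (p : ℝ) ≤ (N : ℝ) ^ θ ∧ p ∣ B
  three : ∃ p, p ≤ P₀ ∧ p.Prime ∧ p % 4 = 3 ∧ p ∣ B
  np : ¬ ∃ w k : ℕ, 2 ≤ k ∧ B = w ^ k
  big : Y ≤ B ^ 2

/-- The integers `B` in a solution of the `p`-adic kind. -/
def BadP (κ : ℝ) (N q₀ Q A P : ℕ) : Set ℕ :=
  {B | ∃ (q i p : ℕ) (s σ : ℤ), IsPrimePow q ∧ q₀ ≤ q ∧ q ≤ Q ∧ i < q ∧
    (s = 1 ∨ s = -1) ∧ (σ = 1 ∨ σ = -1) ∧ p.Prime ∧ p ≤ P ∧ Q < p ∧ B ∈ SetP κ N q i p A s σ}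

/-- The integers `B` in a solution of the real kind. -/
def BadR (κ : ℝ) (N q₀ Q A : ℕ) : Set ℕ :=
  {B | ∃ (q i : ℕ) (σ : ℤ), IsPrimePow q ∧ q₀ ≤ q ∧ q ≤ Q ∧ i < q ∧
    (σ = 1 ∨ σ = -1) ∧ B ∈ SetR κ N q i A σ}

theorem badP_card {κ : ℝ} {N q₀ Q A P : ℕ} (hκ0 : 0 < κ) (hκ1 : κ ≤ 1)
    (hq₀ : 100 / κ ^ 2 ≤ (q₀ : ℝ)) (hA : 0 < A) :
    (BadP κ N q₀ Q A P).Finite ∧
      (BadP κ N q₀ Q A P).ncard ≤ ((Q + 1) * ((Q + 1) * (P * 4))) * Q := by
  classical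
  set J : Finset (ℕ × ℕ × ℕ × ℤ × ℤ) := (Finset.range (Q + 1) ×ˢ
    Finset.range (Q + 1) ×ˢ Finset.Icc 1 P ×ˢ ({1, -1} : Finset ℤ) ×ˢ
      ({1, -1} : Finset ℤ)).filter (fun j => IsPrimePow j.1 ∧ q₀ ≤ j.1 ∧
      j.2.2.1.Prime ∧ Q < j.2.2.1) with hJ
  have hJc : J.card ≤ (Q + 1) * ((Q + 1) * (P * 4)) := by
    refine (Finset.card_filter_le _ _).trans (le_of_eq ?_)
    rw [Finset.card_product, Finset.card_product, Finset.card_product, Finset.card_product,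
      Finset.card_range, Nat.card_Icc, Nat.add_sub_cancel]
    congr 1
  have h := V.ncard_le_of_cover (K := Q) J
    (fun j => SetP κ N j.1 j.2.1 j.2.2.1 A j.2.2.2.1 j.2.2.2.2) (by
      rintro ⟨q, i, p, s, σ⟩ hj
      rw [hJ, Finset.mem_filter] at hj
      obtain ⟨hj1, hq, hqq, hp, hQp⟩ := hj
      simp only [Finset.mem_product, Finset.mem_range, Finset.mem_Icc, Finset.mem_insert,
        Finset.mem_singleton] at hj1
      simp only at hq hqq hp hQp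
      obtain ⟨hqQ', hi, ⟨hp0, hpP⟩, hs, hσ⟩ := hj1
      have hqQ : q ≤ Q := by omega
      have hq0 : 0 < q := hq.pos
      have hpq : ¬ p ∣ q := by
        intro h
        have := Nat.le_of_dvd hq0 h
        omega
      have hqR : 100 / κ ^ 2 ≤ (q : ℝ) := hq₀.trans (by exact_mod_cast hqq)
      have h1 := W.setP_card (N := N) (i := i) (A := A) hκ0 hκ1 hq hqR hp hpq hA hs hσ
      exact ⟨h1.1, h1.2.trans hqQ⟩)
    (BadP κ N q₀ Q A P) (by
      rintro B ⟨q, i, p, s, σ, hq, hqq, hqQ, hiq, hs, hσ, hp, hpP, hQp, hsol⟩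
      refine ⟨(q, i, p, s, σ), ?_, hsol⟩
      rw [hJ, Finset.mem_filter]
      refine ⟨?_, hq, hqq, hp, hQp⟩
      simp only [Finset.mem_product, Finset.mem_range, Finset.mem_Icc, Finset.mem_insert,
        Finset.mem_singleton]
      exact ⟨by omega, by omega, ⟨hp.one_lt.le, hpP⟩, hs, hσ⟩)
  exact ⟨h.1, h.2.trans (Nat.mul_le_mul_right _ hJc)⟩

theorem badR_card {κ : ℝ} {N q₀ Q A : ℕ} (hκ0 : 0 < κ) (hκ1 : κ ≤ 1)
    (hq₀ : 100 / κ ^ 2 ≤ (q₀ : ℝ)) (hA : 0 < A) :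
    (BadR κ N q₀ Q A).Finite ∧
      (BadR κ N q₀ Q A).ncard ≤ ((Q + 1) * ((Q + 1) * 2)) * 1 := by
  classical
  set J : Finset (ℕ × ℕ × ℤ) := (Finset.range (Q + 1) ×ˢ
    Finset.range (Q + 1) ×ˢ ({1, -1} : Finset ℤ)).filter
      (fun j => IsPrimePow j.1 ∧ q₀ ≤ j.1) with hJ
  have hJc : J.card ≤ (Q + 1) * ((Q + 1) * 2) := by
    refine (Finset.card_filter_le _ _).trans (le_of_eq ?_)
    rw [Finset.card_product, Finset.card_product,
      Finset.card_range]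
    congr 1
  have h := V.ncard_le_of_cover (K := 1) J
    (fun j => SetR κ N j.1 j.2.1 A j.2.2) (by
      rintro ⟨q, i, σ⟩ hj
      rw [hJ, Finset.mem_filter] at hj
      obtain ⟨hj1, hq, hqq⟩ := hj
      simp only [Finset.mem_product, Finset.mem_range, Finset.mem_Icc, Finset.mem_insert,
        Finset.mem_singleton] at hj1
      simp only at hq hqq
      obtain ⟨hqQ', hi, hσ⟩ := hj1
      have hqR : 100 / κ ^ 2 ≤ (q : ℝ) := hq₀.trans (by exact_mod_cast hqq)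
      exact W.setR_card (N := N) (i := i) (A := A) hκ0 hκ1 hq hqR hA hσ)
    (BadR κ N q₀ Q A) (by
      rintro B ⟨q, i, σ, hq, hqq, hqQ, hiq, hσ, hsol⟩
      refine ⟨(q, i, σ), ?_, hsol⟩
      rw [hJ, Finset.mem_filter]
      refine ⟨?_, hq, hqq⟩
      simp only [Finset.mem_product, Finset.mem_range, Finset.mem_Icc, Finset.mem_insert,
        Finset.mem_singleton]
      exact ⟨by omega, by omega, hσ⟩)
  exact ⟨h.1, h.2.trans (Nat.mul_le_mul_right _ hJc)⟩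

/-- Solutions with typical `B` are in `BadP` or in `BadR`. -/
theorem mem_bad {N Y P₀ P Q q₀ A B x y z C : ℕ} {κ₁ θ : ℝ} (hκ0 : 0 < κ₁) (hκ1 : κ₁ ≤ 1)
    (hq₀ : 3 ≤ q₀) (hN1 : 1 ≤ N) (hY1 : 1 ≤ Y)
    (hQ : ∀ q : ℕ, q ≤ 10 ^ 9 * P₀ ^ 2 * (Nat.log 2 q + 1) ^ 2 * (Nat.log 2 N + 1) ^ 2 → q ≤ Q)
    (hQ1 : q₀ ^ 2 ≤ Q) (hQ2 : 2 ^ q₀ ≤ Q)
    (hP : ∀ p : ℕ, (p : ℝ) ≤ (N : ℝ) ^ θ → p ≤ P) (hQκ : (Q : ℝ) ≤ (N : ℝ) ^ κ₁)
    (hlarge : 50 * (3 / (κ₁ / 2) + 1) * Real.log (10 ^ 8 * (Q : ℝ) ^ 9) ≤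
      Real.log Y / 2 - Real.log 2)
    (hA0 : 0 < A) (hAN : A ≤ N) (hB0 : 0 < B) (hBN : B ≤ N) (hAB : Nat.Coprime A B)
    (hB : Typ N Y P₀ κ₁ θ B) (hx : 0 < x) (hy : 0 < y) (hz : q₀ ^ q₀ ≤ z) (hC : 0 < C)
    (h : A ^ x + B ^ y = C ^ z ∨ A ^ x + C ^ z = B ^ y ∨ B ^ y + C ^ z = A ^ x) :
    B ∈ BadP (κ₁ / 2) N q₀ Q A P ∪ BadR (κ₁ / 2) N q₀ Q A := by
  obtain ⟨p, hp, hpl, hpu, hpB⟩ := hB.mid
  obtain ⟨p', hp'P, hp', hp'3, hp'B⟩ := hB.three
  obtain ⟨q, U, hqp, hqq, hU0, hUq, hqU⟩ := W.exists_q (by omega : 2 ≤ q₀) hz hC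
  obtain ⟨x₂, hx2, hAx, hx1⟩ : ∃ x₂ : ℕ, 0 < x₂ ∧ A ^ x₂ = A ^ x ∧ (A = 1 → q ∣ x₂) := by
    by_cases h1 : A = 1
    · exact ⟨q, by omega, by rw [h1]; simp, fun _ => dvd_rfl⟩
    · exact ⟨x, hx, rfl, fun h2 => absurd h2 h1⟩
  obtain ⟨s, σ, hs, hσ, heq⟩ : ∃ s σ : ℤ, (s = 1 ∨ s = -1) ∧ (σ = 1 ∨ σ = -1) ∧
      (U : ℤ) ^ q - s * (A : ℤ) ^ x₂ = σ * (B : ℤ) ^ y := by
    have e1 : (U : ℤ) ^ q = (C : ℤ) ^ z := by exact_mod_cast hUq
    have e2 : (A : ℤ) ^ x₂ = (A : ℤ) ^ x := by exact_mod_cast hAx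
    rw [e1, e2]
    rcases h with h | h | h
    · have h' : (A : ℤ) ^ x + (B : ℤ) ^ y = (C : ℤ) ^ z := by exact_mod_cast h
      exact ⟨1, 1, Or.inl rfl, Or.inl rfl, by rw [← h']; ring⟩
    · have h' : (A : ℤ) ^ x + (C : ℤ) ^ z = (B : ℤ) ^ y := by exact_mod_cast h
      exact ⟨-1, 1, Or.inr rfl, Or.inl rfl, by rw [← h']; ring⟩
    · have h' : (B : ℤ) ^ y + (C : ℤ) ^ z = (A : ℤ) ^ x := by exact_mod_cast h
      exact ⟨1, -1, Or.inl rfl, Or.inr rfl, by rw [← h']; ring⟩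
  have hqQ : q ≤ Q := by
    rcases hqU with h4 | h4 | ⟨hqprime, hU2⟩
    · exact h4.trans hQ1
    · exact h4.trans hQ2
    · apply hQ
      have hp3' : 3 ≤ p' := by
        have := hp'.two_le
        rcases Nat.lt_or_ge p' 3 with h | h
        · have : p' = 2 := by omega
          subst this
          norm_num at hp'3
        · exact h
      exact W.q_bound hs hσ hqprime (by omega) hA0 hAN hAB hB0 hBN hx2 hx1 hy hU2 hp'
        hp3' hp'P hp'B heq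
  have hqpos : 0 < q := hqp.pos
  have hx2q : q * (x₂ / q) + x₂ % q = x₂ := Nat.div_add_mod x₂ q
  -- sizes
  have hNR : (0 : ℝ) < N := by exact_mod_cast hN1
  have hYR : (0 : ℝ) < Y := by exact_mod_cast hY1
  have hBR : (0 : ℝ) < B := by exact_mod_cast hB0
  have hlogB : 0 ≤ Real.log B := Real.log_natCast_nonneg B
  have hy1 : (1 : ℝ) ≤ y := by exact_mod_cast hy
  have hHge : B ^ y ≤ 2 * ht q A U x₂ := by
    have h1 : (B : ℤ) ^ y ≤ (U : ℤ) ^ q + (A : ℤ) ^ x₂ := by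
      have hB1 : (0 : ℤ) ≤ (B : ℤ) ^ y := by positivity
      have hA1 : (0 : ℤ) ≤ (A : ℤ) ^ x₂ := by positivity
      have hU1 : (0 : ℤ) ≤ (U : ℤ) ^ q := by positivity
      rcases hs with rfl | rfl <;> rcases hσ with rfl | rfl <;> linarith
    have h2 : B ^ y ≤ U ^ q + A ^ x₂ := by exact_mod_cast h1
    have h3 : U ^ q ≤ ht q A U x₂ := le_max_left _ _
    have h4 : A ^ x₂ ≤ ht q A U x₂ := le_max_right _ _
    omega
  have hH0 : 0 < ht q A U x₂ := lt_of_lt_of_le (pow_pos hU0 q) (le_max_left _ _)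
  have hH0R : (0 : ℝ) < ht q A U x₂ := by exact_mod_cast hH0
  have hlogH : 0 ≤ Real.log (ht q A U x₂) := Real.log_natCast_nonneg _
  have hHlog : y * Real.log B ≤ Real.log 2 + Real.log (ht q A U x₂) := by
    rw [← Real.log_pow, ← Real.log_mul (by norm_num) hH0R.ne']
    apply Real.log_le_log (by positivity)
    exact_mod_cast hHge
  have hBbig : Real.log Y / 2 ≤ Real.log B := by
    have h1 : (Y : ℝ) ≤ (B : ℝ) ^ 2 := by exact_mod_cast hB.big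
    have h2 := Real.log_le_log hYR h1
    rw [Real.log_pow] at h2
    push_cast at h2
    linarith
  have hyB : Real.log B ≤ y * Real.log B := le_mul_of_one_le_left hlogB hy1
  have hlg : 50 * (3 / (κ₁ / 2) + 1) * Real.log (10 ^ 8 * (q : ℝ) ^ 9) ≤
      Real.log (ht q A U x₂) := by
    have h1 : Real.log (10 ^ 8 * (q : ℝ) ^ 9) ≤ Real.log (10 ^ 8 * (Q : ℝ) ^ 9) := by
      have hqR : (0 : ℝ) < q := by exact_mod_cast hqpos
      have hqQR : (q : ℝ) ≤ Q := by exact_mod_cast hqQ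
      apply Real.log_le_log (by positivity)
      gcongr
    have h2 : (0 : ℝ) ≤ 50 * (3 / (κ₁ / 2) + 1) := by positivity
    have h3 := mul_le_mul_of_nonneg_left h1 h2
    linarith
  rcases le_or_gt (Real.log (ht q A U x₂)) (2 * (y * Real.log B)) with hcase | hcase
  · left
    have hQp : Q < p := by
      have : (Q : ℝ) < p := hQκ.trans_lt hpl
      exact_mod_cast this
    refine ⟨q, x₂ % q, p, s, σ, hqp, hqq, hqQ, Nat.mod_lt _ hqpos, hs, hσ, hp,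
      hP p hpu, hQp, hB0, hBN, hpB, hAB, hB.np, x₂ / q, y, U, hy, hU0, ?_, ?_, ?_⟩
    · rw [hx2q]; exact heq
    · rw [hx2q]
      have h1 : κ₁ * Real.log N ≤ Real.log p := by
        rw [← Real.log_rpow hNR]
        exact Real.log_le_log (Real.rpow_pos_of_pos hNR _) hpl.le
      have h2 : Real.log B ≤ Real.log N := Real.log_le_log hBR (by exact_mod_cast hBN)
      calc κ₁ / 2 * Real.log (ht q A U x₂) ≤ κ₁ / 2 * (2 * (y * Real.log B)) := by gcongr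
        _ = y * (κ₁ * Real.log B) := by ring
        _ ≤ y * (κ₁ * Real.log N) := by gcongr
        _ ≤ y * Real.log p := by gcongr
    · rw [hx2q]; exact hlg
  · right
    have hs1 : s = 1 := by
      rcases hs with h1 | h1
      · exact h1
      · exfalso
        rw [h1] at heq
        have h2 : U ^ q + A ^ x₂ ≤ B ^ y := by
          have hA1 : (0 : ℤ) ≤ (A : ℤ) ^ x₂ := by positivity
          have hU1 : (0 : ℤ) ≤ (U : ℤ) ^ q := by positivity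
          have hB1 : (0 : ℤ) ≤ (B : ℤ) ^ y := by positivity
          have : (U : ℤ) ^ q + (A : ℤ) ^ x₂ ≤ (B : ℤ) ^ y := by
            rcases hσ with rfl | rfl <;> linarith
          exact_mod_cast this
        have h3 : ht q A U x₂ ≤ B ^ y := by
          unfold ht
          apply max_le <;> omega
        have h4 : Real.log (ht q A U x₂) ≤ y * Real.log B := by
          rw [← Real.log_pow]
          apply Real.log_le_log hH0R
          exact_mod_cast h3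
        have h5 : 0 ≤ y * Real.log B := by positivity
        linarith
    refine ⟨q, x₂ % q, σ, hqp, hqq, hqQ, Nat.mod_lt _ hqpos, hσ, hB0, hBN, hAB,
      hB.np, x₂ / q, y, U, hy, hU0, ?_, ?_, ?_⟩
    · rw [hx2q]
      rw [hs1, one_mul] at heq
      exact heq
    · rw [hx2q]
      have h1 : (1 / 2 : ℝ) * Real.log (ht q A U x₂) ≤
          (1 - κ₁ / 2) * Real.log (ht q A U x₂) := by
        apply mul_le_mul_of_nonneg_right _ hlogH
        linarith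
      linarith
    · rw [hx2q]; exact hlg

end Pool.Agent.H755R4
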