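import Mathlib
import Pool.Agent.H374R2.GcA
import Pool.Agent.H374R2.V.Final
import Pool.Agent.H374R2.W.QN
import Pool.Agent.H374R2.W.CR
import Pool.Agent.H353R2.Z2

/-!
Even exponents: for a given base `A` few bases `B` with `A ^ (2 x) ± B ^ (2 y) = ± W ^ 2`.
-/

set_option autoImplicit false

namespace Pool.Agent.H755R4

open Finset Filter Topology Pool.Agent.H374R2

/-- `a ^ 2 + Q ^ k = W ^ 2` with `Q` odd. -/
theorem split_sq {a Q k W : ℕ} (hQ2 : ¬ 2 ∣ Q) (ha : 0 < a) (hk : 0 < k)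
    (hco : Nat.Coprime a Q) (h : a ^ 2 + Q ^ k = W ^ 2) :
    ∃ E F : ℕ, Q = E * F ∧ Nat.Coprime E F ∧ 0 < E ∧ E < F ∧ F ^ k = E ^ k + 2 * a := by
  have hQ0 : 0 < Q := by
    rcases Nat.eq_zero_or_pos Q with h0 | h0
    · rw [h0] at hQ2; simp at hQ2
    · exact h0
  have hT0 : 0 < Q ^ k := by positivity
  have haW : a < W := by
    by_contra hcon
    push Not at hcon
    have := Nat.pow_le_pow_left hcon 2
    omega
  obtain ⟨V, hV⟩ := Nat.exists_eq_add_of_lt haW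
  have hfac : (V + 1) * (2 * a + (V + 1)) = Q ^ k := by
    have : (a + V + 1) ^ 2 = a ^ 2 + (V + 1) * (2 * a + (V + 1)) := by ring
    rw [hV, this] at h
    omega
  have hcop : Nat.Coprime (V + 1) (2 * a + (V + 1)) := by
    apply Nat.coprime_of_dvd
    intro l hl h1 h2
    have h3 : l ∣ Q := hl.dvd_of_dvd_pow (hfac ▸ Dvd.dvd.mul_right h1 _)
    have h4 : l ∣ 2 * a := (Nat.dvd_add_left h1).mp h2
    rcases (Nat.Prime.dvd_mul hl).mp h4 with h5 | h5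
    · have := (Nat.prime_dvd_prime_iff_eq hl Nat.prime_two).mp h5
      rw [this] at h3
      exact hQ2 h3
    · exact hl.not_dvd_one (hco ▸ Nat.dvd_gcd h5 h3)
  obtain ⟨E, F, hE, hF, hEF⟩ := Cof.eq_pow_of_coprime hcop hfac hk
  have hlt : E ^ k < F ^ k := by rw [← hE, ← hF]; omega
  have hE0 : 0 < E := by
    rcases Nat.eq_zero_or_pos E with h0 | h0
    · rw [h0, zero_mul] at hEF; omega
    · exact h0
  refine ⟨E, F, hEF, ?_, hE0, lt_of_pow_lt_pow_left₀ k (Nat.zero_le _) hlt, ?_⟩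
  · rw [hF, hE] at hcop
    exact (Nat.coprime_pow_left_iff hk _ _).mp ((Nat.coprime_pow_right_iff hk _ _).mp hcop)
  · rw [← hE, ← hF]; ring

/-- Bound for the exponents. -/
theorem exp_bound (P₀ : ℕ) : ∃ ν₀ : ℕ, ∀ ν N E F x y p : ℕ, ν₀ ≤ ν → N < 2 ^ ν → 0 < E → E < F →
    F ≤ N → p.Prime → p ≠ 2 → p ≤ P₀ → ¬ p ∣ F → ¬ p ∣ E → 0 < x →
    p ^ y ∣ F ^ (2 * x) - E ^ (2 * x) → F ^ (2 * x) ≤ E ^ (2 * x) + 2 * N ^ y →
      x ≤ 2 * ν ^ 4 ∧ y ≤ 2 * ν ^ 4 := by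
  obtain ⟨ν₀, hν₀⟩ := W.QN.q_num P₀
  refine ⟨max ν₀ (P₀ + 1), fun ν N E F x y p hν hN hE hEF hFN hp hp2 hpP hpF hpE hx hdvd hsz => ?_⟩
  have hν1 : ν₀ ≤ ν := (le_max_left _ _).trans hν
  have hνP : P₀ + 1 ≤ ν := (le_max_right _ _).trans hν
  have hν0 : 1 ≤ ν := by omega
  have hP1 : 1 ≤ P₀ := hp.one_lt.le.trans hpP
  have hdvd' : ((p ^ y : ℕ) : ℤ) ∣ (F : ℤ) ^ (2 * x) - (E : ℤ) ^ (2 * x) := by
    have h1 : ((F ^ (2 * x) - E ^ (2 * x) : ℕ) : ℤ) = (F : ℤ) ^ (2 * x) - (E : ℤ) ^ (2 * x) := by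
      rw [Nat.cast_sub (Nat.pow_le_pow_left hEF.le _)]
      push_cast; rfl
    rw [← h1]
    exact_mod_cast hdvd
  have hlte := Gc.lte_bound hp hp2 hpF hpE hEF hFN (by omega : 0 < 2 * x) hdvd'
  -- size
  have h1 : F ^ (2 * x - 1) ≤ 2 * N ^ y := by
    have h1 : E ^ (2 * x) + F ^ (2 * x - 1) ≤ F ^ (2 * x) := by
      obtain ⟨k, hk⟩ : ∃ k, 2 * x = k + 1 := ⟨2 * x - 1, by omega⟩
      rw [hk, Nat.add_sub_cancel, pow_succ, pow_succ]
      have h2 : E ^ k ≤ F ^ k := Nat.pow_le_pow_left hEF.le k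
      calc E ^ k * E + F ^ k ≤ F ^ k * E + F ^ k := by
            exact Nat.add_le_add_right (Nat.mul_le_mul_right _ h2) _
        _ = F ^ k * (E + 1) := by ring
        _ ≤ F ^ k * F := Nat.mul_le_mul_left _ hEF
    omega
  have h2 : 2 ^ (2 * x - 1) ≤ 2 ^ (1 + ν * y) := by
    calc 2 ^ (2 * x - 1) ≤ F ^ (2 * x - 1) := Nat.pow_le_pow_left (by omega) _
      _ ≤ 2 * N ^ y := h1
      _ ≤ 2 * (2 ^ ν) ^ y := Nat.mul_le_mul_left _ (Nat.pow_le_pow_left hN.le y)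
      _ = 2 ^ (1 + ν * y) := by rw [← pow_mul, pow_add, pow_one]
  have h3 : 2 * x - 1 ≤ 1 + ν * y := (Nat.pow_le_pow_iff_right (by norm_num)).mp h2
  -- bound for `y`
  have h4 : 2 ^ y < 2 ^ (ν * P₀ + (Nat.log 2 (2 * x) + 1)) := by
    have h5 : 2 * x < 2 ^ (Nat.log 2 (2 * x) + 1) := Nat.lt_pow_succ_log_self (by norm_num) _
    calc 2 ^ y ≤ N ^ (p - 1) * (2 * x) := hlte
      _ ≤ (2 ^ ν) ^ P₀ * (2 * x) := by
          apply Nat.mul_le_mul_right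
          calc N ^ (p - 1) ≤ (2 ^ ν) ^ (p - 1) := Nat.pow_le_pow_left hN.le _
            _ ≤ (2 ^ ν) ^ P₀ := Nat.pow_le_pow_right (by positivity) (by omega)
      _ < (2 ^ ν) ^ P₀ * 2 ^ (Nat.log 2 (2 * x) + 1) := Nat.mul_lt_mul_of_pos_left h5 (by positivity)
      _ = _ := by rw [← pow_mul, ← pow_add]
  have h5 : y < ν * P₀ + (Nat.log 2 (2 * x) + 1) := (Nat.pow_lt_pow_iff_right (by norm_num)).mp h4
  have h6 : 2 * x ≤ 10 ^ 9 * P₀ ^ 2 * (Nat.log 2 (2 * x) + 1) ^ 2 * ν ^ 2 := by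
    set l := Nat.log 2 (2 * x) with hl
    have e1 : 2 * x ≤ 2 + ν * (ν * P₀ + l) := by
      have : ν * y ≤ ν * (ν * P₀ + l) := Nat.mul_le_mul_left _ (by omega)
      omega
    have e2 : 1 ≤ P₀ ^ 2 * (l + 1) ^ 2 * ν ^ 2 := Nat.one_le_iff_ne_zero.mpr (by positivity)
    have e3 : ν * (ν * P₀) ≤ P₀ ^ 2 * (l + 1) ^ 2 * ν ^ 2 := by
      calc ν * (ν * P₀) = P₀ * 1 * ν ^ 2 := by ring
        _ ≤ P₀ ^ 2 * (l + 1) ^ 2 * ν ^ 2 := by
            apply Nat.mul_le_mul_right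
            apply Nat.mul_le_mul
            · exact Nat.le_self_pow (by norm_num) _
            · exact Nat.one_le_pow _ _ (by omega)
    have e4 : ν * l ≤ P₀ ^ 2 * (l + 1) ^ 2 * ν ^ 2 := by
      calc ν * l = 1 * l * ν := by ring
        _ ≤ P₀ ^ 2 * (l + 1) ^ 2 * ν ^ 2 := by
            apply Nat.mul_le_mul
            · apply Nat.mul_le_mul
              · exact Nat.one_le_pow _ _ hP1
              · exact (Nat.le_succ l).trans (Nat.le_self_pow (by norm_num) _)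
            · exact Nat.le_self_pow (by norm_num) _
    have e5 : 10 ^ 9 * P₀ ^ 2 * (l + 1) ^ 2 * ν ^ 2 = 10 ^ 9 * (P₀ ^ 2 * (l + 1) ^ 2 * ν ^ 2) := by
      ring
    rw [e5]
    have e6 : ν * (ν * P₀ + l) = ν * (ν * P₀) + ν * l := by ring
    rw [e6] at e1
    omega
  have h7 := hν₀ ν (2 * x) hν1 h6
  have h8 : Nat.log 2 (2 * x) ≤ ν ^ 4 := (Nat.log_le_self 2 _).trans h7
  have h9 : ν * P₀ + 1 ≤ ν ^ 4 := by
    calc ν * P₀ + 1 ≤ ν * P₀ + ν := by omega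
      _ = ν * (P₀ + 1) := by ring
      _ ≤ ν * ν := Nat.mul_le_mul_left _ hνP
      _ = ν ^ 2 := by ring
      _ ≤ ν ^ 4 := Nat.pow_le_pow_right hν0 (by norm_num)
  constructor <;> omega

/-- The case `B` odd. -/
theorem split_two {E F A x y : ℕ} (hE2 : ¬ 2 ∣ E) (hF2 : ¬ 2 ∣ F) (hEF : Nat.Coprime E F)
    (hE : 0 < E) (hlt : E < F) (hx : 0 < x) (hy : 0 < y) (h : F ^ (2 * y) = E ^ (2 * y) + 2 * A ^ x) :
    ∃ O V : ℕ, A = O * V ∧ (4 * (E * F) ^ y + V ^ (2 * x) = 4 * O ^ (2 * x) ∨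
      4 * (E * F) ^ y + 4 * O ^ (2 * x) = V ^ (2 * x)) := by
  have hle : E ^ y < F ^ y := Nat.pow_lt_pow_left hlt hy.ne'
  have hodd : ∀ {T : ℕ}, ¬ 2 ∣ T → ¬ 2 ∣ T ^ y := fun hT h => hT (Nat.prime_two.dvd_of_dvd_pow h)
  have hEy := hodd hE2
  have hFy := hodd hF2
  obtain ⟨g, hg⟩ : ∃ g, F ^ y = E ^ y + 2 * g := ⟨(F ^ y - E ^ y) / 2, by omega⟩
  -- `h' = E ^ y + g`
  set e := E ^ y with he
  have hg0 : 0 < g := by omega
  have hprod : (2 * g) * (e + g) = A ^ x := by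
    have h1 : F ^ (2 * y) = (F ^ y) ^ 2 := by rw [← pow_mul, mul_comm]
    have h2 : E ^ (2 * y) = e ^ 2 := by rw [he, ← pow_mul, mul_comm]
    rw [h1, h2, hg] at h
    nlinarith
  have hcop : Nat.Coprime g (e + g) := by
    have h1 : Nat.Coprime e (e + 2 * g) := by
      rw [← hg, he]
      exact Nat.Coprime.pow _ _ hEF
    apply Nat.coprime_of_dvd
    intro l hl h2 h3
    have h4 : l ∣ e := (Nat.dvd_add_left h2).mp h3
    have h5 : l ∣ e + 2 * g := dvd_add h4 (Dvd.dvd.mul_left h2 2)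
    exact hl.not_dvd_one (h1 ▸ Nat.dvd_gcd h4 h5)
  have hBy : (E * F) ^ y + g ^ 2 = (e + g) ^ 2 := by
    rw [mul_pow, ← he, hg]; ring
  have hx2 : ∀ T : ℕ, T ^ (2 * x) = (T ^ x) ^ 2 := fun T => by rw [← pow_mul, mul_comm]
  rcases Nat.even_or_odd g with hge | hgo
  · -- `g` even, `e + g` odd
    have h2 : Nat.Coprime (2 * g) (e + g) := by
      apply Nat.Coprime.mul_left _ hcop
      rw [Nat.prime_two.coprime_iff_not_dvd]
      intro h3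
      have h4 : 2 ∣ g := even_iff_two_dvd.mp hge
      exact hEy ((Nat.dvd_add_left h4).mp h3)
    obtain ⟨V, O, hV, hO, hA⟩ := Cof.eq_pow_of_coprime h2 hprod hx
    refine ⟨O, V, by rw [hA, mul_comm], Or.inl ?_⟩
    rw [hx2, hx2, ← hV, ← hO]
    nlinarith
  · have h2 : Nat.Coprime g (2 * (e + g)) := by
      apply Nat.Coprime.mul_right _ hcop
      rw [Nat.coprime_two_right]
      exact hgo
    have hprod' : g * (2 * (e + g)) = A ^ x := by rw [← hprod]; ring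
    obtain ⟨O, V, hO, hV, hA⟩ := Cof.eq_pow_of_coprime h2 hprod' hx
    refine ⟨O, V, hA, Or.inr ?_⟩
    rw [hx2, hx2, ← hV, ← hO]
    nlinarith

/-- `B` has a small prime divisor which is `3` modulo `4`. -/
def Three (P₀ B : ℕ) : Prop := ∃ p, p ≤ P₀ ∧ p.Prime ∧ p % 4 = 3 ∧ p ∣ B

/-- Relations which determine `B ^ y`. -/
def Rel (A D x : ℕ) (t : Fin 3) (T : ℕ) : Prop :=
  (t = 0 → 2 * T + D ^ (2 * x) = (A / D) ^ (2 * x)) ∧
  (t = 1 → 4 * T + (A / D) ^ (2 * x) = 4 * D ^ (2 * x)) ∧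
  (t = 2 → 4 * T + 4 * D ^ (2 * x) = (A / D) ^ (2 * x))

theorem rel_unique {A D x : ℕ} {t : Fin 3} {T T' : ℕ} (h : Rel A D x t T) (h' : Rel A D x t T') :
    T = T' := by
  obtain ⟨h1, h2, h3⟩ := h
  obtain ⟨h1', h2', h3'⟩ := h'
  fin_cases t
  · have a := h1 rfl
    have b := h1' rfl
    omega
  · have a := h2 rfl
    have b := h2' rfl
    omega
  · have a := h3 rfl
    have b := h3' rfl
    omega

theorem even_rel (P₀ : ℕ) : ∃ ν₀ : ℕ, ∀ ν N A B x y W : ℕ, ν₀ ≤ ν → N < 2 ^ ν →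
    0 < A → A ≤ N → 0 < B → B ≤ N → Nat.Coprime A B → Three P₀ A → Three P₀ B → 0 < x → 0 < y →
    (A ^ (2 * x) + B ^ (2 * y) = W ^ 2 ∨ A ^ (2 * x) + W ^ 2 = B ^ (2 * y) ∨
      B ^ (2 * y) + W ^ 2 = A ^ (2 * x)) →
    ∃ D, D ∣ A ∧ x ≤ 2 * ν ^ 4 ∧ ∃ t, Rel A D x t (B ^ y) := by
  obtain ⟨ν₀, hν₀⟩ := exp_bound P₀
  refine ⟨ν₀, fun ν N A B x y W hν hN hA hAN hB hBN hAB hA3 hB3 hx hy h => ?_⟩
  obtain ⟨r, hrP, hr, hr3, hrA⟩ := hA3
  obtain ⟨p, hpP, hp, hp3, hpB⟩ := hB3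
  have hr2 : r ≠ 2 := by rintro rfl; norm_num at hr3
  have hp2 : p ≠ 2 := by rintro rfl; norm_num at hp3
  have hdisj : ∀ l : ℕ, l.Prime → l ∣ A → l ∣ B → False := fun l hl h1 h2 =>
    hl.not_dvd_one (hAB ▸ Nat.dvd_gcd h1 h2)
  have sq : ∀ T k : ℕ, T ^ (2 * k) = (T ^ k) ^ 2 := fun T k => by rw [← pow_mul, mul_comm]
  have nosq : ∀ {l a c T : ℕ}, l.Prime → l % 4 = 3 → l ∣ T → ¬ l ∣ a → a ^ 2 + c ^ 2 = T → False := by
    intro l a c T hl h3 hlT hla h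
    have : Fact l.Prime := ⟨hl⟩
    have h1 : (a : ZMod l) ≠ 0 := by rwa [Ne, ZMod.natCast_eq_zero_iff]
    have h2 : (a : ZMod l) ^ 2 + (c : ZMod l) ^ 2 = 0 := by
      have h4 : ((a ^ 2 + c ^ 2 : ℕ) : ZMod l) = 0 := by
        rw [ZMod.natCast_eq_zero_iff, h]; exact hlT
      push_cast at h4
      exact h4
    have h5 : (c : ZMod l) ^ 2 = -(a : ZMod l) ^ 2 := by linear_combination h2
    exact ZMod.mod_four_ne_three_of_sq_eq_neg_sq' h1 h5 h3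
  rcases h with h | h | h
  swap
  · exfalso
    rw [sq A x] at h
    exact nosq hp hp3 (hpB.trans (dvd_pow_self B (by omega)))
      (fun h1 => hdisj p hp (hp.dvd_of_dvd_pow h1) hpB) h
  swap
  · exfalso
    rw [sq B y] at h
    exact nosq hr hr3 (hrA.trans (dvd_pow_self A (by omega)))
      (fun h1 => hdisj r hr hrA (hr.dvd_of_dvd_pow h1)) h
  by_cases hA2 : 2 ∣ A
  · -- `B` odd
    have hB2 : ¬ 2 ∣ B := fun h2 => hdisj 2 Nat.prime_two hA2 h2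
    rw [sq A x] at h
    obtain ⟨E, F, hBEF, hco, hE, hEF, hdiff⟩ := split_sq hB2 (pow_pos hA x) (by omega : 0 < 2 * y)
      (Nat.Coprime.pow_left x hAB) h
    have hE2 : ¬ 2 ∣ E := fun h2 => hB2 (hBEF ▸ Dvd.dvd.mul_right h2 _)
    have hF2 : ¬ 2 ∣ F := fun h2 => hB2 (hBEF ▸ Dvd.dvd.mul_left h2 _)
    have hrE : ¬ r ∣ E := fun h2 => hdisj r hr hrA (hBEF ▸ Dvd.dvd.mul_right h2 _)
    have hrF : ¬ r ∣ F := fun h2 => hdisj r hr hrA (hBEF ▸ Dvd.dvd.mul_left h2 _)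
    have hFN : F ≤ N := by
      calc F ≤ E * F := Nat.le_mul_of_pos_left _ hE
        _ ≤ N := by rw [← hBEF]; exact hBN
    have hb := hν₀ ν N E F y x r hν hN hE hEF hFN hr hr2 hrP hrF hrE hy (by
        rw [hdiff, Nat.add_sub_cancel_left]
        exact Dvd.dvd.mul_left (pow_dvd_pow_of_dvd hrA x) 2) (by
        rw [hdiff]
        exact Nat.add_le_add_left (Nat.mul_le_mul_left _ (Nat.pow_le_pow_left hAN x)) _)
    obtain ⟨O, V, hOV, hrel⟩ := split_two hE2 hF2 hco hE hEF hx hy hdiff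
    have hO0 : 0 < O := by
      rcases Nat.eq_zero_or_pos O with h0 | h0
      · rw [h0, zero_mul] at hOV; omega
      · exact h0
    have hdiv : A / O = V := by rw [hOV]; exact Nat.mul_div_cancel_left V hO0
    refine ⟨O, Dvd.intro _ hOV.symm, hb.2, ?_⟩
    rw [← hBEF] at hrel
    rcases hrel with h1 | h1
    · refine ⟨1, ?_, ?_, ?_⟩
      · intro h2; simp at h2
      · intro _; rw [hdiv]; exact h1
      · intro h2; simp at h2
    · refine ⟨2, ?_, ?_, ?_⟩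
      · intro h2; simp at h2
      · intro h2; simp at h2
      · intro _; rw [hdiv]; exact h1
  · -- `A` odd
    rw [add_comm, sq B y] at h
    obtain ⟨E, F, hAEF, hco, hE, hEF, hdiff⟩ := split_sq hA2 (pow_pos hB y) (by omega : 0 < 2 * x)
      (Nat.Coprime.pow_left y hAB.symm) h
    have hpE : ¬ p ∣ E := fun h2 => hdisj p hp (hAEF ▸ Dvd.dvd.mul_right h2 _) hpB
    have hpF : ¬ p ∣ F := fun h2 => hdisj p hp (hAEF ▸ Dvd.dvd.mul_left h2 _) hpB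
    have hFN : F ≤ N := by
      calc F ≤ E * F := Nat.le_mul_of_pos_left _ hE
        _ ≤ N := by rw [← hAEF]; exact hAN
    have hb := hν₀ ν N E F x y p hν hN hE hEF hFN hp hp2 hpP hpF hpE hx (by
        rw [hdiff, Nat.add_sub_cancel_left]
        exact Dvd.dvd.mul_left (pow_dvd_pow_of_dvd hpB y) 2) (by
        rw [hdiff]
        exact Nat.add_le_add_left (Nat.mul_le_mul_left _ (Nat.pow_le_pow_left hBN y)) _)
    have hdiv : A / E = F := by rw [hAEF]; exact Nat.mul_div_cancel_left F hE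
    refine ⟨E, Dvd.intro _ hAEF.symm, hb.1, 0, ?_, ?_, ?_⟩
    · intro _; rw [hdiv, hdiff]; ring
    · intro h2; simp at h2
    · intro h2; simp at h2

/-- The `B` which are bad for `A`, all exponents being even. -/
def BadE (P₀ N A : ℕ) : Set ℕ :=
  {B | 0 < B ∧ B ≤ N ∧ Nat.Coprime A B ∧ Three P₀ B ∧ (¬ ∃ w k : ℕ, 2 ≤ k ∧ B = w ^ k) ∧
    ∃ x y W : ℕ, 0 < x ∧ 0 < y ∧ (A ^ (2 * x) + B ^ (2 * y) = W ^ 2 ∨
      A ^ (2 * x) + W ^ 2 = B ^ (2 * y) ∨ B ^ (2 * y) + W ^ 2 = A ^ (2 * x))}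

theorem even_card (P₀ : ℕ) : ∃ ν₀ : ℕ, ∀ ν N A : ℕ, ν₀ ≤ ν → N < 2 ^ ν → 0 < A → A ≤ N →
    Three P₀ A → (BadE P₀ N A).Finite ∧
      (BadE P₀ N A).ncard ≤ A.divisors.card * ((2 * ν ^ 4 + 1) * 3) := by
  obtain ⟨ν₀, hν₀⟩ := even_rel P₀
  refine ⟨ν₀, fun ν N A hν hN hA hAN hA3 => ?_⟩
  classical
  have h := V.ncard_le_of_cover (K := 1)
    (A.divisors ×ˢ (Finset.range (2 * ν ^ 4 + 1) ×ˢ (Finset.univ : Finset (Fin 3))))
    (fun j => {B : ℕ | 0 < B ∧ (¬ ∃ w k : ℕ, 2 ≤ k ∧ B = w ^ k) ∧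
      ∃ y, 0 < y ∧ Rel A j.1 j.2.1 j.2.2 (B ^ y)}) (by
      intro j _
      have hs : {B : ℕ | 0 < B ∧ (¬ ∃ w k : ℕ, 2 ≤ k ∧ B = w ^ k) ∧
          ∃ y, 0 < y ∧ Rel A j.1 j.2.1 j.2.2 (B ^ y)}.Subsingleton := by
        rintro B ⟨hB0, hBp, y, hy, hr⟩ B' ⟨hB0', hBp', y', hy', hr'⟩
        exact W.CR.eq_of_pow_eq hB0 hB0' hy hy' hBp hBp' (rel_unique hr hr')
      exact ⟨hs.finite, (Set.ncard_le_one hs.finite).mpr (fun a ha b hb => hs ha hb)⟩)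
    (BadE P₀ N A) (by
      rintro B ⟨hB0, hBN, hAB, hB3, hBp, x, y, W, hx, hy, h⟩
      obtain ⟨D, hD, hxν, t, ht⟩ := hν₀ ν N A B x y W hν hN hA hAN hB0 hBN hAB hA3 hB3 hx hy h
      refine ⟨(D, x, t), ?_, hB0, hBp, y, hy, ht⟩
      simp only [Finset.mem_product, Nat.mem_divisors, Finset.mem_range, Finset.mem_univ, and_true]
      exact ⟨⟨hD, hA.ne'⟩, by omega⟩)
  refine ⟨h.1, h.2.trans (le_of_eq ?_)⟩
  rw [Finset.card_product, Finset.card_product, Finset.card_range, Finset.card_univ, Fintype.card_fin,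
    mul_one]

end Pool.Agent.H755R4
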