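import Mathlib
import Pool.Agent.H755R4.Core

set_option autoImplicit false

namespace Pool.Agent.H755R4

open Finset Filter Topology Pool.Agent.H374R2
open Pool.Agent.H374R2.W (SetP SetR ht)

/-- `(A, B)` is exceptional for an exponent at least `Z₀`. -/
def Sol (Z₀ A B : ℕ) : Prop :=
  ∃ x y z C : ℕ, 0 < x ∧ 0 < y ∧ Z₀ ≤ z ∧ 0 < C ∧
    (A ^ x + B ^ y = C ^ z ∨ A ^ x + C ^ z = B ^ y ∨ B ^ y + C ^ z = A ^ x)

theorem core (K : ℕ) (hK : 1 ≤ K) {ε : ℝ} (hε : 0 < ε) (hε1 : ε < 1) : ∃ Z₀ L : ℕ,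
    ∀ N Y b : ℕ, L ≤ Y → b + Y ≤ N → N ≤ Y ^ K →
      ∃ T : Set ℕ, T ⊆ Set.Ioc b (b + Y) ∧ (T.ncard : ℝ) ≤ ε * Y ∧ ∀ A : ℕ, 0 < A → A ≤ N →
        (({B : ℕ | B ∈ Set.Ioc b (b + Y) ∧ B ∉ T ∧ Nat.Coprime A B ∧ Sol Z₀ A B}.ncard : ℕ) : ℝ) ≤
          (Y : ℝ) ^ ε := by
  have hKR : (1 : ℝ) ≤ K := by exact_mod_cast hK
  have hK0 : (0 : ℝ) < K := by linarith
  obtain ⟨κ₁, hκ0, hκθ, N₁, hN₁⟩ := prime_between (ε := ε / 8) (θ := ε / (4 * K)) (by positivity)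
    (by positivity) (by
      rw [div_le_one (by positivity)]
      linarith) K (by
      have : 2 * (K : ℝ) * (ε / (4 * K)) = ε / 2 := by field_simp; ring
      rw [this]; linarith)
  obtain ⟨P₀, N₂, hN₂⟩ := three_prime (ε := ε / 8) (by positivity)
  obtain ⟨N₃, hN₃⟩ := perfect_powers (ε := ε / 8) (by positivity) K
  obtain ⟨N₄, hN₄⟩ := small_sq (ε := ε / 8) (by positivity)
  obtain ⟨ν₀, hν₀⟩ := W.q_num P₀
  have hθ1 : ε / (4 * K) ≤ 1 := by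
    rw [div_le_one (by positivity)]
    linarith
  have hκ1 : κ₁ ≤ 1 := by linarith
  set q₀ : ℕ := ⌈100 / (κ₁ / 2) ^ 2⌉₊ + 3 with hq₀
  have hq₀R : 100 / (κ₁ / 2) ^ 2 ≤ (q₀ : ℝ) := by
    rw [hq₀]
    push_cast
    have := Nat.le_ceil (100 / (κ₁ / 2) ^ 2)
    linarith
  have hq₀3 : 3 ≤ q₀ := by omega
  refine ⟨q₀ ^ q₀, ?_⟩
  -- the exponent for the size of `Q`
  set G : ℝ := 50 * (3 / (κ₁ / 2) + 1) with hG
  have hG0 : 0 < G := by positivity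
  set c : ℝ := min (κ₁ / 2) (min (ε / (32 * K)) (1 / (72 * G * K))) with hc
  have hc0 : 0 < c := by
    rw [hc]
    refine lt_min (by positivity) (lt_min (by positivity) (by positivity))
  have hc2 : c ≤ ε / (32 * K) := (min_le_right _ _).trans (min_le_left _ _)
  have hc2' : c * K ≤ ε / 32 := by
    calc c * K ≤ ε / (32 * K) * K := by gcongr
      _ = ε / 32 := by field_simp
  have hc3 : c * (72 * G * K) ≤ 1 := by
    have h1 : c ≤ 1 / (72 * G * K) := (min_le_right _ _).trans (min_le_right _ _)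
    calc c * (72 * G * K) ≤ 1 / (72 * G * K) * (72 * G * K) := by gcongr
      _ = 1 := by field_simp
  have e1 := Gc.log_pow_le (k := 4) hc0 (show (0 : ℝ) < 81 by norm_num)
  have e2 := Gc.log_pow_le (k := 0) hc0 (show (0 : ℝ) < (q₀ : ℝ) ^ 2 + 2 ^ q₀ by positivity)
  have e3 := Gc.log_pow_le (k := 0) (show (0 : ℝ) < ε * 9 / 16 by positivity)
    (show (0 : ℝ) < 24 by positivity)
  obtain ⟨N₆, hN₆⟩ := eventually_atTop.mp (((e1.and e2).and e3).and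
    ((Gc.tendsto_log_nat.eventually (eventually_ge_atTop (max 1 (max (ν₀ : ℝ)
      (4 * (G * Real.log (10 ^ 8) + Real.log 2)))))).and
      (eventually_ge_atTop 2)))
  refine ⟨max N₁ (max N₂ (max N₃ (max N₄ N₆))), fun N Y b hY hbN hNY => ?_⟩
  simp only [max_le_iff] at hY
  obtain ⟨g1, g2, g3, g4, g6⟩ := hY
  have hYN : Y ≤ N := by omega
  obtain ⟨⟨⟨b1, b2⟩, _⟩, b5, b6⟩ := hN₆ N (g6.trans hYN)
  obtain ⟨⟨⟨_, _⟩, b3⟩, b5', b6'⟩ := hN₆ Y g6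
  rw [pow_zero, mul_one] at b2 b3
  have hN2 : 2 ≤ N := b6
  have hNpos : 0 < N := by omega
  have hYpos : 0 < Y := by omega
  have hNR : (0 : ℝ) < N := by exact_mod_cast hNpos
  have hN1 : (1 : ℝ) ≤ N := by exact_mod_cast hNpos
  have hYR : (0 : ℝ) < Y := by exact_mod_cast hYpos
  have hY1 : (1 : ℝ) ≤ Y := by exact_mod_cast hYpos
  set L := Real.log N with hL
  have hL1 : 1 ≤ L := (le_max_left _ _).trans b5
  have hLν : (ν₀ : ℝ) ≤ L := ((le_max_left _ _).trans (le_max_right _ _)).trans b5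
  have hLG : 4 * (G * Real.log (10 ^ 8) + Real.log 2) ≤ Real.log Y :=
    ((le_max_right _ _).trans (le_max_right _ _)).trans b5'
  have hlogY1 : 1 ≤ Real.log Y := (le_max_left _ _).trans b5'
  have hLY : L ≤ K * Real.log Y := by
    rw [hL, ← Real.log_pow]
    apply Real.log_le_log hNR
    exact_mod_cast hNY
  set ν : ℕ := Nat.log 2 N + 1 with hν
  have hνL : (ν : ℝ) ≤ 3 * L := by
    have e1 : (2 : ℝ) ^ (Nat.log 2 N) ≤ N := by exact_mod_cast Nat.pow_log_le_self 2 (by omega)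
    have e2 := Real.log_le_log (by positivity) e1
    rw [Real.log_pow, ← hL] at e2
    have e3 := Real.log_two_gt_d9
    have e4 : (Nat.log 2 N : ℝ) * (1 / 2) ≤ Nat.log 2 N * Real.log 2 := by
      apply mul_le_mul_of_nonneg_left _ (by positivity)
      linarith
    rw [hν]
    push_cast
    linarith
  have hNν : N < 2 ^ ν := Nat.lt_pow_succ_log_self (by norm_num) N
  have hLν' : L ≤ ν := by
    have e2 : (N : ℝ) < 2 ^ ν := by exact_mod_cast hNν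
    have e3 := Real.log_lt_log hNR e2
    rw [Real.log_pow, ← hL] at e3
    have e4 : Real.log 2 ≤ 1 := by have := Real.log_two_lt_d9; linarith
    calc L ≤ ν * Real.log 2 := e3.le
      _ ≤ ν * 1 := by gcongr
      _ = _ := by ring
  have hνν : ν₀ ≤ ν := by exact_mod_cast hLν.trans hLν'
  -- parameters
  set P : ℕ := ⌊(N : ℝ) ^ (ε / (4 * K))⌋₊ with hP
  have hPle : (P : ℝ) ≤ (N : ℝ) ^ (ε / (4 * K)) := Nat.floor_le (Real.rpow_nonneg hNR.le _)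
  set Q : ℕ := ν ^ 4 + (q₀ ^ 2 + 2 ^ q₀) with hQ
  have hQbd : ∀ q : ℕ, q ≤ 10 ^ 9 * P₀ ^ 2 * (Nat.log 2 q + 1) ^ 2 * (Nat.log 2 N + 1) ^ 2 →
      q ≤ Q := by
    intro q hq
    exact (hν₀ ν q hνν hq).trans (Nat.le_add_right _ _)
  have hQle : (Q : ℝ) ≤ 2 * (N : ℝ) ^ c := by
    rw [hQ]
    push_cast
    have h1 : (ν : ℝ) ^ 4 ≤ (N : ℝ) ^ c := by
      calc (ν : ℝ) ^ 4 ≤ (3 * L) ^ 4 := by gcongr
        _ = 81 * L ^ 4 := by ring
        _ ≤ _ := b1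
    linarith
  have hc4 : 2 * c ≤ κ₁ := by
    have h1 : c ≤ κ₁ / 2 := min_le_left _ _
    linarith
  have hNc2 : (2 : ℝ) ≤ (N : ℝ) ^ c := by
    refine le_trans ?_ b2
    have h1 : (3 : ℝ) ≤ q₀ := by exact_mod_cast hq₀3
    have h2 : (0 : ℝ) < 2 ^ q₀ := by positivity
    nlinarith
  have hQle' : (Q : ℝ) ≤ (N : ℝ) ^ (2 * c) := by
    calc (Q : ℝ) ≤ 2 * (N : ℝ) ^ c := hQle
      _ ≤ (N : ℝ) ^ c * (N : ℝ) ^ c := by gcongr
      _ = (N : ℝ) ^ (2 * c) := by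
          rw [← Real.rpow_add hNR]
          congr 1
          ring
  have hQκ : (Q : ℝ) ≤ (N : ℝ) ^ κ₁ :=
    hQle'.trans (Real.rpow_le_rpow_of_exponent_le hN1 hc4)
  have hQ0 : 0 < Q := by
    have : 0 < 2 ^ q₀ := by positivity
    have h2 : 2 ^ q₀ ≤ Q := by
      rw [hQ]
      exact (Nat.le_add_left _ _).trans (Nat.le_add_left _ _)
    omega
  have hQR0 : (0 : ℝ) < Q := by exact_mod_cast hQ0
  have hlarge : 50 * (3 / (κ₁ / 2) + 1) * Real.log (10 ^ 8 * (Q : ℝ) ^ 9) ≤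
      Real.log Y / 2 - Real.log 2 := by
    have h0 : Real.log (10 ^ 8 * (Q : ℝ) ^ 9) = Real.log (10 ^ 8) + 9 * Real.log Q := by
      rw [Real.log_mul (by norm_num) (by positivity)]
      congr 1
      rw [Real.log_pow]
      push_cast
      ring
    rw [← hG, h0]
    have h1 : Real.log Q ≤ 2 * c * L := by
      rw [hL, ← Real.log_rpow hNR]
      exact Real.log_le_log hQR0 hQle'
    have h1' : Real.log Q ≤ 2 * c * (K * Real.log Y) := h1.trans (by gcongr)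
    have h2 : G * (9 * Real.log Q) ≤ G * (9 * (2 * c * (K * Real.log Y))) := by gcongr
    have h3 : G * (9 * (2 * c * (K * Real.log Y))) = (c * (72 * G * K)) * (Real.log Y / 4) := by ring
    have h4 : (c * (72 * G * K)) * (Real.log Y / 4) ≤ 1 * (Real.log Y / 4) := by
      apply mul_le_mul_of_nonneg_right hc3
      linarith
    have h5 : G * (Real.log (10 ^ 8) + 9 * Real.log Q) =
        G * Real.log (10 ^ 8) + G * (9 * Real.log Q) := by ring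
    rw [h5]
    have h6 : G * (9 * Real.log Q) ≤ Real.log Y / 4 := by
      calc G * (9 * Real.log Q) ≤ G * (9 * (2 * c * (K * Real.log Y))) := h2
        _ = (c * (72 * G * K)) * (Real.log Y / 4) := h3
        _ ≤ 1 * (Real.log Y / 4) := h4
        _ = Real.log Y / 4 := one_mul _
    clear h2 h3 h4 h5
    generalize G * (9 * Real.log Q) = a1 at *
    generalize G * Real.log (10 ^ 8) = a2 at *
    linarith
  -- the pieces
  have k1 := hN₁ N b Y (g1.trans hYN) hNY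
  have k2 := hN₂ b Y g2
  have k3 := hN₃ b Y g3 (hbN.trans hNY)
  have k4 := hN₄ b Y g4
  have hκ2 : 0 < κ₁ / 2 := by positivity
  have hκ2' : κ₁ / 2 ≤ 1 := by linarith
  set S : Set ℕ := {B | b < B ∧ B ≤ b + Y ∧ ¬ Typ N Y P₀ κ₁ (ε / (4 * K)) B} with hS
  set T1 : Set ℕ := {B : ℕ | b < B ∧ B ≤ b + Y ∧ ∀ p : ℕ, p.Prime → (N : ℝ) ^ κ₁ < p →
    (p : ℝ) ≤ (N : ℝ) ^ (ε / (4 * K)) → ¬ p ∣ B} with hT1
  set T2 : Set ℕ := {B : ℕ | b < B ∧ B ≤ b + Y ∧ ∀ p : ℕ, p ≤ P₀ → p.Prime → p % 4 = 3 →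
    ¬ p ∣ B} with hT2
  set T3 : Set ℕ := {B : ℕ | b < B ∧ B ≤ b + Y ∧ ∃ w k : ℕ, 2 ≤ k ∧ B = w ^ k} with hT3
  set T4 : Set ℕ := {B : ℕ | b < B ∧ B ≤ b + Y ∧ B ^ 2 < Y} with hT4
  have hSsub : S ⊆ T1 ∪ (T2 ∪ (T3 ∪ T4)) := by
    rintro B ⟨hB0, hBN, hB⟩
    by_contra hcon
    simp only [Set.mem_union, not_or] at hcon
    obtain ⟨c1, c2, c3, c4⟩ := hcon
    apply hB
    refine ⟨?_, ?_, ?_, ?_⟩
    · by_contra hn
      apply c1
      exact ⟨hB0, hBN, fun p hp hpl hpu hpB => hn ⟨p, hp, hpl, hpu, hpB⟩⟩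
    · by_contra hn
      apply c2
      exact ⟨hB0, hBN, fun p hp hpp hp2 hpB => hn ⟨p, hp, hpp, hp2, hpB⟩⟩
    · intro hn
      exact c3 ⟨hB0, hBN, hn⟩
    · by_contra hn
      exact c4 ⟨hB0, hBN, by omega⟩
  have hTfin : (T1 ∪ (T2 ∪ (T3 ∪ T4))).Finite := by
    apply (Set.finite_Icc 0 (b + Y)).subset
    intro B hB
    rcases hB with h | h | h | h <;> exact ⟨Nat.zero_le _, h.2.1⟩
  have hScard : (S.ncard : ℝ) ≤ ε * Y := by
    have h1 := Set.ncard_le_ncard hSsub hTfin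
    have h2 := Set.ncard_union_le T1 (T2 ∪ (T3 ∪ T4))
    have h3 := Set.ncard_union_le T2 (T3 ∪ T4)
    have h4 := Set.ncard_union_le T3 T4
    have h6 : S.ncard ≤ T1.ncard + (T2.ncard + (T3.ncard + T4.ncard)) := by omega
    have h7 : (S.ncard : ℝ) ≤ T1.ncard + (T2.ncard + (T3.ncard + T4.ncard)) := by
      exact_mod_cast h6
    have h8 : 0 ≤ ε * Y := by positivity
    linarith
  refine ⟨S, fun B hB => ⟨hB.1, hB.2.1⟩, hScard, fun A hA0 hAN => ?_⟩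
  obtain ⟨hPfin, k6⟩ := badP_card (N := N) (Q := Q) (A := A) (P := P) hκ2 hκ2' hq₀R hA0
  obtain ⟨hRfin, k7⟩ := badR_card (N := N) (Q := Q) (A := A) hκ2 hκ2' hq₀R hA0
  have hsub : {B : ℕ | B ∈ Set.Ioc b (b + Y) ∧ B ∉ S ∧ Nat.Coprime A B ∧ Sol (q₀ ^ q₀) A B} ⊆
      BadP (κ₁ / 2) N q₀ Q A P ∪ BadR (κ₁ / 2) N q₀ Q A := by
    rintro B ⟨⟨hB0, hBN⟩, hBS, hAB, x, y, z, C, hx, hy, hz, hC, h⟩
    have hB : Typ N Y P₀ κ₁ (ε / (4 * K)) B := by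
      by_contra hn
      exact hBS ⟨hB0, hBN, hn⟩
    exact mem_bad hκ0 hκ1 hq₀3 hNpos hYpos hQbd
        ((Nat.le_add_right _ _).trans (Nat.le_add_left _ _))
        ((Nat.le_add_left _ _).trans (Nat.le_add_left _ _))
        (fun p hp => Nat.le_floor hp) hQκ hlarge hA0 hAN (by omega) (hBN.trans hbN) hAB hB
        hx hy hz hC h
  -- the counts
  have hX1 : (1 : ℝ) ≤ (N : ℝ) ^ (2 * c) := Real.one_le_rpow hN1 (by positivity)
  have hQ1 : (Q : ℝ) + 1 ≤ 2 * (N : ℝ) ^ (2 * c) := by linarith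
  -- powers of `N` in terms of `Y`
  have hNYR : (N : ℝ) ≤ (Y : ℝ) ^ (K : ℝ) := by
    rw [Real.rpow_natCast]
    exact_mod_cast hNY
  have hXY : (N : ℝ) ^ (2 * c) ≤ (Y : ℝ) ^ (ε / 16) := by
    calc (N : ℝ) ^ (2 * c) ≤ ((Y : ℝ) ^ (K : ℝ)) ^ (2 * c) := by gcongr
      _ = (Y : ℝ) ^ (2 * (c * K)) := by
          rw [← Real.rpow_mul hYR.le]; congr 1; ring
      _ ≤ (Y : ℝ) ^ (ε / 16) := Real.rpow_le_rpow_of_exponent_le hY1 (by linarith)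
  have hPY : (P : ℝ) ≤ (Y : ℝ) ^ (ε / 4) := by
    calc (P : ℝ) ≤ (N : ℝ) ^ (ε / (4 * K)) := hPle
      _ ≤ ((Y : ℝ) ^ (K : ℝ)) ^ (ε / (4 * K)) := by gcongr
      _ = (Y : ℝ) ^ (ε / 4) := by
          rw [← Real.rpow_mul hYR.le]; congr 1; field_simp
  have hQY : (Q : ℝ) + 1 ≤ 2 * (Y : ℝ) ^ (ε / 16) := by linarith
  have hQY' : (Q : ℝ) ≤ (Y : ℝ) ^ (ε / 16) := hQle'.trans hXY
  have hfin : 24 * (Y : ℝ) ^ (ε * 7 / 16) ≤ (Y : ℝ) ^ ε := by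
    calc 24 * (Y : ℝ) ^ (ε * 7 / 16) ≤ (Y : ℝ) ^ (ε * 9 / 16) * (Y : ℝ) ^ (ε * 7 / 16) := by gcongr
      _ = (Y : ℝ) ^ ε := by
          rw [← Real.rpow_add hYR]
          congr 1
          ring
  have k6R : ((BadP (κ₁ / 2) N q₀ Q A P).ncard : ℝ) ≤ 16 * (Y : ℝ) ^ (ε * 7 / 16) := by
    have h1 : ((BadP (κ₁ / 2) N q₀ Q A P).ncard : ℝ) ≤
        ((((Q : ℝ) + 1) * (((Q : ℝ) + 1) * (P * 4)))) * Q := by
      exact_mod_cast k6
    calc ((BadP (κ₁ / 2) N q₀ Q A P).ncard : ℝ) ≤ _ := h1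
      _ ≤ (((2 * (Y : ℝ) ^ (ε / 16)) * ((2 * (Y : ℝ) ^ (ε / 16)) *
            ((Y : ℝ) ^ (ε / 4) * 4)))) * (Y : ℝ) ^ (ε / 16) := by gcongr
      _ = 16 * ((Y : ℝ) ^ (ε / 16) * ((Y : ℝ) ^ (ε / 16) *
            (Y : ℝ) ^ (ε / 4)) * (Y : ℝ) ^ (ε / 16)) := by ring
      _ = 16 * (Y : ℝ) ^ (ε * 7 / 16) := by
          rw [← Real.rpow_add hYR, ← Real.rpow_add hYR, ← Real.rpow_add hYR]
          congr 2
          ring
  have k7R : ((BadR (κ₁ / 2) N q₀ Q A).ncard : ℝ) ≤ 8 * (Y : ℝ) ^ (ε * 7 / 16) := by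
    have h1 : ((BadR (κ₁ / 2) N q₀ Q A).ncard : ℝ) ≤
        ((((Q : ℝ) + 1) * (((Q : ℝ) + 1) * 2))) * 1 := by
      exact_mod_cast k7
    calc ((BadR (κ₁ / 2) N q₀ Q A).ncard : ℝ) ≤ _ := h1
      _ ≤ (((2 * (Y : ℝ) ^ (ε / 16)) * ((2 * (Y : ℝ) ^ (ε / 16)) * 2))) * 1 := by gcongr
      _ = 8 * ((Y : ℝ) ^ (ε / 16) * (Y : ℝ) ^ (ε / 16)) := by ring
      _ = 8 * (Y : ℝ) ^ (ε / 8) := by
          rw [← Real.rpow_add hYR]
          congr 2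
          ring
      _ ≤ 8 * (Y : ℝ) ^ (ε * 7 / 16) :=
          mul_le_mul_of_nonneg_left (Real.rpow_le_rpow_of_exponent_le hY1 (by linarith))
            (by norm_num)
  have h1 := Set.ncard_le_ncard hsub (hPfin.union hRfin)
  have h3 := Set.ncard_union_le (BadP (κ₁ / 2) N q₀ Q A P) (BadR (κ₁ / 2) N q₀ Q A)
  have h4 : (({B : ℕ | B ∈ Set.Ioc b (b + Y) ∧ B ∉ S ∧ Nat.Coprime A B ∧
      Sol (q₀ ^ q₀) A B}.ncard : ℕ) : ℝ) ≤ (BadP (κ₁ / 2) N q₀ Q A P).ncard +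
      (BadR (κ₁ / 2) N q₀ Q A).ncard := by
    exact_mod_cast h1.trans h3
  linarith

end Pool.Agent.H755R4
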