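import Mathlib
import Pool.Agent.H374R2.BealFour
import Pool.Agent.H755R4.Main

set_option autoImplicit false

namespace Pool.Agent.H755R4

open Finset Filter Topology Pool.Agent.H374R2

/-- The pairs which are exceptional for some exponent from `3` to `Q₀ + 3`. -/
def Small (Q₀ : ℕ) : Set (ℕ × ℕ) := {p | ∃ n, 3 ≤ n ∧ n ≤ Q₀ + 3 ∧ p ∈ Beal.Exceptional n}

theorem small_null (Q₀ : ℕ) : Beal.UniformNull (Small Q₀) := by
  induction Q₀ with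
  | zero =>
    refine (Beal.exceptional_null (n := 3) (by norm_num)).mono ?_
    rintro p ⟨n, h1, h2, h3⟩
    have : n = 3 := by omega
    rw [this] at h3
    exact h3
  | succ k ih =>
    refine (ih.union (Beal.exceptional_null (n := k + 4) (by omega))).mono ?_
    rintro p ⟨n, h1, h2, h3⟩
    rcases Nat.lt_or_ge n (k + 4) with h | h
    · exact Or.inl ⟨n, h1, by omega, h3⟩
    · have : n = k + 4 := by omega
      rw [this] at h3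
      exact Or.inr h3

/-- The exceptional pairs. -/
def Exc : Set (ℕ × ℕ) :=
  {p | 0 < p.1 ∧ 0 < p.2 ∧ Nat.Coprime p.1 p.2 ∧ Sol 3 p.1 p.2}

theorem sol_swap {Z A B : ℕ} (h : Sol Z A B) : Sol Z B A := by
  obtain ⟨x, y, z, C, hx, hy, hz, hC, h⟩ := h
  refine ⟨y, x, z, C, hy, hx, hz, hC, ?_⟩
  rcases h with h | h | h
  · left; rw [add_comm]; exact h
  · right; right; exact h
  · right; left; exact h

theorem box_ncard_fiber {E : Set (ℕ × ℕ)} {a b X Y : ℕ} {D : ℝ}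
    (hD : ∀ A ∈ Set.Ioc a (a + X), (({B : ℕ | B ∈ Set.Ioc b (b + Y) ∧ (A, B) ∈ E}.ncard : ℕ) : ℝ) ≤ D) :
    ((E ∩ (Set.Ioc a (a + X) ×ˢ Set.Ioc b (b + Y))).ncard : ℝ) ≤ X * D := by
  classical
  have hfin : ∀ A, {B : ℕ | B ∈ Set.Ioc b (b + Y) ∧ (A, B) ∈ E}.Finite := fun A =>
    (Set.finite_Ioc b (b + Y)).subset (fun B hB => hB.1)
  have hsub : E ∩ (Set.Ioc a (a + X) ×ˢ Set.Ioc b (b + Y)) ⊆
      ⋃ A ∈ Finset.Ioc a (a + X), (fun B => (A, B)) '' {B : ℕ | B ∈ Set.Ioc b (b + Y) ∧ (A, B) ∈ E} := by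
    rintro ⟨A, B⟩ ⟨h, h1, h2⟩
    rw [Set.mem_iUnion₂]
    refine ⟨A, Finset.mem_Ioc.mpr h1, B, ⟨h2, h⟩, rfl⟩
  have hfin2 : (⋃ A ∈ Finset.Ioc a (a + X), (fun B => (A, B)) ''
      {B : ℕ | B ∈ Set.Ioc b (b + Y) ∧ (A, B) ∈ E}).Finite :=
    Set.Finite.biUnion (Finset.finite_toSet _) (fun A _ => (hfin A).image _)
  have h1 : (E ∩ (Set.Ioc a (a + X) ×ˢ Set.Ioc b (b + Y))).ncard ≤
      ∑ A ∈ Finset.Ioc a (a + X), {B : ℕ | B ∈ Set.Ioc b (b + Y) ∧ (A, B) ∈ E}.ncard := by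
    calc _ ≤ _ := Set.ncard_le_ncard hsub hfin2
      _ ≤ ∑ A ∈ Finset.Ioc a (a + X), ((fun B => (A, B)) ''
            {B : ℕ | B ∈ Set.Ioc b (b + Y) ∧ (A, B) ∈ E}).ncard := Finset.set_ncard_biUnion_le _ _
      _ ≤ _ := Finset.sum_le_sum (fun A _ => Set.ncard_image_le (hfin A))
  calc ((E ∩ (Set.Ioc a (a + X) ×ˢ Set.Ioc b (b + Y))).ncard : ℝ)
      ≤ ((∑ A ∈ Finset.Ioc a (a + X), {B : ℕ | B ∈ Set.Ioc b (b + Y) ∧ (A, B) ∈ E}.ncard : ℕ) : ℝ) := by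
        exact_mod_cast h1
    _ = ∑ A ∈ Finset.Ioc a (a + X), (({B : ℕ | B ∈ Set.Ioc b (b + Y) ∧ (A, B) ∈ E}.ncard : ℕ) : ℝ) := by
        push_cast; rfl
    _ ≤ ∑ A ∈ Finset.Ioc a (a + X), D := by
        apply Finset.sum_le_sum
        intro A hA
        exact hD A (by
          rw [Finset.mem_Ioc] at hA
          exact hA)
    _ = X * D := by
        rw [Finset.sum_const, Nat.card_Ioc, Nat.add_sub_cancel_left, nsmul_eq_mul]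

/-- One half of the theorem: the second side is the longer one. -/
theorem half (K : ℕ) {ε : ℝ} (hε : 0 < ε) : ∃ L : ℕ, ∀ X Y : ℕ, L ≤ X → X ≤ Y → ∀ a b : ℕ,
    a ≤ Y ^ K → b ≤ Y ^ K →
      ((Exc ∩ (Set.Ioc a (a + X) ×ˢ Set.Ioc b (b + Y))).ncard : ℝ) ≤ ε * (X * Y) := by
  set δ : ℝ := min (ε / 8) (1 / 2) with hδ
  have hδ0 : 0 < δ := lt_min (by positivity) (by norm_num)
  have hδ1 : δ < 1 := lt_of_le_of_lt (min_le_right _ _) (by norm_num)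
  have hδε : δ ≤ ε / 8 := min_le_left _ _
  have hδ2 : δ ≤ 1 / 2 := min_le_right _ _
  obtain ⟨Z₀, L₁, hcore⟩ := core (K + 2) (by omega) hδ0 hδ1
  obtain ⟨L₂, hsm⟩ := small_null Z₀ (ε / 2) (by positivity)
  have e1 := Gc.log_pow_le (k := 0) (show (0 : ℝ) < 1 / 2 by norm_num)
    (show (0 : ℝ) < 8 / ε by positivity)
  obtain ⟨L₃, hL₃⟩ := eventually_atTop.mp e1
  refine ⟨max L₁ (max L₂ (max L₃ 2)), fun X Y hX hXY a b ha hb => ?_⟩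
  simp only [max_le_iff] at hX
  obtain ⟨hX1, hX2, hX3, hX4⟩ := hX
  have hY2 : 2 ≤ Y := by omega
  have hYR : (0 : ℝ) < Y := by exact_mod_cast (by omega : 0 < Y)
  have hY1R : (1 : ℝ) ≤ Y := by exact_mod_cast (by omega : 1 ≤ Y)
  have hXR : (0 : ℝ) ≤ X := Nat.cast_nonneg X
  have hYhalf : 8 / ε ≤ (Y : ℝ) ^ (1 / 2 : ℝ) := by
    have := hL₃ Y (by omega)
    rwa [pow_zero, mul_one] at this
  set N : ℕ := Y ^ K + Y with hN
  have hNK : N ≤ Y ^ (K + 2) := by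
    have h1 : Y ^ K ≤ Y ^ (K + 1) := Nat.pow_le_pow_right (by omega) (by omega)
    have h2 : Y ≤ Y ^ (K + 1) := Nat.le_self_pow (by omega) Y
    have h3 : Y ^ (K + 2) = Y ^ (K + 1) * Y := pow_succ _ _
    calc N ≤ Y ^ (K + 1) * 2 := by omega
      _ ≤ Y ^ (K + 1) * Y := Nat.mul_le_mul_left _ hY2
      _ = _ := h3.symm
  obtain ⟨T, hTsub, hTc, hT⟩ := hcore N Y b (by omega) (by omega) hNK
  have hTfin : T.Finite := (Set.finite_Ioc b (b + Y)).subset hTsub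
  set E' : Set (ℕ × ℕ) := {p | 0 < p.1 ∧ Nat.Coprime p.1 p.2 ∧ Sol Z₀ p.1 p.2} with hE'
  have hfib : ∀ A ∈ Set.Ioc a (a + X),
      (({B : ℕ | B ∈ Set.Ioc b (b + Y) ∧ (A, B) ∈ E'}.ncard : ℕ) : ℝ) ≤ ε / 4 * Y := by
    intro A hA
    have hA0 : 0 < A := lt_of_le_of_lt (Nat.zero_le _) hA.1
    have hAN : A ≤ N := by
      have := hA.2
      omega
    have h1 := hT A hA0 hAN
    set F : Set ℕ := {B : ℕ | B ∈ Set.Ioc b (b + Y) ∧ B ∉ T ∧ Nat.Coprime A B ∧ Sol Z₀ A B} with hF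
    have hFfin : F.Finite := (Set.finite_Ioc b (b + Y)).subset (fun B hB => hB.1)
    have hsub : {B : ℕ | B ∈ Set.Ioc b (b + Y) ∧ (A, B) ∈ E'} ⊆ T ∪ F := by
      rintro B ⟨h2, _, h3, h4⟩
      by_cases hBT : B ∈ T
      · exact Or.inl hBT
      · exact Or.inr ⟨h2, hBT, h3, h4⟩
    have h2 := (Set.ncard_le_ncard hsub (hTfin.union hFfin)).trans (Set.ncard_union_le T F)
    have h3 : (({B : ℕ | B ∈ Set.Ioc b (b + Y) ∧ (A, B) ∈ E'}.ncard : ℕ) : ℝ) ≤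
        T.ncard + F.ncard := by exact_mod_cast h2
    have h4 : (Y : ℝ) ^ δ ≤ ε / 8 * Y := by
      calc (Y : ℝ) ^ δ ≤ (Y : ℝ) ^ (1 / 2 : ℝ) := Real.rpow_le_rpow_of_exponent_le hY1R hδ2
        _ = ε / 8 * (8 / ε) * (Y : ℝ) ^ (1 / 2 : ℝ) := by field_simp
        _ ≤ ε / 8 * (Y : ℝ) ^ (1 / 2 : ℝ) * (Y : ℝ) ^ (1 / 2 : ℝ) := by gcongr
        _ = ε / 8 * ((Y : ℝ) ^ (1 / 2 : ℝ) * (Y : ℝ) ^ (1 / 2 : ℝ)) := by ring
        _ = ε / 8 * Y := by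
            rw [← Real.rpow_add hYR]
            norm_num
    have h5 : δ * Y ≤ ε / 8 * Y := by gcongr
    linarith
  have hbig := box_ncard_fiber hfib
  have hsmall := hsm X Y hX2 (by omega) a b
  have hsub : Exc ∩ (Set.Ioc a (a + X) ×ˢ Set.Ioc b (b + Y)) ⊆
      (Small Z₀ ∩ (Set.Ioc a (a + X) ×ˢ Set.Ioc b (b + Y))) ∪
        (E' ∩ (Set.Ioc a (a + X) ×ˢ Set.Ioc b (b + Y))) := by
    rintro ⟨A, B⟩ ⟨⟨hA, hB, hAB, x, y, z, C, hx, hy, hz, hC, h⟩, hbox⟩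
    by_cases hzZ : z ≤ Z₀ + 3
    · exact Or.inl ⟨⟨z, hz, hzZ, hA, hB, hAB, x, y, C, hx, hy, hC, h⟩, hbox⟩
    · exact Or.inr ⟨⟨hA, hAB, x, y, z, C, hx, hy, by omega, hC, h⟩, hbox⟩
  have hbf := Beal.box_finite a b X Y
  have h1 := (Set.ncard_le_ncard hsub ((hbf.subset Set.inter_subset_right).union
    (hbf.subset Set.inter_subset_right))).trans (Set.ncard_union_le _ _)
  have h2 : ((Exc ∩ (Set.Ioc a (a + X) ×ˢ Set.Ioc b (b + Y))).ncard : ℝ) ≤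
      (Small Z₀ ∩ (Set.Ioc a (a + X) ×ˢ Set.Ioc b (b + Y))).ncard +
        (E' ∩ (Set.Ioc a (a + X) ×ˢ Set.Ioc b (b + Y))).ncard := by exact_mod_cast h1
  have h3 : (X : ℝ) * (ε / 4 * Y) = ε / 4 * (X * Y) := by ring
  have h4 : (0 : ℝ) ≤ ε * (X * Y) := by positivity
  rw [h3] at hbig
  linarith

/-- Beal's conjecture for almost all pairs of bases, in every box whose position is polynomially
bounded in its longer side. -/
theorem boxes (K : ℕ) {ε : ℝ} (hε : 0 < ε) : ∃ L : ℕ, ∀ X Y : ℕ, L ≤ X → L ≤ Y → ∀ a b : ℕ,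
    a ≤ (max X Y) ^ K → b ≤ (max X Y) ^ K →
      ((Exc ∩ (Set.Ioc a (a + X) ×ˢ Set.Ioc b (b + Y))).ncard : ℝ) ≤ ε * (X * Y) := by
  obtain ⟨L, hL⟩ := half K hε
  refine ⟨L, fun X Y hX hY a b ha hb => ?_⟩
  rcases le_total X Y with hXY | hXY
  · rw [max_eq_right hXY] at ha hb
    exact hL X Y hX hXY a b ha hb
  · rw [max_eq_left hXY] at ha hb
    have h := hL Y X hY hXY b a hb ha
    have hsub : Exc ∩ (Set.Ioc a (a + X) ×ˢ Set.Ioc b (b + Y)) ⊆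
        Prod.swap '' (Exc ∩ (Set.Ioc b (b + Y) ×ˢ Set.Ioc a (a + X))) := by
      rintro ⟨A, B⟩ ⟨⟨hA, hB, hAB, hs⟩, h1, h2⟩
      exact ⟨(B, A), ⟨⟨hB, hA, hAB.symm, sol_swap hs⟩, h2, h1⟩, rfl⟩
    have hfin : (Exc ∩ (Set.Ioc b (b + Y) ×ˢ Set.Ioc a (a + X))).Finite :=
      (Beal.box_finite b a Y X).subset Set.inter_subset_right
    have h3 := (Set.ncard_le_ncard hsub (hfin.image _)).trans (Set.ncard_image_le hfin)
    calc ((Exc ∩ (Set.Ioc a (a + X) ×ˢ Set.Ioc b (b + Y))).ncard : ℝ) ≤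
        (Exc ∩ (Set.Ioc b (b + Y) ×ˢ Set.Ioc a (a + X))).ncard := by exact_mod_cast h3
      _ ≤ ε * (Y * X) := h
      _ = ε * (X * Y) := by ring

/-- Every sparse set of second bases, almost all `B` of a short interval, large exponent. -/
theorem sparse (K : ℕ) {ε : ℝ} (hε : 0 < ε) : ∃ Z₀ L : ℕ, ∀ Y b : ℕ, L ≤ Y → b ≤ Y ^ K →
    ∀ 𝒜 : Finset ℕ, (∀ A ∈ 𝒜, A ≤ Y ^ K) → (𝒜.card : ℝ) ≤ (Y : ℝ) ^ (1 - ε) →
      (({B : ℕ | B ∈ Set.Ioc b (b + Y) ∧ ∃ A ∈ 𝒜, 0 < A ∧ Nat.Coprime A B ∧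
        Sol Z₀ A B}.ncard : ℕ) : ℝ) ≤ ε * Y := by
  classical
  set δ : ℝ := min (ε / 2) (1 / 2) with hδ
  have hδ0 : 0 < δ := lt_min (by positivity) (by norm_num)
  have hδ1 : δ < 1 := lt_of_le_of_lt (min_le_right _ _) (by norm_num)
  have hδε : δ ≤ ε / 2 := min_le_left _ _
  obtain ⟨Z₀, L₁, hcore⟩ := core (K + 2) (by omega) hδ0 hδ1
  have e1 := Gc.log_pow_le (k := 0) (show (0 : ℝ) < ε / 2 by positivity)
    (show (0 : ℝ) < 2 / ε by positivity)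
  obtain ⟨L₃, hL₃⟩ := eventually_atTop.mp e1
  refine ⟨Z₀, max L₁ (max L₃ 2), fun Y b hY hb 𝒜 h𝒜 h𝒜c => ?_⟩
  simp only [max_le_iff] at hY
  obtain ⟨hX1, hX3, hY2⟩ := hY
  have hYR : (0 : ℝ) < Y := by exact_mod_cast (by omega : 0 < Y)
  have hY1R : (1 : ℝ) ≤ Y := by exact_mod_cast (by omega : 1 ≤ Y)
  have hYhalf : 2 / ε ≤ (Y : ℝ) ^ (ε / 2) := by
    have := hL₃ Y (by omega)
    rwa [pow_zero, mul_one] at this
  set N : ℕ := Y ^ K + Y with hN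
  have hNK : N ≤ Y ^ (K + 2) := by
    have h1 : Y ^ K ≤ Y ^ (K + 1) := Nat.pow_le_pow_right (by omega) (by omega)
    have h2 : Y ≤ Y ^ (K + 1) := Nat.le_self_pow (by omega) Y
    have h3 : Y ^ (K + 2) = Y ^ (K + 1) * Y := pow_succ _ _
    calc N ≤ Y ^ (K + 1) * 2 := by omega
      _ ≤ Y ^ (K + 1) * Y := Nat.mul_le_mul_left _ hY2
      _ = _ := h3.symm
  obtain ⟨T, hTsub, hTc, hT⟩ := hcore N Y b (by omega) (by omega) hNK
  have hTfin : T.Finite := (Set.finite_Ioc b (b + Y)).subset hTsub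
  set F : ℕ → Set ℕ := fun A => {B : ℕ | B ∈ Set.Ioc b (b + Y) ∧ B ∉ T ∧ Nat.Coprime A B ∧
    Sol Z₀ A B} with hF
  have hFfin : ∀ A, (F A).Finite := fun A =>
    (Set.finite_Ioc b (b + Y)).subset (fun B hB => hB.1)
  have hsub : {B : ℕ | B ∈ Set.Ioc b (b + Y) ∧ ∃ A ∈ 𝒜, 0 < A ∧ Nat.Coprime A B ∧
        Sol Z₀ A B} ⊆ T ∪ ⋃ A ∈ 𝒜.filter (fun A => 0 < A), F A := by
    rintro B ⟨h1, A, hA, hA0, h2, h3⟩
    by_cases hBT : B ∈ T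
    · exact Or.inl hBT
    · right
      rw [Set.mem_iUnion₂]
      exact ⟨A, Finset.mem_filter.mpr ⟨hA, hA0⟩, h1, hBT, h2, h3⟩
  have hUfin : (⋃ A ∈ 𝒜.filter (fun A => 0 < A), F A).Finite :=
    Set.Finite.biUnion (Finset.finite_toSet _) (fun A _ => hFfin A)
  have h1 := (Set.ncard_le_ncard hsub (hTfin.union hUfin)).trans (Set.ncard_union_le _ _)
  have h2 : (⋃ A ∈ 𝒜.filter (fun A => 0 < A), F A).ncard ≤
      ∑ A ∈ 𝒜.filter (fun A => 0 < A), (F A).ncard := Finset.set_ncard_biUnion_le _ _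
  have h3 : ((⋃ A ∈ 𝒜.filter (fun A => 0 < A), F A).ncard : ℝ) ≤ ε / 2 * Y := by
    calc ((⋃ A ∈ 𝒜.filter (fun A => 0 < A), F A).ncard : ℝ)
        ≤ ((∑ A ∈ 𝒜.filter (fun A => 0 < A), (F A).ncard : ℕ) : ℝ) := by exact_mod_cast h2
      _ = ∑ A ∈ 𝒜.filter (fun A => 0 < A), ((F A).ncard : ℝ) := by push_cast; rfl
      _ ≤ ∑ A ∈ 𝒜.filter (fun A => 0 < A), (Y : ℝ) ^ δ := by
          apply Finset.sum_le_sum
          intro A hA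
          rw [Finset.mem_filter] at hA
          have h5 := h𝒜 A hA.1
          exact hT A hA.2 (by omega)
      _ = ((𝒜.filter (fun A => 0 < A)).card : ℝ) * (Y : ℝ) ^ δ := by
          rw [Finset.sum_const, nsmul_eq_mul]
      _ ≤ (𝒜.card : ℝ) * (Y : ℝ) ^ δ := by
          gcongr
          exact Finset.filter_subset _ _
      _ ≤ (Y : ℝ) ^ (1 - ε) * (Y : ℝ) ^ (ε / 2) := by
          gcongr
      _ = ε / 2 * (2 / ε) * ((Y : ℝ) ^ (1 - ε) * (Y : ℝ) ^ (ε / 2)) := by field_simp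
      _ ≤ ε / 2 * (Y : ℝ) ^ (ε / 2) * ((Y : ℝ) ^ (1 - ε) * (Y : ℝ) ^ (ε / 2)) := by gcongr
      _ = ε / 2 * ((Y : ℝ) ^ (ε / 2) * ((Y : ℝ) ^ (1 - ε) * (Y : ℝ) ^ (ε / 2))) := by ring
      _ = ε / 2 * Y := by
          rw [← Real.rpow_add hYR, ← Real.rpow_add hYR]
          have : ε / 2 + (1 - ε + ε / 2) = 1 := by ring
          rw [this, Real.rpow_one]
  have h4 : (({B : ℕ | B ∈ Set.Ioc b (b + Y) ∧ ∃ A ∈ 𝒜, 0 < A ∧ Nat.Coprime A B ∧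
        Sol Z₀ A B}.ncard : ℕ) : ℝ) ≤ T.ncard + (⋃ A ∈ 𝒜.filter (fun A => 0 < A), F A).ncard := by
    exact_mod_cast h1
  have h5 : δ * Y ≤ ε / 2 * Y := by gcongr
  linarith

end Pool.Agent.H755R4
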