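import Mathlib
import Pool.Agent.H374R2.T.Two
import Pool.Agent.H755R4.Fin
import Pool.Agent.H755R4.Even

set_option autoImplicit false

namespace Pool.Agent.H755R4

open Finset Filter Topology Pool.Agent.H374R2

/-- The exceptional pairs for perfect powers. -/
def Exc2 : Set (ℕ × ℕ) :=
  {p | 0 < p.1 ∧ 0 < p.2 ∧ Nat.Coprime p.1 p.2 ∧ Sol 2 p.1 p.2}

/-- The pairs which fail a residue condition. -/
def Nul2 : Set (ℕ × ℕ) :=
  {p | ¬ T.Good2 p.1 p.2} ∪ Prod.swap ⁻¹' {p | ¬ T.Good2 p.1 p.2}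

theorem nul2_null : Beal.UniformNull Nul2 :=
  T.uniformNull_not_good2.union T.uniformNull_not_good2.swap

/-- Outside `Nul2` the exponents are even. -/
theorem even_of {A B : ℕ} (hN : (A, B) ∉ Nul2) (h : Sol 2 A B) (h3 : ¬ Sol 3 A B) :
    ∃ x y W : ℕ, 0 < x ∧ 0 < y ∧ (A ^ (2 * x) + B ^ (2 * y) = W ^ 2 ∨
      A ^ (2 * x) + W ^ 2 = B ^ (2 * y) ∨ B ^ (2 * y) + W ^ 2 = A ^ (2 * x)) := by
  obtain ⟨x, y, z, C, hx, hy, hz, hC, h⟩ := h
  have hz2 : z = 2 := by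
    by_contra hne
    exact h3 ⟨x, y, z, C, hx, hy, by omega, hC, h⟩
  subst hz2
  simp only [Nul2, Set.mem_union, Set.mem_ofPred_eq, Set.mem_preimage, Prod.swap_prod_mk, not_or,
    not_not] at hN
  obtain ⟨hG, hG'⟩ := hN
  have hy2 : 2 ∣ y := hG.even (m := 1) hx h
  have hx2 : 2 ∣ x := hG'.even (m := 1) hy (by
    rcases h with h | h | h
    · left; rw [add_comm]; exact h
    · right; right; exact h
    · right; left; exact h)
  obtain ⟨x', rfl⟩ := hx2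
  obtain ⟨y', rfl⟩ := hy2
  exact ⟨x', y', C, by omega, by omega, h⟩

theorem half2 (K : ℕ) {ε : ℝ} (hε : 0 < ε) : ∃ L : ℕ, ∀ X Y : ℕ, L ≤ X → X ≤ Y → ∀ a b : ℕ,
    a ≤ Y ^ K → b ≤ Y ^ K →
      ((Exc2 ∩ (Set.Ioc a (a + X) ×ˢ Set.Ioc b (b + Y))).ncard : ℝ) ≤ ε * (X * Y) := by
  obtain ⟨L₁, hL₁⟩ := half K (ε := ε / 4) (by positivity)
  obtain ⟨L₂, hL₂⟩ := nul2_null (ε / 4) (by positivity)
  obtain ⟨P₀, L₃, hL₃⟩ := three_prime (ε := ε / 16) (by positivity)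
  obtain ⟨L₄, hL₄⟩ := perfect_powers (ε := ε / 16) (by positivity) (K + 2)
  obtain ⟨ν₀, hν₀⟩ := even_card P₀
  obtain ⟨C, hC0, hC⟩ := H353.divisor_bound_real (1 / (4 * ((K : ℝ) + 2))) (by positivity)
  have e1 := Gc.log_pow_le (k := 4) (show (0 : ℝ) < 1 / 4 by norm_num)
    (show (0 : ℝ) < 16 / ε * C * 9 * (3 * ((K : ℝ) + 2)) ^ 4 by positivity)
  obtain ⟨L₅, hL₅⟩ := eventually_atTop.mp (e1.and
    ((Gc.tendsto_log_nat.eventually (eventually_ge_atTop (max 1 (ν₀ : ℝ)))).and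
      (eventually_ge_atTop 2)))
  refine ⟨max L₁ (max L₂ (max L₃ (max L₄ (max L₅ 2)))), fun X Y hX hXY a b ha hb => ?_⟩
  simp only [max_le_iff] at hX
  obtain ⟨g1, g2, g3, g4, g5, g6⟩ := hX
  obtain ⟨b1, b2, b3⟩ := hL₅ Y (g5.trans hXY)
  have hY2 : 2 ≤ Y := by omega
  have hYR : (0 : ℝ) < Y := by exact_mod_cast (by omega : 0 < Y)
  have hY1R : (1 : ℝ) ≤ Y := by exact_mod_cast (by omega : 1 ≤ Y)
  have hXR : (0 : ℝ) ≤ X := Nat.cast_nonneg X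
  have hlogY1 : 1 ≤ Real.log Y := (le_max_left _ _).trans b2
  have hlogYν : (ν₀ : ℝ) ≤ Real.log Y := (le_max_right _ _).trans b2
  set N : ℕ := Y ^ K + Y with hN
  have hYN : Y ≤ N := by omega
  have hNK : N ≤ Y ^ (K + 2) := by
    have h1 : Y ^ K ≤ Y ^ (K + 1) := Nat.pow_le_pow_right (by omega) (by omega)
    have h2 : Y ≤ Y ^ (K + 1) := Nat.le_self_pow (by omega) Y
    have h3 : Y ^ (K + 2) = Y ^ (K + 1) * Y := pow_succ _ _
    calc N ≤ Y ^ (K + 1) * 2 := by omega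
      _ ≤ Y ^ (K + 1) * Y := Nat.mul_le_mul_left _ hY2
      _ = _ := h3.symm
  have hN0 : 0 < N := by omega
  have hNR : (0 : ℝ) < N := by exact_mod_cast hN0
  have hNYR : (N : ℝ) ≤ (Y : ℝ) ^ (K + 2) := by exact_mod_cast hNK
  set ν : ℕ := Nat.log 2 N + 1 with hν
  have hNν : N < 2 ^ ν := Nat.lt_pow_succ_log_self (by norm_num) N
  have hlogN : Real.log N ≤ ((K : ℝ) + 2) * Real.log Y := by
    have h1 := Real.log_le_log hNR hNYR
    rw [Real.log_pow] at h1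
    push_cast at h1
    exact h1
  have hlogYN : Real.log Y ≤ Real.log N := Real.log_le_log hYR (by exact_mod_cast hYN)
  have hνL : (ν : ℝ) ≤ 3 * Real.log N := by
    have e1 : (2 : ℝ) ^ (Nat.log 2 N) ≤ N := by exact_mod_cast Nat.pow_log_le_self 2 (by omega)
    have e2 := Real.log_le_log (by positivity) e1
    rw [Real.log_pow] at e2
    have e3 := Real.log_two_gt_d9
    have e4 : (Nat.log 2 N : ℝ) * (1 / 2) ≤ Nat.log 2 N * Real.log 2 := by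
      apply mul_le_mul_of_nonneg_left _ (by positivity)
      linarith
    rw [hν]
    push_cast
    linarith
  have hLν' : Real.log N ≤ ν := by
    have e2 : (N : ℝ) < 2 ^ ν := by exact_mod_cast hNν
    have e3 := Real.log_lt_log hNR e2
    rw [Real.log_pow] at e3
    have e4 : Real.log 2 ≤ 1 := by have := Real.log_two_lt_d9; linarith
    calc Real.log N ≤ ν * Real.log 2 := e3.le
      _ ≤ ν * 1 := by gcongr
      _ = _ := by ring
  have hνν : ν₀ ≤ ν := by exact_mod_cast hlogYν.trans (hlogYN.trans hLν')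
  have hν1 : (1 : ℝ) ≤ ν := hlogY1.trans (hlogYN.trans hLν')
  -- the bound for the pairs with all exponents even
  have hBadE : ∀ A : ℕ, 0 < A → A ≤ N → Three P₀ A →
      (BadE P₀ N A).Finite ∧ ((BadE P₀ N A).ncard : ℝ) ≤ ε / 16 * Y := by
    intro A hA hAN hA3
    obtain ⟨h1, h2⟩ := hν₀ ν N A hνν hNν hA hAN hA3
    refine ⟨h1, ?_⟩
    have h3 : ((BadE P₀ N A).ncard : ℝ) ≤ A.divisors.card * ((2 * (ν : ℝ) ^ 4 + 1) * 3) := by
      exact_mod_cast h2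
    have h4 : (A.divisors.card : ℝ) ≤ C * (Y : ℝ) ^ (1 / 4 : ℝ) := by
      calc (A.divisors.card : ℝ) ≤ C * (A : ℝ) ^ (1 / (4 * ((K : ℝ) + 2))) := hC A hA.ne'
        _ ≤ C * ((Y : ℝ) ^ (K + 2)) ^ (1 / (4 * ((K : ℝ) + 2))) := by
            have : (A : ℝ) ≤ (Y : ℝ) ^ (K + 2) := by exact_mod_cast hAN.trans hNK
            gcongr
        _ = C * (Y : ℝ) ^ (1 / 4 : ℝ) := by
            rw [← Real.rpow_natCast, ← Real.rpow_mul hYR.le]
            congr 2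
            push_cast
            field_simp
    have h5 : (2 * (ν : ℝ) ^ 4 + 1) * 3 ≤ 9 * (3 * ((K : ℝ) + 2)) ^ 4 * Real.log Y ^ 4 := by
      have h6 : (1 : ℝ) ≤ (ν : ℝ) ^ 4 := one_le_pow₀ hν1
      have h7 : (ν : ℝ) ^ 4 ≤ (3 * (((K : ℝ) + 2) * Real.log Y)) ^ 4 := by
        have : (ν : ℝ) ≤ 3 * (((K : ℝ) + 2) * Real.log Y) := by linarith
        gcongr
      calc (2 * (ν : ℝ) ^ 4 + 1) * 3 ≤ 9 * (ν : ℝ) ^ 4 := by linarith
        _ ≤ 9 * (3 * (((K : ℝ) + 2) * Real.log Y)) ^ 4 := by linarith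
        _ = _ := by ring
    have hq0 : (0 : ℝ) ≤ (2 * (ν : ℝ) ^ 4 + 1) * 3 := by positivity
    calc ((BadE P₀ N A).ncard : ℝ) ≤ _ := h3
      _ ≤ (C * (Y : ℝ) ^ (1 / 4 : ℝ)) * (9 * (3 * ((K : ℝ) + 2)) ^ 4 * Real.log Y ^ 4) := by
          apply mul_le_mul h4 h5 hq0 (by positivity)
      _ = ε / 16 * (Y : ℝ) ^ (1 / 4 : ℝ) *
            (16 / ε * C * 9 * (3 * ((K : ℝ) + 2)) ^ 4 * Real.log Y ^ 4) := by
          field_simp
      _ ≤ ε / 16 * (Y : ℝ) ^ (1 / 4 : ℝ) * (Y : ℝ) ^ (1 / 4 : ℝ) := by gcongr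
      _ = ε / 16 * (Y : ℝ) ^ (1 / 2 : ℝ) := by
          rw [mul_assoc, ← Real.rpow_add hYR]
          norm_num
      _ ≤ ε / 16 * (Y : ℝ) ^ (1 : ℝ) := by
          have := Real.rpow_le_rpow_of_exponent_le hY1R (show (1 / 2 : ℝ) ≤ 1 by norm_num)
          gcongr
      _ = ε / 16 * Y := by rw [Real.rpow_one]
  -- the pieces
  have k1 := hL₁ X Y g1 hXY a b ha hb
  have k2 := hL₂ X Y g2 (by omega) a b
  have k3 := hL₃ a X g3
  have k3' := hL₃ b Y (by omega)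
  have k4 := hL₄ b Y (by omega) (by omega)
  set box : Set (ℕ × ℕ) := Set.Ioc a (a + X) ×ˢ Set.Ioc b (b + Y) with hbox
  have hbf : box.Finite := Beal.box_finite a b X Y
  set SA : Set ℕ := {B : ℕ | a < B ∧ B ≤ a + X ∧ ∀ p : ℕ, p ≤ P₀ → p.Prime → p % 4 = 3 →
    ¬ p ∣ B} with hSA
  set SB : Set ℕ := {B : ℕ | b < B ∧ B ≤ b + Y ∧ ∀ p : ℕ, p ≤ P₀ → p.Prime → p % 4 = 3 →
    ¬ p ∣ B} with hSB
  set SP : Set ℕ := {B : ℕ | b < B ∧ B ≤ b + Y ∧ ∃ w k : ℕ, 2 ≤ k ∧ B = w ^ k} with hSP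
  have hSAfin : SA.Finite := (Set.finite_Ioc a (a + X)).subset (fun B hB => ⟨hB.1, hB.2.1⟩)
  have hSBfin : SB.Finite := (Set.finite_Ioc b (b + Y)).subset (fun B hB => ⟨hB.1, hB.2.1⟩)
  have hSPfin : SP.Finite := (Set.finite_Ioc b (b + Y)).subset (fun B hB => ⟨hB.1, hB.2.1⟩)
  set E1 : Set (ℕ × ℕ) := {p | 0 < p.1 ∧ p.1 ≤ N ∧ Three P₀ p.1 ∧
    (p.2 ∈ SB ∨ p.2 ∈ SP ∨ p.2 ∈ BadE P₀ N p.1)} with hE1
  have hfib : ∀ A ∈ Set.Ioc a (a + X),
      (({B : ℕ | B ∈ Set.Ioc b (b + Y) ∧ (A, B) ∈ E1}.ncard : ℕ) : ℝ) ≤ 3 * ε / 16 * Y := by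
    intro A hA
    by_cases hAA : 0 < A ∧ A ≤ N ∧ Three P₀ A
    · obtain ⟨c1, c2, c3⟩ := hAA
      obtain ⟨h1, h2⟩ := hBadE A c1 c2 c3
      have hsub : {B : ℕ | B ∈ Set.Ioc b (b + Y) ∧ (A, B) ∈ E1} ⊆ SB ∪ (SP ∪ BadE P₀ N A) := by
        rintro B ⟨_, _, _, _, h⟩
        exact h
      have h3 := (Set.ncard_le_ncard hsub (hSBfin.union (hSPfin.union h1))).trans
        ((Set.ncard_union_le _ _).trans (Nat.add_le_add_left (Set.ncard_union_le _ _) _))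
      have h4 : (({B : ℕ | B ∈ Set.Ioc b (b + Y) ∧ (A, B) ∈ E1}.ncard : ℕ) : ℝ) ≤
          SB.ncard + (SP.ncard + (BadE P₀ N A).ncard) := by exact_mod_cast h3
      linarith
    · have : {B : ℕ | B ∈ Set.Ioc b (b + Y) ∧ (A, B) ∈ E1} = ∅ := by
        ext B
        simp only [Set.mem_ofPred_eq, Set.mem_empty_iff_false, iff_false]
        rintro ⟨_, h1, h2, h3, _⟩
        exact hAA ⟨h1, h2, h3⟩
      rw [this, Set.ncard_empty]
      push_cast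
      positivity
  have k5 := box_ncard_fiber hfib
  have hsub : Exc2 ∩ box ⊆ (Exc ∩ box) ∪ ((Nul2 ∩ box) ∪ ((SA ×ˢ Set.Ioc b (b + Y)) ∪
      (E1 ∩ box))) := by
    rintro ⟨A, B⟩ ⟨⟨hA, hB, hAB, h⟩, hAbox, hBbox⟩
    simp only at hA hB hAB h hAbox hBbox
    by_cases h3 : Sol 3 A B
    · exact Or.inl ⟨⟨hA, hB, hAB, h3⟩, hAbox, hBbox⟩
    by_cases hNul : (A, B) ∈ Nul2
    · exact Or.inr (Or.inl ⟨hNul, hAbox, hBbox⟩)
    by_cases hA3 : Three P₀ A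
    swap
    · refine Or.inr (Or.inr (Or.inl ⟨⟨hAbox.1, hAbox.2, ?_⟩, hBbox⟩))
      intro p hp1 hp2 hp3 hp4
      exact hA3 ⟨p, hp1, hp2, hp3, hp4⟩
    refine Or.inr (Or.inr (Or.inr ⟨⟨hA, ?_, hA3, ?_⟩, hAbox, hBbox⟩))
    · show A ≤ N
      have := hAbox.2
      omega
    · by_cases hB3 : Three P₀ B
      swap
      · left
        refine ⟨hBbox.1, hBbox.2, ?_⟩
        intro p hp1 hp2 hp3 hp4
        exact hB3 ⟨p, hp1, hp2, hp3, hp4⟩
      by_cases hBp : ∃ w k : ℕ, 2 ≤ k ∧ B = w ^ k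
      · right; left
        exact ⟨hBbox.1, hBbox.2, hBp⟩
      · right; right
        refine ⟨hB, ?_, hAB, hB3, hBp, even_of hNul h h3⟩
        have := hBbox.2
        show B ≤ N
        omega
  have hprod : ((SA ×ˢ Set.Ioc b (b + Y)).ncard : ℝ) ≤ (ε / 16 * X) * Y := by
    rw [Set.ncard_prod]
    have h1 : (Set.Ioc b (b + Y)).ncard = Y := by
      rw [← Finset.coe_Ioc, Set.ncard_coe_finset, Nat.card_Ioc, Nat.add_sub_cancel_left]
    rw [h1]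
    push_cast
    gcongr
  have hfinall : ((Exc ∩ box) ∪ ((Nul2 ∩ box) ∪ ((SA ×ˢ Set.Ioc b (b + Y)) ∪
      (E1 ∩ box)))).Finite :=
    (hbf.subset Set.inter_subset_right).union ((hbf.subset Set.inter_subset_right).union
      ((hSAfin.prod (Set.finite_Ioc _ _)).union (hbf.subset Set.inter_subset_right)))
  have h1 := (Set.ncard_le_ncard hsub hfinall).trans ((Set.ncard_union_le _ _).trans
    (Nat.add_le_add_left ((Set.ncard_union_le _ _).trans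
      (Nat.add_le_add_left (Set.ncard_union_le _ _) _)) _))
  have h2 : ((Exc2 ∩ box).ncard : ℝ) ≤ (Exc ∩ box).ncard + ((Nul2 ∩ box).ncard +
      ((SA ×ˢ Set.Ioc b (b + Y)).ncard + (E1 ∩ box).ncard)) := by exact_mod_cast h1
  have h3 : (ε / 16 * X) * Y = ε / 16 * (X * Y) := by ring
  have h4 : (X : ℝ) * (3 * ε / 16 * Y) = 3 * ε / 16 * (X * Y) := by ring
  have h5 : (0 : ℝ) ≤ ε * (X * Y) := by positivity
  rw [h3] at hprod
  rw [h4] at k5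
  linarith

/-- For almost all coprime pairs `(u, v)` of every box whose position is polynomially bounded in
its longer side, none of the numbers `u ^ x + v ^ y`, `|u ^ x - v ^ y|` is a perfect power. -/
theorem boxes2 (K : ℕ) {ε : ℝ} (hε : 0 < ε) : ∃ L : ℕ, ∀ X Y : ℕ, L ≤ X → L ≤ Y → ∀ a b : ℕ,
    a ≤ (max X Y) ^ K → b ≤ (max X Y) ^ K →
      ((Exc2 ∩ (Set.Ioc a (a + X) ×ˢ Set.Ioc b (b + Y))).ncard : ℝ) ≤ ε * (X * Y) := by
  obtain ⟨L, hL⟩ := half2 K hε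
  refine ⟨L, fun X Y hX hY a b ha hb => ?_⟩
  rcases le_total X Y with hXY | hXY
  · rw [max_eq_right hXY] at ha hb
    exact hL X Y hX hXY a b ha hb
  · rw [max_eq_left hXY] at ha hb
    have h := hL Y X hY hXY b a hb ha
    have hsub : Exc2 ∩ (Set.Ioc a (a + X) ×ˢ Set.Ioc b (b + Y)) ⊆
        Prod.swap '' (Exc2 ∩ (Set.Ioc b (b + Y) ×ˢ Set.Ioc a (a + X))) := by
      rintro ⟨A, B⟩ ⟨⟨hA, hB, hAB, hs⟩, h1, h2⟩
      exact ⟨(B, A), ⟨⟨hB, hA, hAB.symm, sol_swap hs⟩, h2, h1⟩, rfl⟩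
    have hfin : (Exc2 ∩ (Set.Ioc b (b + Y) ×ˢ Set.Ioc a (a + X))).Finite :=
      (Beal.box_finite b a Y X).subset Set.inter_subset_right
    have h3 := (Set.ncard_le_ncard hsub (hfin.image _)).trans (Set.ncard_image_le hfin)
    calc ((Exc2 ∩ (Set.Ioc a (a + X) ×ˢ Set.Ioc b (b + Y))).ncard : ℝ) ≤
        (Exc2 ∩ (Set.Ioc b (b + Y) ×ˢ Set.Ioc a (a + X))).ncard := by exact_mod_cast h3
      _ ≤ ε * (Y * X) := h
      _ = ε * (X * Y) := by ring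

end Pool.Agent.H755R4
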