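import Mathlib
import Pool.Agent.H374R2.Z.Glue2
import Pool.Agent.H755R4.PB
import Pool.Agent.H755R4.Sm

/-!
Powers of almost all integers of a short interval as terms of abc triples.
-/

set_option autoImplicit false

namespace Pool.Agent.H755R4

open Finset Filter Topology Pool.Agent.H374R2 Pool.Agent.H374R2.Z

/-- the set in question -/
def PS (b Y : ℕ) (ε : ℝ) : Set ℕ :=
  {B : ℕ | b < B ∧ B ≤ b + Y ∧ ∃ y s t : ℕ, 0 < y ∧ 0 < s ∧ 0 < t ∧ Nat.Coprime s t ∧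
      (s + t = B ^ y ∨ s + B ^ y = t) ∧ (rad (s * t) : ℝ) ≤ (Y : ℝ) ^ (1 - ε)}

theorem powers_short (K : ℕ) (hK : 1 ≤ K) {ε : ℝ} (hε : 0 < ε) (hε1 : ε < 1) : ∃ L : ℕ,
    ∀ Y b : ℕ, L ≤ Y → b + Y ≤ Y ^ K → ((PS b Y ε).ncard : ℝ) ≤ ε * Y := by
  classical
  have hKR : (1 : ℝ) ≤ K := by exact_mod_cast hK
  have hK0 : (0 : ℝ) < K := by linarith
  set θ : ℝ := ε / (4 * K) with hθ
  have hθ0 : 0 < θ := by positivity
  have hθK : θ * K = ε / 4 := by rw [hθ]; field_simp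
  have hθ1 : θ ≤ 1 := by
    rw [hθ, div_le_one (by positivity)]
    linarith
  obtain ⟨κ₁, hκ0, hκθ, N₁, hN₁⟩ := prime_between (ε := ε / 8) (θ := θ) (by positivity)
    (by positivity) hθ1 K (by linarith)
  obtain ⟨N₂, hN₂⟩ := perfect_powers (ε := ε / 8) (by positivity) K
  have hκ1 : κ₁ ≤ 1 := by linarith
  have hκ4 : 0 < κ₁ / 4 := by positivity
  have hκ4' : κ₁ / 4 ≤ 1 := by linarith
  obtain ⟨k, hk⟩ := pow_unbounded_of_one_lt (100 / (κ₁ / 4) ^ 2) (by norm_num : (1 : ℝ) < 2)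
  set q : ℕ := 2 ^ (k + 1) with hq
  have hqR : 100 / (κ₁ / 4) ^ 2 ≤ (q : ℝ) := by
    rw [hq]
    push_cast
    have : (2 : ℝ) ^ k ≤ 2 ^ (k + 1) := pow_le_pow_right₀ (by norm_num) (by omega)
    linarith
  have hqp : IsPrimePow q := ⟨2, k + 1, Nat.prime_two.prime, by omega, rfl⟩
  have hq2 : 2 ≤ q := by
    calc 2 = 2 ^ 1 := rfl
      _ ≤ 2 ^ (k + 1) := Nat.pow_le_pow_right (by norm_num) (by omega)
  obtain ⟨C3, hC3, h3⟩ := Q3.dataQ_card (q - 1) (show 0 < ε / 4 by positivity)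
  obtain ⟨C4, hC4, h4⟩ := Q4.small_pairs (fun h1 => Q1.rankin h1) (fun h1 h2 => Q2.pow_omega h1 h2)
    (q ^ 2) hθ0
  obtain ⟨N₇, h7⟩ := Q7.kinds hκ0 hκ1 hq2
  have ht1 : Tendsto (fun N : ℕ => (N : ℝ) ^ κ₁) atTop atTop :=
    (tendsto_rpow_atTop hκ0).comp tendsto_natCast_atTop_atTop
  have ht2 : Tendsto (fun N : ℕ => (N : ℝ) ^ (ε / 2)) atTop atTop :=
    (tendsto_rpow_atTop (by positivity)).comp tendsto_natCast_atTop_atTop
  obtain ⟨N₆, hN₆⟩ := eventually_atTop.mp ((ht1.eventually_ge_atTop 2).and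
    ((ht2.eventually_ge_atTop ((2 * q * C3 + C3 + 2 * C4) / (ε / 4))).and
      (eventually_ge_atTop 2)))
  refine ⟨max N₁ (max N₂ (max N₇ N₆)), fun Y b hY hbK => ?_⟩
  simp only [max_le_iff] at hY
  obtain ⟨g1, g2, g7, g6⟩ := hY
  obtain ⟨_, b2, b3⟩ := hN₆ Y g6
  set N : ℕ := b + Y with hN
  have hYN : Y ≤ N := by omega
  obtain ⟨b1, _, _⟩ := hN₆ N (g6.trans hYN)
  have hNpos : 0 < N := by omega
  have hNR : (0 : ℝ) < N := by exact_mod_cast hNpos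
  have hN1 : (1 : ℝ) ≤ N := by exact_mod_cast hNpos
  have hYpos : 0 < Y := by omega
  have hYR : (0 : ℝ) < Y := by exact_mod_cast hYpos
  have hY1 : (1 : ℝ) ≤ Y := by exact_mod_cast hYpos
  have hNYR : (N : ℝ) ≤ (Y : ℝ) ^ (K : ℝ) := by
    rw [Real.rpow_natCast]
    exact_mod_cast hbK
  have hNθ : (N : ℝ) ^ θ ≤ (Y : ℝ) ^ (ε / 4) := by
    calc (N : ℝ) ^ θ ≤ ((Y : ℝ) ^ (K : ℝ)) ^ θ := by gcongr
      _ = (Y : ℝ) ^ (ε / 4) := by
          rw [← Real.rpow_mul hYR.le]; congr 1; rw [← hθK]; ring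
  set M : ℕ := ⌊(Y : ℝ) ^ (1 - ε)⌋₊ with hM
  have hMle : (M : ℝ) ≤ (Y : ℝ) ^ (1 - ε) := Nat.floor_le (Real.rpow_nonneg hYR.le _)
  have hM1 : 1 ≤ M := by
    apply Nat.le_floor
    push_cast
    exact Real.one_le_rpow hY1 (by linarith)
  have hMN : M ≤ N := by
    have : (M : ℝ) ≤ Y := by
      calc (M : ℝ) ≤ (Y : ℝ) ^ (1 - ε) := hMle
        _ ≤ (Y : ℝ) ^ (1 : ℝ) := Real.rpow_le_rpow_of_exponent_le hY1 (by linarith)
        _ = Y := Real.rpow_one _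
    exact (by exact_mod_cast this : M ≤ Y).trans hYN
  set P : ℕ := ⌊(N : ℝ) ^ θ⌋₊ with hP
  have hPle : (P : ℝ) ≤ (Y : ℝ) ^ (ε / 4) :=
    (Nat.floor_le (Real.rpow_nonneg hNR.le _)).trans hNθ
  set D : ℕ := (dataQ M (q - 1)).card with hD
  have hDle : (D : ℝ) ≤ C3 * (Y : ℝ) ^ (1 - 3 * ε / 4) := by
    refine (h3 M hM1).trans ?_
    apply mul_le_mul_of_nonneg_left _ (by linarith)
    calc (M : ℝ) ^ (1 + ε / 4) ≤ ((Y : ℝ) ^ (1 - ε)) ^ (1 + ε / 4) :=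
          Real.rpow_le_rpow (by positivity) hMle (by positivity)
      _ = (Y : ℝ) ^ ((1 - ε) * (1 + ε / 4)) := by rw [← Real.rpow_mul hYR.le]
      _ ≤ (Y : ℝ) ^ (1 - 3 * ε / 4) := by
          apply Real.rpow_le_rpow_of_exponent_le hY1
          nlinarith
  -- the pieces
  set T1 : Set ℕ := {B : ℕ | b < B ∧ B ≤ b + Y ∧ ∀ p : ℕ, p.Prime → (N : ℝ) ^ κ₁ < p →
    (p : ℝ) ≤ (N : ℝ) ^ θ → ¬ p ∣ B} with hT1
  set T2 : Set ℕ := {B : ℕ | b < B ∧ B ≤ b + Y ∧ ∃ w k : ℕ, 2 ≤ k ∧ B = w ^ k} with hT2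
  have k1 : (T1.ncard : ℝ) ≤ ε / 8 * Y := hN₁ N b Y (g1.trans hYN) hbK
  have k2 : (T2.ncard : ℝ) ≤ ε / 8 * Y := hN₂ b Y g2 hbK
  have hT1f : T1.Finite := (Set.finite_Ioc b (b + Y)).subset fun B hB => ⟨hB.1, hB.2.1⟩
  have hT2f : T2.Finite := (Set.finite_Ioc b (b + Y)).subset fun B hB => ⟨hB.1, hB.2.1⟩
  set Sg : Finset ℤ := {1, -1} with hSg
  have hSgc : Sg.card = 2 := by rw [hSg]; rfl
  -- p-adic kind
  set J3 : Finset (ℕ × ℤ) := ((Finset.Icc 1 P).filter (fun p => p.Prime ∧ ¬ p ∣ q)) ×ˢ Sg with hJ3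
  set U3 : Set ℕ := {B | ∃ j ∈ J3, B ∈ SetQP (κ₁ / 4) q j.1 M N j.2} with hU3
  have k3 := QM.cover (K := q * D) J3 (fun j => SetQP (κ₁ / 4) q j.1 M N j.2) (by
    rintro ⟨p, σ⟩ hj
    rw [hJ3, Finset.mem_product, Finset.mem_filter] at hj
    obtain ⟨⟨_, hp, hpq⟩, hσ⟩ := hj
    have hσ' : σ = 1 ∨ σ = -1 := by simpa [hSg] using hσ
    exact Q5.setQP_card hκ4 hκ4' hqp hqR hp hpq hσ') U3 (fun b hb => hb)
  have hJ3c : J3.card ≤ P * 2 := by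
    rw [hJ3, Finset.card_product, hSgc]
    apply Nat.mul_le_mul_right
    refine (Finset.card_filter_le _ _).trans ?_
    rw [Nat.card_Icc]; omega
  -- real kind
  obtain ⟨k4f, k4⟩ := Q6.setQR_card
      (fun h1 h2 h3 h4 h5 h6 h7 h8 => unique_rt h1 h2 h3 h4 h5 h6 h7 h8)
      (κ := κ₁ / 4) (q := q) (M := M) (N := N) hκ4 hκ4' hqp hqR
  set U4 : Set ℕ := SetQR (κ₁ / 4) q M N with hU4
  -- small solutions
  set W5 : Finset (ℕ × ℕ) := (Icc 1 (N ^ (q ^ 2)) ×ˢ Icc 1 (N ^ (q ^ 2))).filter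
    (fun w : ℕ × ℕ => w.1.Coprime w.2 ∧ rad (w.1 * w.2) ≤ M) with hW5
  have hW5c : (W5.card : ℝ) ≤ C4 * M * (N : ℝ) ^ θ := h4 N M hNpos hM1 hMN
  set J5 : Finset ((ℕ × ℕ) × ℤ) := W5 ×ˢ Sg with hJ5
  set U5 : Set ℕ := {B | ∃ j ∈ J5, B ∈ QM.SSm j.2 j.1} with hU5
  have k5 := QM.cover (K := 1) J5 (fun j => QM.SSm j.2 j.1) (fun j _ => QM.ssm_card j.2 j.1) U5
    (fun b hb => hb)
  have hJ5c : J5.card = W5.card * 2 := by
    rw [hJ5, Finset.card_product, hSgc]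
  -- the covering
  have hsub : PS b Y ε ⊆ T1 ∪ (T2 ∪ (U3 ∪ (U4 ∪ U5))) := by
    rintro B ⟨hB0', hBN, y, s, t, hy, hs, ht, hco, heq, hrad⟩
    have hB0 : 0 < B := by omega
    by_cases hB1 : B ∈ T1
    · exact Or.inl hB1
    by_cases hB2 : B ∈ T2
    · exact Or.inr (Or.inl hB2)
    right; right
    have hnp : ¬ ∃ w k : ℕ, 2 ≤ k ∧ B = w ^ k := fun h => hB2 ⟨hB0', hBN, h⟩
    obtain ⟨p, hp, hpl, hpu, hpB⟩ : ∃ p : ℕ, p.Prime ∧ (N : ℝ) ^ κ₁ < p ∧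
        (p : ℝ) ≤ (N : ℝ) ^ θ ∧ p ∣ B := by
      by_contra hn
      apply hB1
      exact ⟨hB0', hBN, fun p hp hpl hpu hpB => hn ⟨p, hp, hpl, hpu, hpB⟩⟩
    have hradM : rad (s * t) ≤ M := Nat.le_floor hrad
    obtain ⟨σ, hσ, heq'⟩ : ∃ σ : ℤ, (σ = 1 ∨ σ = -1) ∧ (t : ℤ) - σ * s = (B : ℤ) ^ y := by
      rcases heq with h | h
      · refine ⟨-1, Or.inr rfl, ?_⟩
        have h' : (s : ℤ) + t = (B : ℤ) ^ y := by exact_mod_cast h
        linarith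
      · refine ⟨1, Or.inl rfl, ?_⟩
        have h' : (s : ℤ) + (B : ℤ) ^ y = t := by exact_mod_cast h
        linarith
    have hσS : σ ∈ Sg := by rw [hSg]; simpa using hσ
    by_cases hbig : N ^ (q ^ 2) ≤ max s t
    · rcases h7 N p B y s t σ (g7.trans hYN) hp hpl hpB hB0 hBN hy hs ht hco hσ heq'
        (hradM.trans hMN) hbig with h | ⟨_, h⟩
      · left
        refine ⟨(p, σ), ?_, hB0, hBN, hnp, y, s, t, hy, h, hradM⟩
        rw [hJ3, Finset.mem_product, Finset.mem_filter, Finset.mem_Icc]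
        refine ⟨⟨⟨hp.one_lt.le, Nat.le_floor hpu⟩, hp, ?_⟩, hσS⟩
        intro hdvd
        have h2 : p ∣ 2 := hp.dvd_of_dvd_pow hdvd
        have h3 : p ≤ 2 := Nat.le_of_dvd (by norm_num) h2
        have h4 : (p : ℝ) ≤ 2 := by exact_mod_cast h3
        linarith
      · right; left
        exact ⟨hB0, hBN, hnp, y, s, t, hy, h, hradM⟩
    · right; right
      rw [not_le, max_lt_iff] at hbig
      refine ⟨((s, t), σ), ?_, hB0, hnp, y, hy, heq'⟩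
      rw [hJ5, Finset.mem_product]
      refine ⟨?_, hσS⟩
      rw [hW5, Finset.mem_filter, Finset.mem_product, Finset.mem_Icc, Finset.mem_Icc]
      exact ⟨⟨⟨hs, hbig.1.le⟩, ⟨ht, hbig.2.le⟩⟩, hco, hradM⟩
  have hfin : (T1 ∪ (T2 ∪ (U3 ∪ (U4 ∪ U5)))).Finite :=
    hT1f.union (hT2f.union (k3.1.union (k4f.union k5.1)))
  have c1 := Set.ncard_le_ncard hsub hfin
  have c2 := Set.ncard_union_le T1 (T2 ∪ (U3 ∪ (U4 ∪ U5)))
  have c3 := Set.ncard_union_le T2 (U3 ∪ (U4 ∪ U5))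
  have c4 := Set.ncard_union_le U3 (U4 ∪ U5)
  have c5 := Set.ncard_union_le U4 U5
  have c6 : (PS b Y ε).ncard ≤ T1.ncard + T2.ncard + (P * 2) * (q * D) + D + W5.card * 2 * 1 := by
    have e1 : J3.card * (q * D) ≤ (P * 2) * (q * D) := Nat.mul_le_mul_right _ hJ3c
    have e2 := k3.2
    have e3 := k5.2
    rw [hJ5c] at e3
    omega
  have c7 : ((PS b Y ε).ncard : ℝ) ≤ T1.ncard + T2.ncard + (P * 2) * (q * D) + D +
      W5.card * 2 * 1 := by exact_mod_cast c6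
  set X : ℝ := (Y : ℝ) ^ (1 - ε / 2) with hX
  have hXpos : 0 < X := Real.rpow_pos_of_pos hYR _
  have d1 : (P : ℝ) * 2 * (q * D) ≤ 2 * q * C3 * X := by
    have e1 : (P : ℝ) * D ≤ (Y : ℝ) ^ (ε / 4) * (C3 * (Y : ℝ) ^ (1 - 3 * ε / 4)) :=
      mul_le_mul hPle hDle (by positivity) (by positivity)
    have e2 : (Y : ℝ) ^ (ε / 4) * (C3 * (Y : ℝ) ^ (1 - 3 * ε / 4)) = C3 * X := by
      rw [hX]
      calc (Y : ℝ) ^ (ε / 4) * (C3 * (Y : ℝ) ^ (1 - 3 * ε / 4)) =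
          C3 * ((Y : ℝ) ^ (ε / 4) * (Y : ℝ) ^ (1 - 3 * ε / 4)) := by ring
        _ = _ := by
          rw [← Real.rpow_add hYR]
          congr 2
          ring
    rw [e2] at e1
    calc (P : ℝ) * 2 * (q * D) = 2 * q * (P * D) := by ring
      _ ≤ 2 * q * (C3 * X) := mul_le_mul_of_nonneg_left e1 (by positivity)
      _ = _ := by ring
  have hle1 : (Y : ℝ) ^ (1 - 3 * ε / 4) ≤ X :=
    Real.rpow_le_rpow_of_exponent_le hY1 (by linarith)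
  have d2 : (D : ℝ) ≤ C3 * X := hDle.trans (mul_le_mul_of_nonneg_left hle1 (by linarith))
  have d3 : (W5.card : ℝ) * 2 * 1 ≤ 2 * C4 * X := by
    have e1 : (M : ℝ) * (N : ℝ) ^ θ ≤ X := by
      calc (M : ℝ) * (N : ℝ) ^ θ ≤ (Y : ℝ) ^ (1 - ε) * (Y : ℝ) ^ (ε / 4) :=
            mul_le_mul hMle hNθ (by positivity) (by positivity)
        _ = (Y : ℝ) ^ (1 - 3 * ε / 4) := by
            rw [← Real.rpow_add hYR]; congr 1; ring
        _ ≤ X := hle1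
    calc (W5.card : ℝ) * 2 * 1 = 2 * W5.card := by ring
      _ ≤ 2 * (C4 * M * (N : ℝ) ^ θ) := mul_le_mul_of_nonneg_left hW5c (by norm_num)
      _ = 2 * C4 * (M * (N : ℝ) ^ θ) := by ring
      _ ≤ 2 * C4 * X := mul_le_mul_of_nonneg_left e1 (by linarith)
  have d4 : (2 * q * C3 + C3 + 2 * C4) * X ≤ ε / 4 * Y := by
    rw [div_le_iff₀ (by positivity)] at b2
    have e1 : (Y : ℝ) ^ (ε / 2) * X = Y := by
      rw [hX, ← Real.rpow_add hYR]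
      have : ε / 2 + (1 - ε / 2) = 1 := by ring
      rw [this, Real.rpow_one]
    calc (2 * q * C3 + C3 + 2 * C4) * X ≤ ((Y : ℝ) ^ (ε / 2) * (ε / 4)) * X :=
          mul_le_mul_of_nonneg_right b2 hXpos.le
      _ = ε / 4 * ((Y : ℝ) ^ (ε / 2) * X) := by ring
      _ = ε / 4 * Y := by rw [e1]
  have hεN : 0 ≤ ε * Y := by positivity
  calc ((PS b Y ε).ncard : ℝ) ≤ _ := c7
    _ ≤ ε / 8 * Y + ε / 8 * Y + 2 * q * C3 * X + C3 * X + 2 * C4 * X := by linarith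
    _ = ε / 4 * Y + (2 * q * C3 + C3 + 2 * C4) * X := by ring
    _ ≤ ε / 4 * Y + ε / 4 * Y := by linarith
    _ ≤ ε * Y := by linarith

end Pool.Agent.H755R4
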