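import Mathlib
import Pool.Agent.H755R4.TK

/-!
Turán–Kubilius variance in an interval; integers with at most three prime factors from a set.
-/

set_option autoImplicit false

namespace Pool.Agent.H755R4

open Finset Filter Topology

/-- The variance. -/
theorem tk_var {b Y : ℕ} (S : Finset ℕ) (hS : ∀ p ∈ S, p.Prime) (hS2 : S.card ^ 2 ≤ Y)
    (hμ1 : 1 ≤ ∑ p ∈ S, (1 : ℝ) / p) :
    ∑ B ∈ Finset.Ioc b (b + Y), ((∑ p ∈ S, if p ∣ B then (1 : ℝ) else 0) -
      ∑ p ∈ S, (1 : ℝ) / p) ^ 2 ≤ 4 * Y * ∑ p ∈ S, (1 : ℝ) / p := by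
  classical
  set μ : ℝ := ∑ p ∈ S, (1 : ℝ) / p with hμ
  have hμ0 : 0 ≤ μ := Finset.sum_nonneg (fun p _ => by positivity)
  have hY0 : (0 : ℝ) ≤ Y := Nat.cast_nonneg Y
  have hs0 : (0 : ℝ) ≤ S.card := Nat.cast_nonneg _
  have hs2 : (S.card : ℝ) ^ 2 ≤ Y := by exact_mod_cast hS2
  have hs1 : (S.card : ℝ) ≤ Y := by
    have h1 : S.card ≤ S.card ^ 2 := Nat.le_self_pow (by norm_num) _
    exact_mod_cast h1.trans hS2
  let w : ℕ → ℝ := fun B => ∑ p ∈ S, if p ∣ B then (1 : ℝ) else 0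
  have hw1 : (Y : ℝ) * μ - S.card ≤ ∑ B ∈ Finset.Ioc b (b + Y), w B := by
    have e1 : ∑ B ∈ Finset.Ioc b (b + Y), w B =
        ∑ p ∈ S, ∑ B ∈ Finset.Ioc b (b + Y), (if p ∣ B then (1 : ℝ) else 0) := by
      simp only [w]
      rw [Finset.sum_comm]
    rw [e1, hμ, Finset.mul_sum, Finset.card_eq_sum_ones]
    push_cast
    rw [← Finset.sum_sub_distrib]
    apply Finset.sum_le_sum
    intro p hp
    have h := (cnt_dvd b Y p (hS p hp).pos).2
    rw [mul_one_div]
    exact h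
  have hw2 : ∑ B ∈ Finset.Ioc b (b + Y), w B ^ 2 ≤ Y * (μ ^ 2 + μ) + (S.card : ℝ) ^ 2 := by
    have e1 : ∑ B ∈ Finset.Ioc b (b + Y), w B ^ 2 =
        ∑ p ∈ S, ∑ q ∈ S, ∑ B ∈ Finset.Ioc b (b + Y), (if p ∣ B ∧ q ∣ B then (1 : ℝ) else 0) := by
      simp only [w, pow_two]
      calc ∑ B ∈ Finset.Ioc b (b + Y), (∑ p ∈ S, if p ∣ B then (1 : ℝ) else 0) *
            (∑ p ∈ S, if p ∣ B then (1 : ℝ) else 0)
          = ∑ B ∈ Finset.Ioc b (b + Y), ∑ p ∈ S, ∑ q ∈ S,
              (if p ∣ B ∧ q ∣ B then (1 : ℝ) else 0) := by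
            apply Finset.sum_congr rfl
            intro B _
            rw [Finset.sum_mul_sum]
            apply Finset.sum_congr rfl
            intro p _
            apply Finset.sum_congr rfl
            intro q _
            by_cases h1 : p ∣ B <;> by_cases h2 : q ∣ B <;> simp [h1, h2]
        _ = _ := by
            rw [Finset.sum_comm]
            apply Finset.sum_congr rfl
            intro p _
            rw [Finset.sum_comm]
    rw [e1]
    have e2 : ∀ p ∈ S, ∀ q ∈ S, ∑ B ∈ Finset.Ioc b (b + Y), (if p ∣ B ∧ q ∣ B then (1 : ℝ) else 0) ≤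
        (Y * ((1 / p) * (1 / q)) + (if p = q then (Y : ℝ) * (1 / p) else 0)) + 1 := by
      intro p hp q hq
      have hp0 := hS p hp
      have hq0 := hS q hq
      by_cases hpq : p = q
      · subst hpq
        rw [if_pos rfl]
        simp only [and_self]
        have h1 := (cnt_dvd b Y p hp0.pos).1
        have h2 : 0 ≤ (Y : ℝ) * ((1 / p) * (1 / p)) := by positivity
        have h3 : (Y : ℝ) / p = (Y : ℝ) * (1 / p) := by rw [mul_one_div]
        linarith
      · rw [if_neg hpq, add_zero]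
        have hcop : Nat.Coprime p q := (Nat.coprime_primes hp0 hq0).mpr hpq
        have h1 : ∀ B ∈ Finset.Ioc b (b + Y), (if p ∣ B ∧ q ∣ B then (1 : ℝ) else 0) =
            if p * q ∣ B then (1 : ℝ) else 0 := by
          intro B _
          by_cases h : p * q ∣ B
          · rw [if_pos h, if_pos ⟨(Dvd.intro _ rfl).trans h, (Dvd.intro_left _ rfl).trans h⟩]
          · rw [if_neg h, if_neg (fun h' => h (Nat.Coprime.mul_dvd_of_dvd_of_dvd hcop h'.1 h'.2))]
        rw [Finset.sum_congr rfl h1]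
        have h2 := (cnt_dvd b Y (p * q) (Nat.mul_pos hp0.pos hq0.pos)).1
        calc _ ≤ (Y : ℝ) / ((p * q : ℕ) : ℝ) + 1 := h2
          _ = _ := by push_cast; rw [one_div_mul_one_div]; ring
    calc ∑ p ∈ S, ∑ q ∈ S, ∑ B ∈ Finset.Ioc b (b + Y), (if p ∣ B ∧ q ∣ B then (1 : ℝ) else 0)
        ≤ ∑ p ∈ S, ∑ q ∈ S, ((Y * ((1 / (p : ℝ)) * (1 / q)) +
            (if p = q then (Y : ℝ) * (1 / p) else 0)) + 1) :=
          Finset.sum_le_sum (fun p hp => Finset.sum_le_sum (fun q hq => e2 p hp q hq))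
      _ = Y * (μ ^ 2 + μ) + (S.card : ℝ) ^ 2 := by
          have e3 : ∀ p ∈ S, ∑ q ∈ S, ((Y * ((1 / (p : ℝ)) * (1 / q)) +
              (if p = q then (Y : ℝ) * (1 / p) else 0)) + 1) =
                (Y * (1 / (p : ℝ)) * μ + Y * (1 / p)) + S.card := by
            intro p hp
            rw [Finset.sum_add_distrib, Finset.sum_add_distrib, Finset.sum_ite_eq, if_pos hp, hμ,
              Finset.mul_sum]
            congr 1
            · congr 1
              apply Finset.sum_congr rfl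
              intro q _
              ring
            · simp
          rw [Finset.sum_congr rfl e3, Finset.sum_add_distrib, Finset.sum_add_distrib,
            ← Finset.sum_mul, ← Finset.mul_sum, ← hμ, Finset.sum_const, nsmul_eq_mul]
          ring
  have hvar : ∑ B ∈ Finset.Ioc b (b + Y), (w B - μ) ^ 2 ≤ 4 * Y * μ := by
    have e1 : ∑ B ∈ Finset.Ioc b (b + Y), (w B - μ) ^ 2 =
        ∑ B ∈ Finset.Ioc b (b + Y), w B ^ 2 - 2 * μ * ∑ B ∈ Finset.Ioc b (b + Y), w B +
          Y * μ ^ 2 := by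
      have : ∀ B ∈ Finset.Ioc b (b + Y), (w B - μ) ^ 2 = w B ^ 2 - 2 * μ * w B + μ ^ 2 :=
        fun B _ => by ring
      rw [Finset.sum_congr rfl this, Finset.sum_add_distrib, Finset.sum_sub_distrib,
        ← Finset.mul_sum, Finset.sum_const, Nat.card_Ioc, Nat.add_sub_cancel_left, nsmul_eq_mul]
    rw [e1]
    have a1 := mul_le_mul_of_nonneg_left hw1 hμ0
    have a2 := mul_le_mul_of_nonneg_left hs1 hμ0
    have a3 : (Y : ℝ) ≤ Y * μ := by nlinarith
    nlinarith
  exact hvar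

/-- Few integers of an interval have at most three prime factors in `S`. -/
theorem tk3 {b Y : ℕ} (S : Finset ℕ) (hS : ∀ p ∈ S, p.Prime) (hS2 : S.card ^ 2 ≤ Y)
    (hμ6 : 6 ≤ ∑ p ∈ S, (1 : ℝ) / p) :
    (((Finset.Ioc b (b + Y)).filter (fun B => (S.filter (fun p => p ∣ B)).card ≤ 3)).card : ℝ) *
      (∑ p ∈ S, (1 : ℝ) / p) ≤ 16 * Y := by
  classical
  have hvar := tk_var (b := b) S hS hS2 (by linarith)
  set μ : ℝ := ∑ p ∈ S, (1 : ℝ) / p with hμ
  set T := (Finset.Ioc b (b + Y)).filter (fun B => (S.filter (fun p => p ∣ B)).card ≤ 3) with hT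
  have hle : (T.card : ℝ) * (μ ^ 2 / 4) ≤
      ∑ B ∈ Finset.Ioc b (b + Y), ((∑ p ∈ S, if p ∣ B then (1 : ℝ) else 0) - μ) ^ 2 := by
    calc (T.card : ℝ) * (μ ^ 2 / 4) = ∑ B ∈ T, (μ ^ 2 / 4) := by
          rw [Finset.sum_const, nsmul_eq_mul]
      _ ≤ ∑ B ∈ T, ((∑ p ∈ S, if p ∣ B then (1 : ℝ) else 0) - μ) ^ 2 := by
          apply Finset.sum_le_sum
          intro B hB
          have hB' := (Finset.mem_filter.mp hB).2
          have h1 : (∑ p ∈ S, if p ∣ B then (1 : ℝ) else 0) ≤ 3 := by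
            rw [Finset.sum_boole]
            exact_mod_cast hB'
          have h2 : μ / 2 ≤ μ - (∑ p ∈ S, if p ∣ B then (1 : ℝ) else 0) := by linarith
          nlinarith
      _ ≤ _ := Finset.sum_le_sum_of_subset_of_nonneg (Finset.filter_subset _ _)
          (fun B _ _ => sq_nonneg _)
  have hfin := hle.trans hvar
  have hμpos : 0 < μ := by linarith
  have h4 : (T.card * μ) * μ ≤ (16 * Y) * μ := by nlinarith
  exact le_of_mul_le_mul_right h4 hμpos

end Pool.Agent.H755R4
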