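import Mathlib
import Pool.Agent.H374R2.Z.Glue2
import Pool.Agent.H755R4.TK3

/-!
Almost all `n` of a short interval: every abc triple with `n ∣ abc` has a large radical.
-/

set_option autoImplicit false

namespace Pool.Agent.H755R4

open Finset Filter Topology Pool.Agent.H374R2 Pool.Agent.H374R2.Z
open Pool.Agent.Helper923.HMertens

theorem quarter_pow {x : ℝ} (hx : 0 ≤ x) : (x ^ (1 / 4 : ℝ)) ^ (4 : ℕ) = x := by
  rw [← Real.rpow_natCast, ← Real.rpow_mul hx]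
  norm_num

/-- Few integers of an interval have at most three prime factors larger than `y`. -/
theorem few_large_short {ε : ℝ} (hε : 0 < ε) : ∃ η₀ : ℝ, 0 < η₀ ∧ ∀ η : ℝ, 0 < η → η ≤ η₀ →
    ∃ X₀ : ℕ, ∀ X b Y y : ℕ, X₀ ≤ X → b + Y ≤ X → (X : ℝ) ≤ (Y : ℝ) ^ 2 →
      y = ⌈(X : ℝ) ^ η⌉₊ →
      (((Finset.Ioc b (b + Y)).filter
        (fun n => (n.primeFactors.filter (fun p => y < p)).card ≤ 3)).card : ℝ) ≤ ε * Y := by
  classical
  obtain ⟨C, hC0, hC⟩ := mertens_ratio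
  obtain ⟨Λ, hΛ⟩ : ∃ Λ : ℝ, Λ = 16 / ε + 7 := ⟨_, rfl⟩
  have hΛ0 : 0 < Λ := by rw [hΛ]; positivity
  refine ⟨min (1 / 16) (Real.exp (-Λ) / 16), by positivity, fun η hη hηle => ?_⟩
  have hη1 : η ≤ 1 / 16 := hηle.trans (min_le_left _ _)
  have hη2 : η ≤ Real.exp (-Λ) / 16 := hηle.trans (min_le_right _ _)
  have hΛlog : Λ ≤ Real.log (1 / (16 * η)) := by
    rw [Real.le_log_iff_exp_le (by positivity), le_div_iff₀ (by positivity)]
    have h1 : 16 * η ≤ Real.exp (-Λ) := by linarith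
    calc Real.exp Λ * (16 * η) ≤ Real.exp Λ * Real.exp (-Λ) := by gcongr
      _ = 1 := by rw [← Real.exp_add]; simp
  have hlog : Tendsto (fun N : ℕ => Real.log N) atTop atTop :=
    Real.tendsto_log_atTop.comp tendsto_natCast_atTop_atTop
  have hl2 : 0 < Real.log 2 := Real.log_pos (by norm_num)
  have ev0 : ∀ᶠ X : ℕ in atTop, (3 : ℝ) ≤ (X : ℝ) ^ η :=
    ((tendsto_rpow_atTop hη).comp tendsto_natCast_atTop_atTop).eventually_ge_atTop 3
  obtain ⟨X₀, hX₀⟩ := eventually_atTop.mp ((ev0.and (hlog.eventually_ge_atTop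
    (max ((C + 1) / η) (8 * Real.log 2)))).and (eventually_ge_atTop 2))
  refine ⟨X₀, fun X b Y y hX hbX hXY hy => ?_⟩
  obtain ⟨⟨hXη, hL⟩, hX2⟩ := hX₀ X hX
  have hXR : (0 : ℝ) < X := by exact_mod_cast (by omega : 0 < X)
  have hX1 : (1 : ℝ) ≤ X := by exact_mod_cast (by omega : 1 ≤ X)
  have hL1 : C + 1 ≤ η * Real.log X := by
    have h1 := (le_max_left _ _).trans hL
    rw [div_le_iff₀ hη] at h1
    linarith
  have hL2 : 8 * Real.log 2 ≤ Real.log X := (le_max_right _ _).trans hL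
  have hlogX : 0 < Real.log X := by linarith
  have hyR : (X : ℝ) ^ η ≤ y := by rw [hy]; exact Nat.le_ceil _
  have hy3 : (3 : ℝ) ≤ y := hXη.trans hyR
  have hy3' : 3 ≤ y := by exact_mod_cast hy3
  have hlogy_lb : η * Real.log X ≤ Real.log y := by
    rw [← Real.log_rpow hXR]
    exact Real.log_le_log (by positivity) hyR
  have hlogy_ub : Real.log y ≤ 2 * η * Real.log X := by
    have h1 : (y : ℝ) ≤ (X : ℝ) ^ η + 1 := by
      rw [hy]; exact (Nat.ceil_lt_add_one (by positivity)).le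
    have h2 : (y : ℝ) ≤ (X : ℝ) ^ η * (X : ℝ) ^ η := by nlinarith
    have h4 := Real.log_le_log (by linarith) h2
    rw [Real.log_mul (by positivity) (by positivity), Real.log_rpow hXR] at h4
    linarith
  have hlogy0 : 0 < Real.log y := by linarith
  set c : ℕ := ⌊(X : ℝ) ^ (1 / 4 : ℝ)⌋₊ with hc
  have hc_ub : (c : ℝ) ≤ (X : ℝ) ^ (1 / 4 : ℝ) := Nat.floor_le (by positivity)
  have hX4 : (1 : ℝ) ≤ (X : ℝ) ^ (1 / 4 : ℝ) := Real.one_le_rpow hX1 (by norm_num)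
  have hc_lb : (X : ℝ) ^ (1 / 4 : ℝ) / 2 ≤ c := T.TaskD1.half_le_floor hX4
  have hlogc : Real.log X / 8 ≤ Real.log c := by
    have h := Real.log_le_log (by positivity) hc_lb
    rw [Real.log_div (by positivity) (by norm_num), Real.log_rpow hXR] at h
    linarith
  have hyc : y ≤ c := by
    have h1 : Real.log y ≤ Real.log c := by
      calc Real.log y ≤ 2 * η * Real.log X := hlogy_ub
        _ ≤ 2 * (1 / 16) * Real.log X := by gcongr
        _ = Real.log X / 8 := by ring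
        _ ≤ _ := hlogc
    have hcpos : (0 : ℝ) < c := lt_of_lt_of_le (by positivity) hc_lb
    have h2 := (Real.log_le_log_iff (by linarith) hcpos).mp h1
    exact_mod_cast h2
  set S : Finset ℕ := (Finset.Ioc y c).filter Nat.Prime with hS
  have hsum := (abs_le.mp (hC y c (by omega) hyc)).1
  have hμ : Λ - 1 ≤ ∑ p ∈ S, (1 : ℝ) / p := by
    have e1 : Real.log (1 / (16 * η)) ≤ Real.log (Real.log c / Real.log y) := by
      apply Real.log_le_log (by positivity)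
      rw [div_le_div_iff₀ (by positivity) hlogy0]
      calc 1 * Real.log y ≤ 2 * η * Real.log X := by linarith
        _ = (Real.log X / 8) * (16 * η) := by ring
        _ ≤ Real.log c * (16 * η) := by gcongr
    have e2 : C / Real.log y ≤ 1 := by
      rw [div_le_one hlogy0]; linarith
    linarith
  have hΛ6 : 6 ≤ Λ - 1 := by
    rw [hΛ]
    have : 0 < 16 / ε := by positivity
    linarith
  have hSc : S.card ^ 2 ≤ Y := by
    have h1 : S.card ≤ c := by
      calc S.card ≤ (Finset.Ioc y c).card := Finset.card_filter_le _ _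
        _ ≤ c := by rw [Nat.card_Ioc]; omega
    have h2 : (c : ℝ) ^ 4 ≤ (Y : ℝ) ^ 2 := by
      calc (c : ℝ) ^ 4 ≤ ((X : ℝ) ^ (1 / 4 : ℝ)) ^ (4 : ℕ) :=
            pow_le_pow_left₀ (Nat.cast_nonneg c) hc_ub 4
        _ = X := quarter_pow hXR.le
        _ ≤ (Y : ℝ) ^ 2 := hXY
    have h3 : c ^ 4 ≤ Y ^ 2 := by exact_mod_cast h2
    have h4 : (c ^ 2) ^ 2 ≤ Y ^ 2 := by rw [← pow_mul]; exact h3
    have h5 : c ^ 2 ≤ Y := (Nat.pow_le_pow_iff_left (by norm_num)).mp h4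
    exact (Nat.pow_le_pow_left h1 2).trans h5
  have htk := tk3 (b := b) (Y := Y) S (fun p hp => (Finset.mem_filter.mp hp).2) hSc (by linarith)
  have hsub : (Finset.Ioc b (b + Y)).filter
        (fun n => (n.primeFactors.filter (fun p => y < p)).card ≤ 3) ⊆
      (Finset.Ioc b (b + Y)).filter (fun B => (S.filter (fun p => p ∣ B)).card ≤ 3) := by
    intro n hn
    rw [Finset.mem_filter] at hn ⊢
    refine ⟨hn.1, le_trans (Finset.card_le_card ?_) hn.2⟩
    intro p hp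
    rw [Finset.mem_filter, hS, Finset.mem_filter, Finset.mem_Ioc] at hp
    rw [Finset.mem_filter, Nat.mem_primeFactors]
    have h0 : n ≠ 0 := by
      have := (Finset.mem_Ioc.mp hn.1).1
      omega
    exact ⟨⟨hp.1.2, hp.2, h0⟩, hp.1.1.1⟩
  have hcard : (((Finset.Ioc b (b + Y)).filter
        (fun n => (n.primeFactors.filter (fun p => y < p)).card ≤ 3)).card : ℝ) ≤
      ((Finset.Ioc b (b + Y)).filter (fun B => (S.filter (fun p => p ∣ B)).card ≤ 3)).card := by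
    exact_mod_cast Finset.card_le_card hsub
  refine hcard.trans ?_
  set U := ((Finset.Ioc b (b + Y)).filter (fun B => (S.filter (fun p => p ∣ B)).card ≤ 3)) with hU
  have h16 : 16 / ε ≤ ∑ p ∈ S, (1 : ℝ) / p := by
    rw [hΛ] at hμ
    linarith
  have h1 : (U.card : ℝ) * (16 / ε) ≤ 16 * Y := by
    refine le_trans ?_ htk
    gcongr
  calc (U.card : ℝ) = (U.card : ℝ) * (16 / ε) * (ε / 16) := by field_simp
    _ ≤ 16 * Y * (ε / 16) := by gcongr
    _ = ε * Y := by ring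

/-- Few integers of an interval have a large quotient `n / rad n`. -/
theorem rad_small_short {δ ε : ℝ} (hδ : 0 < δ) (hε : 0 < ε) : ∃ X₀ : ℕ, ∀ X b Y : ℕ, X₀ ≤ X →
    b + Y ≤ X → (X : ℝ) ^ 3 ≤ (Y : ℝ) ^ 4 →
    (((Finset.Ioc b (b + Y)).filter (fun n => (rad n : ℝ) * (X : ℝ) ^ δ < n)).card : ℝ) ≤
      ε * Y := by
  have ht : Tendsto (fun X : ℕ => ((⌊(X : ℝ) ^ (δ / 3)⌋₊ : ℕ) : ℝ)) atTop atTop :=
    tendsto_natCast_atTop_atTop.comp (tendsto_nat_floor_atTop.comp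
      ((tendsto_rpow_atTop (by positivity)).comp tendsto_natCast_atTop_atTop))
  have ht2 : Tendsto (fun X : ℕ => (X : ℝ) ^ (1 / 4 : ℝ)) atTop atTop :=
    (tendsto_rpow_atTop (by norm_num)).comp tendsto_natCast_atTop_atTop
  obtain ⟨X1, hX1⟩ := eventually_atTop.mp ((ht.eventually_ge_atTop (max (2 / ε) 1)).and
    ((ht2.eventually_ge_atTop (2 / ε)).and (eventually_ge_atTop 1)))
  refine ⟨X1, fun X b Y hX hbX hXY => ?_⟩
  obtain ⟨h1, h1', h1''⟩ := hX1 X hX
  set D0 : ℕ := ⌊(X : ℝ) ^ (δ / 3)⌋₊ with hD0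
  have hD1 : (1 : ℝ) ≤ D0 := (le_max_right _ _).trans h1
  have hDε : 2 / ε ≤ D0 := (le_max_left _ _).trans h1
  have hD1' : 1 ≤ D0 := by exact_mod_cast hD1
  have hX0 : (0 : ℝ) ≤ X := Nat.cast_nonneg X
  have hXpos : (0 : ℝ) < X := by exact_mod_cast h1''
  have hY0 : (0 : ℝ) ≤ Y := Nat.cast_nonneg Y
  set R : ℕ := Nat.sqrt X with hR
  -- the set is contained in a union
  have hsub : (Finset.Ioc b (b + Y)).filter (fun n => (rad n : ℝ) * (X : ℝ) ^ δ < n) ⊆
      (Ioc D0 R).biUnion (fun d => (Ioc b (b + Y)).filter (fun n => d ^ 2 ∣ n)) := by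
    intro n hn
    rw [mem_filter, mem_Ioc] at hn
    obtain ⟨⟨hn1, hnX⟩, hn2⟩ := hn
    have hn0 : n ≠ 0 := by omega
    have h2 : (n : ℝ) ≤ rad n * (RO4.dd n : ℝ) ^ 3 := by exact_mod_cast RO4.le_rad_dd hn0
    have h3 : (0 : ℝ) < rad n := by exact_mod_cast RO4.rad_pos n
    have h4 : (X : ℝ) ^ δ < (RO4.dd n : ℝ) ^ 3 := lt_of_mul_lt_mul_left (hn2.trans_le h2) h3.le
    have h5 : (X : ℝ) ^ (δ / 3) < RO4.dd n := by
      have e : (X : ℝ) ^ δ = ((X : ℝ) ^ (δ / 3)) ^ (3 : ℕ) := by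
        rw [← Real.rpow_natCast, ← Real.rpow_mul hX0]; congr 1; push_cast; ring
      rw [e] at h4
      exact lt_of_pow_lt_pow_left₀ 3 (Nat.cast_nonneg _) h4
    have h6 : D0 < RO4.dd n := (Nat.floor_lt (by positivity)).2 h5
    have h7 : RO4.dd n ≤ R := by
      have h8 : RO4.dd n ^ 2 ≤ n := Nat.le_of_dvd (by omega) (RO4.dd_sq_dvd hn0)
      rw [hR, Nat.le_sqrt']
      omega
    rw [mem_biUnion]
    exact ⟨RO4.dd n, mem_Ioc.2 ⟨h6, h7⟩, mem_filter.2 ⟨mem_Ioc.2 ⟨hn1, hnX⟩, RO4.dd_sq_dvd hn0⟩⟩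
  have hc : (((Finset.Ioc b (b + Y)).filter (fun n => (rad n : ℝ) * (X : ℝ) ^ δ < n)).card : ℝ) ≤
      ∑ d ∈ Ioc D0 R, ((Y : ℝ) * ((d : ℝ) ^ 2)⁻¹ + 1) := by
    have e1 : (((Finset.Ioc b (b + Y)).filter (fun n => (rad n : ℝ) * (X : ℝ) ^ δ < n)).card : ℝ) ≤
        ((∑ d ∈ Ioc D0 R, ((Ioc b (b + Y)).filter (fun n => d ^ 2 ∣ n)).card : ℕ) : ℝ) := by
      exact_mod_cast (card_le_card hsub).trans card_biUnion_le
    refine e1.trans ?_
    push_cast
    refine sum_le_sum fun d hd => ?_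
    have hd0 : 0 < d ^ 2 := by
      have h0 := (mem_Ioc.mp hd).1
      have h1 : 0 < d := by omega
      positivity
    have h2 := (cnt_dvd b Y (d ^ 2) hd0).1
    rw [Finset.sum_boole] at h2
    push_cast at h2
    rw [div_eq_mul_inv] at h2
    exact h2
  have hRX : (R : ℝ) ≤ ε / 2 * Y := by
    have h2 : (R : ℝ) ^ 2 ≤ X := by exact_mod_cast Nat.sqrt_le' X
    -- `R ≤ X ^ (1/2) = X ^ (3/4) / X ^ (1/4) ≤ Y / X ^ (1/4)`
    have h3 : (X : ℝ) ^ (3 / 4 : ℝ) ≤ Y := by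
      have e1 : ((X : ℝ) ^ (3 / 4 : ℝ)) ^ (4 : ℕ) ≤ (Y : ℝ) ^ (4 : ℕ) := by
        calc ((X : ℝ) ^ (3 / 4 : ℝ)) ^ (4 : ℕ) = (X : ℝ) ^ (3 : ℕ) := by
              rw [← Real.rpow_natCast, ← Real.rpow_mul hX0, ← Real.rpow_natCast (X : ℝ) 3]
              norm_num
          _ ≤ _ := hXY
      exact le_of_pow_le_pow_left₀ (by norm_num) hY0 e1
    have h4 : (R : ℝ) ≤ (X : ℝ) ^ (1 / 2 : ℝ) := by
      rw [← Real.sqrt_eq_rpow]
      exact Real.le_sqrt_of_sq_le h2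
    have h5 : (X : ℝ) ^ (1 / 2 : ℝ) * (X : ℝ) ^ (1 / 4 : ℝ) = (X : ℝ) ^ (3 / 4 : ℝ) := by
      rw [← Real.rpow_add hXpos]; norm_num
    have h6 : 1 ≤ ε / 2 * (X : ℝ) ^ (1 / 4 : ℝ) := by
      rw [div_le_iff₀ hε] at h1'
      linarith
    calc (R : ℝ) ≤ (X : ℝ) ^ (1 / 2 : ℝ) * 1 := by linarith
      _ ≤ (X : ℝ) ^ (1 / 2 : ℝ) * (ε / 2 * (X : ℝ) ^ (1 / 4 : ℝ)) := by gcongr
      _ = ε / 2 * ((X : ℝ) ^ (1 / 2 : ℝ) * (X : ℝ) ^ (1 / 4 : ℝ)) := by ring
      _ = ε / 2 * (X : ℝ) ^ (3 / 4 : ℝ) := by rw [h5]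
      _ ≤ ε / 2 * Y := by gcongr
  have hsum : ∑ d ∈ Ioc D0 R, ((Y : ℝ) * ((d : ℝ) ^ 2)⁻¹ + 1) ≤ Y * (D0 : ℝ)⁻¹ + R := by
    rw [sum_add_distrib, ← mul_sum]
    have h2 : (∑ d ∈ Ioc D0 R, (1 : ℝ)) ≤ R := by
      rw [Finset.sum_const, nsmul_eq_mul, mul_one, Nat.card_Ioc]
      exact_mod_cast Nat.sub_le _ _
    have h3 : ∑ d ∈ Ioc D0 R, ((d : ℝ) ^ 2)⁻¹ ≤ (D0 : ℝ)⁻¹ := by
      rcases le_or_gt D0 R with h | h
      · have := sum_Ioc_inv_sq_le_sub (α := ℝ) (k := D0) (n := R) (by omega) h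
        have h2 : (0:ℝ) ≤ (R:ℝ)⁻¹ := by positivity
        linarith
      · rw [Ioc_eq_empty (by omega)]; simp
    have h4 := mul_le_mul_of_nonneg_left h3 hY0
    linarith
  have hD : (Y : ℝ) * (D0 : ℝ)⁻¹ ≤ ε / 2 * Y := by
    have h2 : (D0 : ℝ)⁻¹ ≤ ε / 2 := by
      rw [inv_le_comm₀ (by linarith) (by positivity)]
      calc (ε / 2)⁻¹ = 2 / ε := by rw [inv_div]
        _ ≤ _ := hDε
    calc (Y : ℝ) * (D0 : ℝ)⁻¹ ≤ Y * (ε / 2) := by gcongr
      _ = _ := by ring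
  linarith

/-- Few integers of an interval have many prime factors. -/
theorem many_primes_short {ε : ℝ} (hε : 0 < ε) (K : ℕ) (hK : 1 ≤ K) : ∃ X₀ : ℕ,
    ∀ X b Y a l W : ℕ, X₀ ≤ X → b + Y ≤ X → (X : ℝ) ≤ (Y : ℝ) ^ 2 → a = Nat.log 2 X →
      l = Nat.log 2 a + 1 → W = a / (K * l) →
      (((Finset.Ioc b (b + Y)).filter (fun n => W / 2 < n.primeFactors.card)).card : ℝ) ≤
        ε * Y := by
  classical
  obtain ⟨C, hC0, hC⟩ := mertens_ratio
  obtain ⟨C', hC'⟩ : ∃ C' : ℝ, C' = C / Real.log 2 + 4 := ⟨_, rfl⟩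
  have hl2 : 0 < Real.log 2 := Real.log_pos (by norm_num)
  have hl2' : (1 : ℝ) / 2 ≤ Real.log 2 := by
    have := Real.log_two_gt_d9
    linarith
  have hC'0 : 4 ≤ C' := by
    rw [hC']
    have : 0 ≤ C / Real.log 2 := by positivity
    linarith
  obtain ⟨M, hM⟩ := exists_nat_ge ((C' + 1) / ε)
  refine ⟨2 ^ (2 ^ (4 * K * (2 * M + 7) + 10)), fun X b Y a l W hX hbX hXY ha hl hW => ?_⟩
  have hXpos : 1 ≤ X := le_trans Nat.one_le_two_pow hX
  have ha3 : 2 ^ (4 * K * (2 * M + 7) + 10) ≤ a := by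
    rw [ha]; exact Nat.le_log_of_pow_le (by norm_num) hX
  have hapos : 1 ≤ a := le_trans Nat.one_le_two_pow ha3
  have hl1 : 4 * K * (2 * M + 7) + 10 + 1 ≤ l := by
    rw [hl]
    have := Nat.le_log_of_pow_le (by norm_num) ha3
    omega
  have hl3 : 2 ^ l ≤ 2 * a := by
    rw [hl, pow_succ]
    have := Nat.pow_log_le_self 2 (show a ≠ 0 by omega)
    omega
  have ha2 : X < 2 ^ (a + 1) := by rw [ha]; exact Nat.lt_pow_succ_log_self (by norm_num) X
  have hal : a < 2 ^ l := by rw [hl]; exact Nat.lt_pow_succ_log_self (by norm_num) a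
  have hcube := RO5.cube_le l (by omega)
  have hl0 : 0 < l := by omega
  have hKl : 0 < K * l := by positivity
  -- `W` is large
  have hWbig : 2 * (M * (l + 1) + 5) ≤ W := by
    rw [hW, Nat.le_div_iff_mul_le hKl]
    have h1 : 2 * (M * (l + 1) + 5) ≤ 2 * ((2 * M + 5) * l) := by nlinarith
    have h2 : 2 * (2 * (M * (l + 1) + 5) * (K * l)) ≤ l ^ 3 := by
      calc 2 * (2 * (M * (l + 1) + 5) * (K * l)) ≤ 2 * (2 * ((2 * M + 5) * l) * (K * l)) := by
            gcongr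
        _ = (4 * K * (2 * M + 5)) * l ^ 2 := by ring
        _ ≤ l * l ^ 2 := by
            apply Nat.mul_le_mul_right
            have : 4 * K * (2 * M + 5) ≤ 4 * K * (2 * M + 7) := by gcongr; norm_num
            omega
        _ = l ^ 3 := by ring
    omega
  have hXR : (0 : ℝ) < X := by exact_mod_cast hXpos
  have hX1 : (1 : ℝ) ≤ X := by exact_mod_cast hXpos
  have hY0 : (0 : ℝ) ≤ Y := Nat.cast_nonneg Y
  set c : ℕ := ⌊(X : ℝ) ^ (1 / 4 : ℝ)⌋₊ with hc
  have hc_ub : (c : ℝ) ≤ (X : ℝ) ^ (1 / 4 : ℝ) := Nat.floor_le (by positivity)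
  have hc4 : c ^ 4 ≤ X := by
    have h2 : (c : ℝ) ^ 4 ≤ X := by
      calc (c : ℝ) ^ 4 ≤ ((X : ℝ) ^ (1 / 4 : ℝ)) ^ (4 : ℕ) :=
            pow_le_pow_left₀ (Nat.cast_nonneg c) hc_ub 4
        _ = X := quarter_pow hXR.le
    exact_mod_cast h2
  have hc4' : X < (c + 1) ^ 4 := by
    have h1 : (X : ℝ) ^ (1 / 4 : ℝ) < c + 1 := Nat.lt_floor_add_one _
    have h2 : (X : ℝ) < ((c : ℝ) + 1) ^ 4 := by
      calc (X : ℝ) = ((X : ℝ) ^ (1 / 4 : ℝ)) ^ (4 : ℕ) := (quarter_pow hXR.le).symm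
        _ < _ := pow_lt_pow_left₀ h1 (by positivity) (by norm_num)
    exact_mod_cast h2
  have hcY : c ≤ Y := by
    have h2 : (c : ℝ) ^ 4 ≤ (Y : ℝ) ^ 2 := by
      have : (c : ℝ) ^ 4 ≤ X := by exact_mod_cast hc4
      linarith
    have h3 : c ^ 4 ≤ Y ^ 2 := by exact_mod_cast h2
    have h4 : (c ^ 2) ^ 2 ≤ Y ^ 2 := by rw [← pow_mul]; exact h3
    have h5 : c ^ 2 ≤ Y := (Nat.pow_le_pow_iff_left (by norm_num)).mp h4
    exact (Nat.le_self_pow (by norm_num) c).trans h5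
  have hc2 : 2 ≤ c := by
    have h1 : 2 ^ 10 ≤ a := le_trans (Nat.pow_le_pow_right (by norm_num) (by omega)) ha3
    have h2 : 2 ^ 4 ≤ X := by
      have h3 : 2 ^ a ≤ X := by rw [ha]; exact Nat.pow_log_le_self 2 (by omega)
      exact (Nat.pow_le_pow_right (by norm_num) (by omega)).trans h3
    by_contra hcon
    have h3 : (c + 1) ^ 4 ≤ 2 ^ 4 := Nat.pow_le_pow_left (by omega) 4
    omega
  -- the sum of the reciprocals of the primes up to `c`
  set S : Finset ℕ := (Finset.Ioc 1 c).filter Nat.Prime with hS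
  have hmert : ∑ p ∈ S, (1 : ℝ) / p ≤ C' - 1 + l := by
    have h1 := (abs_le.mp (hC 2 c le_rfl hc2)).2
    have h2 : S = insert 2 ((Finset.Ioc 2 c).filter Nat.Prime) := by
      rw [hS]
      ext p
      simp only [Finset.mem_filter, Finset.mem_Ioc, Finset.mem_insert]
      constructor
      · rintro ⟨⟨h3, h4⟩, h5⟩
        rcases Nat.lt_or_ge 2 p with h6 | h6
        · exact Or.inr ⟨⟨h6, h4⟩, h5⟩
        · exact Or.inl (by omega)
      · rintro (h3 | ⟨⟨h3, h4⟩, h5⟩)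
        · subst h3; exact ⟨⟨by norm_num, hc2⟩, Nat.prime_two⟩
        · exact ⟨⟨by omega, h4⟩, h5⟩
    rw [h2, Finset.sum_insert (by simp)]
    have h3 : Real.log (Real.log c / Real.log 2) ≤ l := by
      have h4 : Real.log c ≤ a + 1 := by
        have h5 : (c : ℝ) ≤ 2 ^ (a + 1) := by
          have h6 : c ≤ X := (Nat.le_self_pow (by norm_num) c).trans hc4
          exact_mod_cast h6.trans ha2.le
        have h6 := Real.log_le_log (by exact_mod_cast (by omega : 0 < c)) h5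
        rw [Real.log_pow] at h6
        push_cast at h6
        have h7 : Real.log 2 ≤ 1 := by have := Real.log_two_lt_d9; linarith
        have h8 : ((a : ℝ) + 1) * Real.log 2 ≤ ((a : ℝ) + 1) * 1 := by gcongr
        linarith
      have h5 : Real.log c / Real.log 2 ≤ 2 ^ (l + 1) := by
        rw [div_le_iff₀ hl2]
        have h6 : (a : ℝ) + 1 ≤ 2 ^ l := by exact_mod_cast hal
        calc Real.log c ≤ 2 ^ l := by linarith
          _ = 2 ^ (l + 1) * (1 / 2) := by rw [pow_succ]; ring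
          _ ≤ 2 ^ (l + 1) * Real.log 2 := by gcongr
      have hcpos : 0 < Real.log c := Real.log_pos (by exact_mod_cast (by omega : 1 < c))
      have h6 := Real.log_le_log (by positivity) h5
      rw [Real.log_pow] at h6
      push_cast at h6
      have h7 : Real.log 2 ≤ 0.7 := by have := Real.log_two_lt_d9; linarith
      have h8 : (4 : ℝ) ≤ l := by exact_mod_cast (by omega : 4 ≤ l)
      nlinarith
    rw [hC']
    norm_num
    norm_num at h1
    linarith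
  -- first moment
  set U := (Finset.Ioc b (b + Y)).filter (fun n => W / 2 < n.primeFactors.card) with hU
  have hmom : ∑ n ∈ Finset.Ioc b (b + Y), (∑ p ∈ S, if p ∣ n then (1 : ℝ) else 0) ≤
      Y * (C' + l) := by
    rw [Finset.sum_comm]
    have h1 : ∀ p ∈ S, ∑ n ∈ Finset.Ioc b (b + Y), (if p ∣ n then (1 : ℝ) else 0) ≤
        Y * (1 / (p : ℝ)) + 1 := by
      intro p hp
      have h2 := (cnt_dvd b Y p (Finset.mem_filter.mp hp).2.pos).1
      rw [mul_one_div]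
      exact h2
    refine (Finset.sum_le_sum h1).trans ?_
    rw [Finset.sum_add_distrib, ← Finset.mul_sum, Finset.sum_const, nsmul_eq_mul, mul_one]
    have h2 : (S.card : ℝ) ≤ Y := by
      have h3 : S.card ≤ c := by
        calc S.card ≤ (Finset.Ioc 1 c).card := Finset.card_filter_le _ _
          _ ≤ c := by rw [Nat.card_Ioc]; omega
      exact_mod_cast h3.trans hcY
    have h3 := mul_le_mul_of_nonneg_left hmert hY0
    nlinarith
  have hlow : ∀ n ∈ U, ((M * (l + 1) : ℕ) : ℝ) ≤ ∑ p ∈ S, if p ∣ n then (1 : ℝ) else 0 := by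
    intro n hn
    rw [hU, Finset.mem_filter, Finset.mem_Ioc] at hn
    obtain ⟨⟨hn1, hn2⟩, hn3⟩ := hn
    have hn0 : n ≠ 0 := by omega
    rw [Finset.sum_boole]
    have h1 : (n.primeFactors.filter (fun p => c < p)).card ≤ 3 := by
      by_contra hcon
      push Not at hcon
      have h2 : (c + 1) ^ (n.primeFactors.filter (fun p => c < p)).card ≤
          ∏ p ∈ n.primeFactors.filter (fun p => c < p), p := by
        rw [← Finset.prod_const]
        apply Finset.prod_le_prod'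
        intro p hp
        exact (Finset.mem_filter.mp hp).2
      have h3 : ∏ p ∈ n.primeFactors.filter (fun p => c < p), p ≤ n := by
        apply Nat.le_of_dvd (by omega)
        refine dvd_trans ?_ (Nat.prod_primeFactors_dvd n)
        exact Finset.prod_dvd_prod_of_subset _ _ _ (Finset.filter_subset _ _)
      have h4 : (c + 1) ^ 4 ≤ (c + 1) ^ (n.primeFactors.filter (fun p => c < p)).card :=
        Nat.pow_le_pow_right (by omega) hcon
      omega
    have h2 : n.primeFactors.card ≤ (S.filter (fun p => p ∣ n)).card + 3 := by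
      have h3 : n.primeFactors ⊆ (S.filter (fun p => p ∣ n)) ∪
          (n.primeFactors.filter (fun p => c < p)) := by
        intro p hp
        have hp' := Nat.mem_primeFactors.mp hp
        rcases Nat.lt_or_ge c p with h | h
        · exact Finset.mem_union_right _ (Finset.mem_filter.mpr ⟨hp, h⟩)
        · apply Finset.mem_union_left
          apply Finset.mem_filter.mpr
          refine ⟨?_, hp'.2.1⟩
          rw [hS]
          exact Finset.mem_filter.mpr ⟨Finset.mem_Ioc.mpr ⟨hp'.1.one_lt, h⟩, hp'.1⟩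
      have h4 := (Finset.card_le_card h3).trans (Finset.card_union_le _ _)
      omega
    have h3 : M * (l + 1) ≤ (S.filter (fun p => p ∣ n)).card := by omega
    exact_mod_cast h3
  have h1 : (U.card : ℝ) * ((M * (l + 1) : ℕ) : ℝ) ≤ Y * (C' + l) := by
    calc (U.card : ℝ) * ((M * (l + 1) : ℕ) : ℝ) = ∑ n ∈ U, ((M * (l + 1) : ℕ) : ℝ) := by
          rw [Finset.sum_const, nsmul_eq_mul]
      _ ≤ ∑ n ∈ U, (∑ p ∈ S, if p ∣ n then (1 : ℝ) else 0) := Finset.sum_le_sum hlow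
      _ ≤ ∑ n ∈ Finset.Ioc b (b + Y), (∑ p ∈ S, if p ∣ n then (1 : ℝ) else 0) :=
          Finset.sum_le_sum_of_subset_of_nonneg (Finset.filter_subset _ _)
            (fun n _ _ => Finset.sum_nonneg (fun p _ => by positivity))
      _ ≤ _ := hmom
  have h2 : (C' + l) ≤ ε * ((M * (l + 1) : ℕ) : ℝ) := by
    push_cast
    have h3 : (C' + 1) ≤ ε * M := by
      rw [div_le_iff₀ hε] at hM
      linarith
    have h4 : (0 : ℝ) ≤ l := Nat.cast_nonneg l
    nlinarith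
  have hpos : (0 : ℝ) < ((M * (l + 1) : ℕ) : ℝ) := by
    by_contra hcon
    push Not at hcon
    have h4 : (0 : ℝ) ≤ l := Nat.cast_nonneg l
    nlinarith
  have h5 : (U.card : ℝ) * ((M * (l + 1) : ℕ) : ℝ) ≤ (ε * Y) * ((M * (l + 1) : ℕ) : ℝ) := by
    calc (U.card : ℝ) * ((M * (l + 1) : ℕ) : ℝ) ≤ Y * (C' + l) := h1
      _ ≤ Y * (ε * ((M * (l + 1) : ℕ) : ℝ)) := by gcongr
      _ = _ := by ring
  exact le_of_mul_le_mul_right h5 hpos

end Pool.Agent.H755R4
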