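import Mathlib
import Pool.Agent.H374R2.Z.Glue2
import Pool.Agent.H755R4.Rob

/-!
Almost all `n` of a short interval: every abc triple with `n ∣ abc` has a large radical.
-/

set_option autoImplicit false

namespace Pool.Agent.H755R4

open Finset Filter Topology Pool.Agent.H374R2 Pool.Agent.H374R2.Z

theorem robust_short : ∀ ε : ℝ, 0 < ε → ∃ δ : ℝ, 0 < δ ∧ ∃ N₀ : ℕ, ∀ b Y : ℕ, N₀ ≤ b + Y →
    ((b + Y : ℕ) : ℝ) ^ (1 - δ) ≤ Y →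
    (({n : ℕ | b < n ∧ n ≤ b + Y ∧ ∃ s t : ℕ, 0 < s ∧ 0 < t ∧ Nat.Coprime s t ∧
      n ∣ s * t * (s + t) ∧ (rad (s * t * (s + t)) : ℝ) ≤ (n : ℝ) ^ (1 + δ)}.ncard : ℕ) : ℝ) ≤
      ε * Y := by
  intro ε hε
  obtain ⟨η₀, hη₀, hfew⟩ := few_large_short (ε := ε / 5) (by positivity)
  obtain ⟨η, hη0, hη1, hηη⟩ : ∃ η : ℝ, 0 < η ∧ η < 1 ∧ η ≤ η₀ := by
    refine ⟨min (1 / 2) η₀, by positivity, ?_, min_le_right _ _⟩
    exact (min_le_left _ _).trans_lt (by norm_num)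
  obtain ⟨X₁, hfew⟩ := hfew η hη0 hηη
  obtain ⟨K, hK, X₅, hnum⟩ := RO5.ro_num hη0 hη1
  have hK0 : (0 : ℝ) < K := by exact_mod_cast hK
  obtain ⟨δ, hδ⟩ : ∃ δ : ℝ, δ = 1 / (10 * (K : ℝ)) := ⟨_, rfl⟩
  have hδ0 : 0 < δ := by rw [hδ]; positivity
  obtain ⟨X₄, hrs⟩ := rad_small_short hδ0 (show 0 < ε / 5 by positivity)
  obtain ⟨X₂, hom⟩ := RO2.omega_small K hK
  obtain ⟨X₃, hmany⟩ := many_primes_short (show 0 < ε / 5 by positivity) K hK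
  obtain ⟨δ', hδ'0, hδ'1, hδ'2, hδ'3⟩ : ∃ δ' : ℝ, 0 < δ' ∧ δ' ≤ δ ∧ δ' ≤ η / 8 ∧ δ' ≤ 1 / 4 := by
    refine ⟨min δ (min (η / 8) (1 / 4)), by positivity, min_le_left _ _, ?_, ?_⟩
    · exact (min_le_right _ _).trans (min_le_left _ _)
    · exact (min_le_right _ _).trans (min_le_right _ _)
  refine ⟨δ', hδ'0, ?_⟩
  have ev2 : ∀ᶠ X : ℕ in atTop, 5 / ε ≤ (X : ℝ) ^ (η / 8) :=
    ((tendsto_rpow_atTop (show 0 < η / 8 by positivity)).comp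
      tendsto_natCast_atTop_atTop).eventually_ge_atTop (5 / ε)
  obtain ⟨X₆, h6⟩ := eventually_atTop.1 ev2
  refine ⟨max (max (max X₁ X₃) (max X₂ X₄)) (max X₅ (max X₆ 2)), ?_⟩
  intro b Y hX hXY
  obtain ⟨X, hXdef⟩ : ∃ X : ℕ, X = b + Y := ⟨_, rfl⟩
  rw [← hXdef] at hX hXY
  simp only [max_le_iff] at hX
  obtain ⟨⟨⟨hX1', hX3'⟩, hX2, hX4⟩, hX5, hX6, hXge2⟩ := hX
  have hXη8 := h6 X hX6
  have hbX : b + Y ≤ X := hXdef.ge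
  -- basic facts
  obtain ⟨a, ha⟩ : ∃ a, a = Nat.log 2 X := ⟨_, rfl⟩
  obtain ⟨l, hl⟩ : ∃ l, l = Nat.log 2 a + 1 := ⟨_, rfl⟩
  obtain ⟨X', hX'⟩ : ∃ X' : ℕ, X' = ⌊(X : ℝ) ^ (1 + 1 / (10 * (K : ℝ)))⌋₊ := ⟨_, rfl⟩
  obtain ⟨y, hy⟩ : ∃ y : ℕ, y = ⌈(X : ℝ) ^ η⌉₊ := ⟨_, rfl⟩
  obtain ⟨W, hW⟩ : ∃ W : ℕ, W = a / (K * l) := ⟨_, rfl⟩
  obtain ⟨hW1, -, hbig⟩ := hnum X a l X' y W hX5 ha hl hX' hy hW
  have hX0 : (0 : ℝ) < X := by exact_mod_cast (by omega : 0 < X)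
  have hX1 : (1 : ℝ) ≤ X := by exact_mod_cast (by omega : 1 ≤ X)
  have hY0 : (0 : ℝ) ≤ Y := Nat.cast_nonneg Y
  have hX34 : (X : ℝ) ^ (3 / 4 : ℝ) ≤ Y := by
    refine le_trans ?_ hXY
    exact Real.rpow_le_rpow_of_exponent_le hX1 (by linarith)
  have hX3Y : (X : ℝ) ^ 3 ≤ (Y : ℝ) ^ 4 := by
    calc (X : ℝ) ^ (3 : ℕ) = ((X : ℝ) ^ (3 / 4 : ℝ)) ^ (4 : ℕ) := by
          rw [← Real.rpow_natCast, ← Real.rpow_natCast, ← Real.rpow_mul hX0.le]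
          norm_num
      _ ≤ (Y : ℝ) ^ (4 : ℕ) := pow_le_pow_left₀ (by positivity) hX34 4
  have hXY2 : (X : ℝ) ≤ (Y : ℝ) ^ 2 := by
    calc (X : ℝ) = (X : ℝ) ^ (1 : ℝ) := (Real.rpow_one _).symm
      _ ≤ (X : ℝ) ^ ((3 / 4 : ℝ) + 3 / 4) :=
          Real.rpow_le_rpow_of_exponent_le hX1 (by norm_num)
      _ = (X : ℝ) ^ (3 / 4 : ℝ) * (X : ℝ) ^ (3 / 4 : ℝ) := Real.rpow_add hX0 _ _
      _ ≤ Y * Y := by gcongr
      _ = (Y : ℝ) ^ 2 := by ring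
  have hYpos : (0 : ℝ) < Y := lt_of_lt_of_le (by positivity) hX34
  have hy1 : 1 ≤ y := by
    have h1 := Nat.le_ceil ((X : ℝ) ^ η)
    rw [← hy] at h1
    have h2 : (1 : ℝ) ≤ (X : ℝ) ^ η := Real.one_le_rpow hX1 hη0.le
    exact_mod_cast h2.trans h1
  -- the four sets
  obtain ⟨S1, hS1⟩ : ∃ S1 : Finset ℕ, S1 = (Ioc b (b + Y)).filter
    (fun n => (n.primeFactors.filter (fun p => y < p)).card ≤ 3) := ⟨_, rfl⟩
  obtain ⟨S2, hS2⟩ : ∃ S2 : Finset ℕ, S2 = (Ioc b (b + Y)).filter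
    (fun n => W / 2 < n.primeFactors.card) := ⟨_, rfl⟩
  obtain ⟨S3, hS3⟩ : ∃ S3 : Finset ℕ, S3 = (Ioc b (b + Y)).filter
    (fun n => (rad n : ℝ) * (X : ℝ) ^ δ < n) := ⟨_, rfl⟩
  have hX'2 : 2 ≤ X' := by
    have h1 : X ≤ X' := by
      rw [hX']
      apply Nat.le_floor
      calc (X : ℝ) = (X : ℝ) ^ (1 : ℝ) := (Real.rpow_one _).symm
        _ ≤ _ := Real.rpow_le_rpow_of_exponent_le hX1 (by rw [← hδ]; linarith)
    omega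
  obtain ⟨hMfin, hMcard⟩ := main_count (X := X') (W := W) (y := y) hX'2 hW1 hy1
  obtain ⟨M, hM⟩ : ∃ M : Finset ℕ, M = hMfin.toFinset := ⟨_, rfl⟩
  have hMc : M.card ≤ (X' / y) * (8 * W * (EE X' W + 2) ^ (2 * W + 1)) := by
    rw [hM, ← Set.ncard_eq_toFinset_card _ hMfin]
    exact hMcard
  obtain ⟨S4, hS4⟩ : ∃ S4 : Finset ℕ, S4 = M.biUnion
    (fun m => (Icc 1 X).filter (fun n => rad n ∣ m)) := ⟨_, rfl⟩
  have c1 : (S1.card : ℝ) ≤ ε / 5 * Y := by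
    rw [hS1]
    exact hfew X b Y y hX1' hbX hXY2 hy
  have c2 : (S2.card : ℝ) ≤ ε / 5 * Y := by
    rw [hS2]
    exact hmany X b Y a l W hX3' hbX hXY2 ha hl hW
  have c3 : (S3.card : ℝ) ≤ ε / 5 * Y := by
    rw [hS3]
    exact hrs X b Y hX4 hbX hX3Y
  have c4 : (S4.card : ℝ) ≤ ε / 5 * Y := by
    have h1 : S4.card ≤ M.card * (a + 1) ^ W := by
      rw [hS4]
      refine Finset.card_biUnion_le_card_mul _ _ _ ?_
      intro m hm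
      rw [hM, Set.Finite.mem_toFinset] at hm
      obtain ⟨⟨-, hmW, -⟩, ⟨u, v, -, -, -, hmr⟩⟩ := hm
      have hm0 : 0 < m := by rw [← hmr]; exact RF.rad_facts.1 _
      have h2 := RO3.card_rad_dvd (X := X) (m := m) (by omega) hm0
      rw [← ha] at h2
      exact h2.trans (Nat.pow_le_pow_right (by omega) hmW)
    have h2 : S4.card ≤ (X' / y) * (8 * W * (EE X' W + 2) ^ (2 * W + 1)) * (a + 1) ^ W :=
      h1.trans (Nat.mul_le_mul_right _ hMc)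
    have h3 : (S4.card : ℝ) ≤ (X : ℝ) ^ (1 - η / 4) := by
      refine le_trans ?_ hbig
      exact_mod_cast h2
    have h4 : 1 ≤ ε / 5 * (X : ℝ) ^ (η / 8) := by
      have h5 : 5 ≤ (X : ℝ) ^ (η / 8) * ε := (div_le_iff₀ hε).1 hXη8
      linarith
    calc (S4.card : ℝ) ≤ (X : ℝ) ^ (1 - η / 4) * 1 := by linarith
      _ ≤ (X : ℝ) ^ (1 - η / 4) * (ε / 5 * (X : ℝ) ^ (η / 8)) := by gcongr
      _ = ε / 5 * ((X : ℝ) ^ (1 - η / 4) * (X : ℝ) ^ (η / 8)) := by ring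
      _ = ε / 5 * (X : ℝ) ^ (1 - η / 4 + η / 8) := by rw [Real.rpow_add hX0]
      _ ≤ ε / 5 * (X : ℝ) ^ (1 - δ') := by
          have h7 : (X : ℝ) ^ (1 - η / 4 + η / 8) ≤ (X : ℝ) ^ (1 - δ') :=
            Real.rpow_le_rpow_of_exponent_le hX1 (by linarith)
          exact mul_le_mul_of_nonneg_left h7 (by positivity)
      _ ≤ ε / 5 * Y := by gcongr
  -- the covering
  have hcov : {n : ℕ | b < n ∧ n ≤ b + Y ∧ ∃ s t : ℕ, 0 < s ∧ 0 < t ∧ Nat.Coprime s t ∧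
      n ∣ s * t * (s + t) ∧ (rad (s * t * (s + t)) : ℝ) ≤ (n : ℝ) ^ (1 + δ')} ⊆
      ((S1 ∪ S2) ∪ (S3 ∪ S4) : Finset ℕ) := by
    rintro n ⟨hbn, hnX', A, B, hA, hB, hAB, hdvd, hr'⟩
    have hn : 0 < n := by omega
    have hnX : n ≤ X := by omega
    have hr : (rad (A * B * (A + B)) : ℝ) ≤ (n : ℝ) ^ (1 + δ) := by
      refine hr'.trans (Real.rpow_le_rpow_of_exponent_le ?_ (by linarith))
      exact_mod_cast hn
    have hnI : n ∈ Icc 1 X := Finset.mem_Icc.2 ⟨hn, hnX⟩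
    have hnJ : n ∈ Ioc b (b + Y) := Finset.mem_Ioc.2 ⟨hbn, hnX'⟩
    rw [Finset.mem_coe, Finset.mem_union, Finset.mem_union, Finset.mem_union]
    by_cases h1 : n ∈ S1
    · exact Or.inl (Or.inl h1)
    by_cases h2 : n ∈ S2
    · exact Or.inl (Or.inr h2)
    by_cases h3 : n ∈ S3
    · exact Or.inr (Or.inl h3)
    refine Or.inr (Or.inr ?_)
    rw [hS1, Finset.mem_filter, not_and, not_le] at h1
    rw [hS2, Finset.mem_filter, not_and, not_lt] at h2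
    rw [hS3, Finset.mem_filter, not_and, not_lt] at h3
    obtain ⟨k1, k2⟩ := ROB.key (y := y) (W := W) hK hδ
      (fun e he heX => by rw [hW]; exact hom X a l e hX2 ha hl he heX)
      hn hnX hA hB hAB hdvd hr (h1 hnJ) (h2 hnJ) (h3 hnJ)
    rw [hS4, Finset.mem_biUnion]
    refine ⟨rad (A * B * (A + B)), ?_, ?_⟩
    · rw [hM, Set.Finite.mem_toFinset, hX', ← hδ]
      exact k1
    · rw [Finset.mem_filter]
      exact ⟨hnI, k2⟩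
  have hcard : ({n : ℕ | b < n ∧ n ≤ b + Y ∧ ∃ s t : ℕ, 0 < s ∧ 0 < t ∧ Nat.Coprime s t ∧
      n ∣ s * t * (s + t) ∧ (rad (s * t * (s + t)) : ℝ) ≤ (n : ℝ) ^ (1 + δ')}.ncard : ℕ) ≤
      (S1.card + S2.card) + (S3.card + S4.card) := by
    refine (Set.ncard_le_ncard hcov (Finset.finite_toSet _)).trans ?_
    rw [Set.ncard_coe_finset]
    refine (Finset.card_union_le _ _).trans ?_
    exact Nat.add_le_add (Finset.card_union_le _ _) (Finset.card_union_le _ _)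
  have hcard' : (({n : ℕ | b < n ∧ n ≤ b + Y ∧ ∃ s t : ℕ, 0 < s ∧ 0 < t ∧ Nat.Coprime s t ∧
      n ∣ s * t * (s + t) ∧ (rad (s * t * (s + t)) : ℝ) ≤ (n : ℝ) ^ (1 + δ')}.ncard : ℕ) : ℝ) ≤
      (S1.card + S2.card) + (S3.card + S4.card) := by exact_mod_cast hcard
  have hεX : 0 < ε * Y := by positivity
  linarith

end Pool.Agent.H755R4
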