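import Mathlib
import Pool.Agent.H374R2.Z.Glue2
import Pool.Agent.H755R4.PB
import Pool.Agent.H755R4.Sm

/-!
`S`-unit multiples of powers of almost all integers of a short interval as terms of abc triples:
preliminaries.
-/

set_option autoImplicit false

namespace Pool.Agent.H755R4.SU

open Finset Filter Topology Pool.Agent.H374R2 Pool.Agent.H374R2.Z

/-- all prime divisors of the positive integer `β` belong to `S` -/
def SUnit (S : Finset ℕ) (β : ℕ) : Prop := 0 < β ∧ ∀ p : ℕ, p.Prime → p ∣ β → p ∈ S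

theorem coverG {ι α : Type*} {K : ℕ} (J : Finset ι) (S : ι → Set α)
    (hS : ∀ j ∈ J, (S j).Finite ∧ (S j).ncard ≤ K) (P : Set α) (hP : ∀ b ∈ P, ∃ j ∈ J, b ∈ S j) :
    P.Finite ∧ P.ncard ≤ J.card * K := by
  classical
  have hsub : P ⊆ ⋃ j ∈ J, S j := by
    intro b hb
    obtain ⟨j, hj, hbj⟩ := hP b hb
    exact Set.mem_iUnion₂.mpr ⟨j, hj, hbj⟩
  have hfin : (⋃ j ∈ J, S j).Finite :=
    Set.Finite.biUnion (Finset.finite_toSet J) (fun j hj => (hS j hj).1)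
  refine ⟨hfin.subset hsub, ?_⟩
  calc P.ncard ≤ (⋃ j ∈ J, S j).ncard := Set.ncard_le_ncard hsub hfin
    _ ≤ ∑ j ∈ J, (S j).ncard := Finset.set_ncard_biUnion_le _ _
    _ ≤ ∑ j ∈ J, K := Finset.sum_le_sum (fun j hj => (hS j hj).2)
    _ = J.card * K := by simp

/-- Pairs in triples of the `p`-adic kind. -/
def PP (κ : ℝ) (q p : ℕ) (σ : ℤ) (M : ℕ) : Set (ℕ × ℕ) :=
  {w | (∃ T, PairP κ q p σ w.1 w.2 T) ∧ rad (w.1 * w.2) ≤ M}

theorem pp_card {κ : ℝ} {q p M : ℕ} {σ : ℤ} (hκ0 : 0 < κ) (hκ1 : κ ≤ 1)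
    (hq : IsPrimePow q) (hqκ : 100 / κ ^ 2 ≤ q) (hp : p.Prime) (hpq : ¬ p ∣ q)
    (hσ : σ = 1 ∨ σ = -1) :
    (PP κ q p σ M).Finite ∧ (PP κ q p σ M).ncard ≤ (dataQ M (q - 1)).card * q := by
  refine coverG (dataQ M (q - 1)) (fun de => {w : ℕ × ℕ | (∃ T, PairP κ q p σ w.1 w.2 T) ∧
    lo q w.1 = de.1 ∧ lo q w.2 = de.2}) ?_ _ ?_
  · intro de _
    exact class_card hκ0 hκ1 hq hqκ hp hpq hσ
  · rintro ⟨s, t⟩ ⟨⟨T, h⟩, hr⟩
    exact ⟨(lo q s, lo q t), Q5.mem_dataQ hq.pos h.s0 h.t0 hr, ⟨T, h⟩, rfl, rfl⟩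

/-- Pairs in triples of the real kind. -/
def RR (κ : ℝ) (q M : ℕ) : Set (ℕ × ℕ) :=
  {w | (∃ T, PairR κ q w.1 w.2 T) ∧ rad (w.1 * w.2) ≤ M}

theorem rr_card {κ : ℝ} {q M : ℕ} (hκ0 : 0 < κ) (hκ1 : κ ≤ 1)
    (hq : IsPrimePow q) (hqκ : 100 / κ ^ 2 ≤ q) :
    (RR κ q M).Finite ∧ (RR κ q M).ncard ≤ (dataQ M (q - 1)).card * 1 := by
  refine coverG (dataQ M (q - 1)) (fun de => {w : ℕ × ℕ | (∃ T, PairR κ q w.1 w.2 T) ∧
    lo q w.1 = de.1 ∧ lo q w.2 = de.2}) ?_ _ ?_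
  · intro de _
    have hsub : {w : ℕ × ℕ | (∃ T, PairR κ q w.1 w.2 T) ∧
        lo q w.1 = de.1 ∧ lo q w.2 = de.2}.Subsingleton := by
      rintro ⟨s, t⟩ ⟨⟨T, h⟩, h1, h2⟩ ⟨s', t'⟩ ⟨⟨T', h'⟩, h1', h2'⟩
      obtain ⟨e1, e2⟩ := unique_rt hκ0 hκ1 hq hqκ h h' (h1.trans h1'.symm) (h2.trans h2'.symm)
      exact Prod.ext e1 e2
    exact ⟨hsub.finite, (Set.ncard_le_one hsub.finite).mpr fun a ha b hb => hsub ha hb⟩
  · rintro ⟨s, t⟩ ⟨⟨T, h⟩, hr⟩
    have ht : 0 < t := by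
      have h1 : s + T = t := h.eq
      have h2 : 0 < s := h.s0
      omega
    exact ⟨(lo q s, lo q t), Q5.mem_dataQ hq.pos h.s0 ht hr, ⟨T, h⟩, rfl, rfl⟩

/-- The bases `B ≤ N`, divisible exactly once by some prime `p ≤ P` not in `S`, of a given
`T = β * B ^ y`. -/
def Base (S : Finset ℕ) (N P T : ℕ) : Set ℕ :=
  {B | 0 < B ∧ B ≤ N ∧ (∃ p : ℕ, p.Prime ∧ p ≤ P ∧ p ∉ S ∧ p ∣ B ∧ ¬ p ^ 2 ∣ B) ∧
    ∃ y β : ℕ, 0 < y ∧ SUnit S β ∧ T = β * B ^ y}

theorem fact_eq {S : Finset ℕ} {β B y ℓ : ℕ} (hβ : SUnit S β) (hB : 0 < B) (hℓS : ℓ ∉ S)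
    (hℓ : ℓ.Prime) : (β * B ^ y).factorization ℓ = y * B.factorization ℓ := by
  rw [Nat.factorization_mul hβ.1.ne' (pow_pos hB y).ne', Nat.factorization_pow]
  simp only [Finsupp.coe_add, Finsupp.coe_smul, Pi.add_apply, Pi.smul_apply, smul_eq_mul]
  have : β.factorization ℓ = 0 := Nat.factorization_eq_zero_of_not_dvd
    (fun h => hℓS (hβ.2 ℓ hℓ h))
  omega

theorem base_card {S : Finset ℕ} (hS : ∀ p ∈ S, p.Prime) (N P T : ℕ) :
    (Base S N P T).Finite ∧ (Base S N P T).ncard ≤ P * (Nat.log 2 N + 1) ^ S.card := by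
  classical
  have h := coverG (K := (Nat.log 2 N + 1) ^ S.card) (Finset.Icc 1 P) (fun p => {B : ℕ | 0 < B ∧
    B ≤ N ∧ p.Prime ∧ p ∉ S ∧ p ∣ B ∧ ¬ p ^ 2 ∣ B ∧ ∃ y β : ℕ, 0 < y ∧ SUnit S β ∧
      T = β * B ^ y}) ?_ (Base S N P T) ?_
  · rwa [Nat.card_Icc, Nat.add_sub_cancel] at h
  · intro p _
    have hfin : {B : ℕ | 0 < B ∧
        B ≤ N ∧ p.Prime ∧ p ∉ S ∧ p ∣ B ∧ ¬ p ^ 2 ∣ B ∧ ∃ y β : ℕ, 0 < y ∧ SUnit S β ∧
        T = β * B ^ y}.Finite :=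
      (Set.finite_Icc 0 N).subset (fun B hB => ⟨Nat.zero_le _, hB.2.1⟩)
    refine ⟨hfin, ?_⟩
    have hcard : ((Fintype.piFinset (fun _ : S => Finset.range (Nat.log 2 N + 1)) :
        Finset (S → ℕ)) : Set (S → ℕ)).ncard = (Nat.log 2 N + 1) ^ S.card := by
      rw [Set.ncard_coe_finset, Fintype.card_piFinset]
      simp
    rw [← hcard]
    refine Set.ncard_le_ncard_of_injOn (fun B => fun ℓ : S => B.factorization ℓ) ?_ ?_
      (Finset.finite_toSet _)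
    · rintro B ⟨hB0, hBN, -⟩
      rw [Finset.mem_coe, Fintype.mem_piFinset]
      intro ℓ
      rw [Finset.mem_range]
      have h1 : (ℓ : ℕ) ^ B.factorization ℓ ≤ N :=
        (Nat.le_of_dvd hB0 (Nat.ordProj_dvd B ℓ)).trans hBN
      have h2 : 2 ^ B.factorization ℓ ≤ N :=
        (Nat.pow_le_pow_left (hS ℓ ℓ.2).two_le _).trans h1
      have h3 := Nat.le_log_of_pow_le (by norm_num) h2
      omega
    · rintro B ⟨hB0, hBN, hp, hpS, hpB, hpB2, y, β, hy, hβ, hT⟩ B'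
        ⟨hB0', hBN', -, -, hpB', hpB2', y', β', hy', hβ', hT'⟩ heq
      have hfac1 : ∀ B : ℕ, 0 < B → p ∣ B → ¬ p ^ 2 ∣ B → B.factorization p = 1 := by
        intro B hB0 h1 h2
        have h3 : 1 ≤ B.factorization p := (hp.dvd_iff_one_le_factorization hB0.ne').mp h1
        have h4 : ¬ 2 ≤ B.factorization p := fun h5 =>
          h2 ((hp.pow_dvd_iff_le_factorization hB0.ne').mpr h5)
        omega
      have e1 := fact_eq (y := y) hβ hB0 hpS hp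
      have e2 := fact_eq (y := y') hβ' hB0' hpS hp
      rw [← hT, hfac1 B hB0 hpB hpB2, mul_one] at e1
      rw [← hT', hfac1 B' hB0' hpB' hpB2', mul_one] at e2
      have hyy : y = y' := by omega
      subst hyy
      apply Nat.eq_of_factorization_eq hB0.ne' hB0'.ne'
      intro ℓ
      by_cases hℓ : ℓ.Prime
      · by_cases hℓS : ℓ ∈ S
        · exact congrFun heq ⟨ℓ, hℓS⟩
        · have e3 := fact_eq (y := y) hβ hB0 hℓS hℓ
          have e4 := fact_eq (y := y) hβ' hB0' hℓS hℓ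
          rw [← hT] at e3
          rw [← hT', e3] at e4
          exact Nat.eq_of_mul_eq_mul_left hy e4
      · rw [Nat.factorization_eq_zero_of_not_prime B hℓ,
          Nat.factorization_eq_zero_of_not_prime B' hℓ]
  · rintro B ⟨hB0, hBN, ⟨p, hp, hpP, hpS, hpB, hpB2⟩, hex⟩
    exact ⟨p, Finset.mem_Icc.mpr ⟨hp.one_lt.le, hpP⟩, hB0, hBN, hp, hpS, hpB, hpB2, hex⟩

/-- A large `S`-unit is highly divisible by some prime of `S`. -/
theorem exists_ell {S : Finset ℕ} {β : ℕ} (hβ : SUnit S β) (h1 : 1 < β) :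
    ∃ ℓ ∈ S, ℓ.Prime ∧ Real.log β ≤ (S.card + 1) * (β.factorization ℓ * Real.log ℓ) := by
  classical
  by_contra hcon
  push Not at hcon
  have hlog : 0 < Real.log β := Real.log_pos (by exact_mod_cast h1)
  have hsum : Real.log β = ∑ p ∈ β.primeFactors, (β.factorization p : ℝ) * Real.log p := by
    rw [Real.log_nat_eq_sum_factorization]
    rw [Finsupp.sum, Nat.support_factorization]
  have hsub : β.primeFactors ⊆ S := by
    intro p hp
    have := Nat.mem_primeFactors.mp hp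
    exact hβ.2 p this.1 this.2.1
  have hle : ∀ p ∈ β.primeFactors, (β.factorization p : ℝ) * Real.log p ≤
      Real.log β / (S.card + 1) := by
    intro p hp
    have h2 := hcon p (hsub hp) (Nat.prime_of_mem_primeFactors hp)
    rw [le_div_iff₀ (by positivity)]
    linarith
  have h3 := Finset.sum_le_sum hle
  rw [← hsum, Finset.sum_const, nsmul_eq_mul] at h3
  have h4 : (β.primeFactors.card : ℝ) ≤ S.card := by exact_mod_cast Finset.card_le_card hsub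
  have h5 : (β.primeFactors.card : ℝ) * (Real.log β / (S.card + 1)) ≤
      S.card * (Real.log β / (S.card + 1)) := by gcongr
  have h6 : (S.card : ℝ) * (Real.log β / (S.card + 1)) < Real.log β := by
    rw [mul_div_assoc', div_lt_iff₀ (by positivity)]
    nlinarith
  linarith

end Pool.Agent.H755R4.SU
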