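import Mathlib
import Pool.Agent.H755R4.SU1

/-!
`S`-unit multiples of powers: the kinds of solutions.
-/

set_option autoImplicit false

namespace Pool.Agent.H755R4.SU

open Finset Filter Topology Pool.Agent.H374R2 Pool.Agent.H374R2.Z

theorem kindsS (S : Finset ℕ) {κ₁ : ℝ} {q : ℕ} (hκ0 : 0 < κ₁) (hκ1 : κ₁ ≤ 1) (hq : 2 ≤ q) :
    ∃ N₀ : ℕ, ∀ N p B β y s t : ℕ, ∀ σ : ℤ, N₀ ≤ N → p.Prime → (N : ℝ) ^ κ₁ < p → p ∣ B → 0 < B →
    B ≤ N → 0 < y → SUnit S β → 0 < s → 0 < t → Nat.Coprime s t → σ = 1 ∨ σ = -1 →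
    (t : ℤ) - σ * s = ((β * B ^ y : ℕ) : ℤ) →
    rad (s * t) ≤ N → N ^ (q ^ 2) ≤ max s t →
    PairP (κ₁ / (8 * (S.card + 1))) q p σ s t (β * B ^ y) ∨
    (∃ ℓ ∈ S, ℓ.Prime ∧ PairP (κ₁ / (8 * (S.card + 1))) q ℓ σ s t (β * B ^ y)) ∨
      (σ = 1 ∧ PairR (κ₁ / (8 * (S.card + 1))) q s t (β * B ^ y)) := by
  obtain ⟨c, hc⟩ : ∃ c : ℝ, c = S.card + 1 := ⟨_, rfl⟩
  have hc1 : 1 ≤ c := by
    rw [hc]
    have : (0 : ℝ) ≤ S.card := Nat.cast_nonneg _
    linarith
  rw [← hc]
  obtain ⟨κ, hκ⟩ : ∃ κ : ℝ, κ = κ₁ / (8 * c) := ⟨_, rfl⟩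
  have hκpos : 0 < κ := by rw [hκ]; positivity
  have hκc : κ * c = κ₁ / 8 := by rw [hκ]; field_simp
  have hκ8 : κ ≤ κ₁ / 8 := by
    rw [← hκc]
    nlinarith
  rw [← hκ]
  set K : ℝ := 50 * (3 / κ + 1) * Real.log (10 ^ 8 * (q : ℝ) ^ 9) with hK
  obtain ⟨N₁, hN₁⟩ := exists_nat_ge (Real.exp K)
  refine ⟨max N₁ 2, ?_⟩
  intro N p B β y s t σ hN hp hNp hpB hB hBN hy hβ hs ht hco hσ heq hrad hH
  obtain ⟨rf0, rf1, rf2, rf3, rf4, rf5⟩ := RF.rad_facts
  have hN2 : 2 ≤ N := le_trans (le_max_right _ _) hN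
  have hN1 : 1 ≤ N := by omega
  have hNpos : (0:ℝ) < N := by exact_mod_cast hN1
  have hlogN0 : 0 ≤ Real.log N := Real.log_nonneg (by exact_mod_cast hN1)
  have hlogN0' : 0 < Real.log N := Real.log_pos (by exact_mod_cast (by omega : 1 < N))
  have hKN : K ≤ Real.log N := by
    have h1 : Real.exp K ≤ N := hN₁.trans (by exact_mod_cast le_trans (le_max_left _ _) hN)
    have := Real.log_le_log (Real.exp_pos K) h1
    rwa [Real.log_exp] at this
  set H := max s t with hHdef
  have hHpos : 0 < H := lt_of_lt_of_le hs (le_max_left _ _)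
  have hlogH : ((q:ℝ) ^ 2) * Real.log N ≤ Real.log H := by
    have h1 : ((N ^ (q ^ 2) : ℕ) : ℝ) ≤ (H : ℝ) := by exact_mod_cast hH
    have h2 := Real.log_le_log (by positivity) h1
    push_cast at h2
    rw [Real.log_pow] at h2
    push_cast at h2
    exact h2
  have hq1 : (1:ℝ) ≤ q := by exact_mod_cast (by omega : 1 ≤ q)
  have hNH : Real.log N ≤ Real.log H := by
    have h1 : Real.log N ≤ (q:ℝ) ^ 2 * Real.log N := by
      have : (1:ℝ) ≤ (q:ℝ) ^ 2 := one_le_pow₀ hq1
      nlinarith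
    linarith
  have hKH : K ≤ Real.log H := hKN.trans hNH
  have hlogHpos : 0 < Real.log H := by linarith
  -- lo
  obtain ⟨hl0, hh0, hl1, hl2⟩ := L.lo_hi (q := q) (s := t) (by omega) ht
  have hradt : rad t ≤ N := by
    have h1 := rf4 s t (by omega) (by omega) hco
    have h2 : 1 * rad t ≤ rad s * rad t := Nat.mul_le_mul_right _ (rf0 s)
    rw [one_mul, ← h1] at h2
    exact h2.trans hrad
  have hlo : lo q t ≤ N ^ (q - 1) :=
    (Nat.le_of_dvd (pow_pos (rf0 t) _) hl2).trans (Nat.pow_le_pow_left hradt _)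
  have hq1' : ((q - 1 : ℕ) : ℝ) = (q:ℝ) - 1 := by
    rw [Nat.cast_sub (by omega), Nat.cast_one]
  have hloglo : Real.log (lo q t) ≤ ((q:ℝ) - 1) * Real.log N := by
    have h1 : ((lo q t : ℕ) : ℝ) ≤ ((N ^ (q - 1) : ℕ) : ℝ) := by exact_mod_cast hlo
    have h2 := Real.log_le_log (by exact_mod_cast hl0) h1
    push_cast at h2
    rw [Real.log_pow, hq1'] at h2
    exact h2
  have hloglo0 : 0 ≤ Real.log (lo q t) := Real.log_nonneg (by exact_mod_cast hl0)
  have hL : ((q - 1 : ℕ) : ℝ) * Real.log (lo q t) ≤ Real.log H := by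
    rw [hq1']
    have h1 : ((q:ℝ) - 1) * Real.log (lo q t) ≤ ((q:ℝ) - 1) * (((q:ℝ) - 1) * Real.log N) :=
      mul_le_mul_of_nonneg_left hloglo (by linarith)
    have h2 : ((q:ℝ) - 1) * (((q:ℝ) - 1) * Real.log N) ≤ (q:ℝ) ^ 2 * Real.log N := by
      have : ((q:ℝ) - 1) * ((q:ℝ) - 1) ≤ (q:ℝ) ^ 2 := by nlinarith
      nlinarith
    linarith
  have hL0 : 0 ≤ ((q - 1 : ℕ) : ℝ) * Real.log (lo q t) := by positivity
  have hβ0 : 0 < β := hβ.1
  have hT0 : 0 < β * B ^ y := Nat.mul_pos hβ0 (pow_pos hB y)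
  have hβR : (0 : ℝ) < β := by exact_mod_cast hβ0
  have hBR : (0 : ℝ) < B := by exact_mod_cast hB
  have hlogT : Real.log ((β * B ^ y : ℕ) : ℝ) = Real.log β + y * Real.log B := by
    push_cast; rw [Real.log_mul hβR.ne' (by positivity), Real.log_pow]
  have hlogβ0 : 0 ≤ Real.log β := Real.log_natCast_nonneg β
  have hlogB0 : 0 ≤ Real.log B := Real.log_natCast_nonneg B
  by_cases hcase : (β * B ^ y) ^ 2 ≤ H
  · -- real case
    right; right
    have hTle : β * B ^ y ≤ H := (Nat.le_self_pow (by norm_num) _).trans hcase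
    have hσ1 : σ = 1 := by
      rcases hσ with h | h
      · exact h
      · exfalso
        subst h
        have h1 : (t : ℤ) + s = ((β * B ^ y : ℕ) : ℤ) := by linarith
        have h2 : t + s = β * B ^ y := by exact_mod_cast h1
        have h3 : H < t + s := by
          rw [hHdef]
          rcases le_total s t with h | h
          · rw [max_eq_right h]; omega
          · rw [max_eq_left h]; omega
        omega
    subst hσ1
    have hst : s + β * B ^ y = t := by
      have h1 : (s : ℤ) + ((β * B ^ y : ℕ) : ℤ) = (t : ℤ) := by linarith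
      exact_mod_cast h1
    have hHt : H = t := by
      rw [hHdef]; exact max_eq_right (by omega)
    refine ⟨rfl, ⟨hs, hT0, hst, hco, ?_, ?_⟩⟩
    · have h1 : Real.log ((β * B ^ y : ℕ) : ℝ) ≤ (1 / 2) * Real.log H := by
        have h2 : (((β * B ^ y) ^ 2 : ℕ) : ℝ) ≤ (H : ℝ) := by exact_mod_cast hcase
        have hT0R : (0 : ℝ) < ((β * B ^ y : ℕ) : ℝ) := by exact_mod_cast hT0
        have h3 := Real.log_le_log (by positivity) h2
        rw [Nat.cast_pow, Real.log_pow] at h3
        push_cast at h3 ⊢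
        linarith
      rw [hHt] at h1 hL hlogHpos
      have h4 : κ * (((q - 1 : ℕ) : ℝ) * Real.log (lo q t)) ≤ 1 / 4 * Real.log t := by
        have : κ ≤ 1 / 4 := by linarith
        calc κ * (((q - 1 : ℕ) : ℝ) * Real.log (lo q t)) ≤ 1 / 4 *
              (((q - 1 : ℕ) : ℝ) * Real.log (lo q t)) := mul_le_mul_of_nonneg_right this hL0
          _ ≤ _ := mul_le_mul_of_nonneg_left hL (by norm_num)
      have h5 : κ * Real.log t ≤ 1 / 4 * Real.log t :=
        mul_le_mul_of_nonneg_right (by linarith) hlogHpos.le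
      nlinarith
    · rw [← hHt]; exact hKH
  · push Not at hcase
    have h1 : Real.log H ≤ 2 * (Real.log β + y * Real.log B) := by
      have h2 : ((H : ℕ) : ℝ) ≤ (((β * B ^ y) ^ 2 : ℕ) : ℝ) := by exact_mod_cast hcase.le
      have h3 := Real.log_le_log (by exact_mod_cast hHpos) h2
      rw [Nat.cast_pow, Real.log_pow, hlogT] at h3
      push_cast at h3
      exact h3
    rcases le_or_gt (Real.log β) (y * Real.log B) with hc2 | hc2
    · left
      refine ⟨hs, ht, hT0, heq, hco, dvd_mul_of_dvd_right (dvd_pow hpB (by omega)) _, ⟨y,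
        dvd_mul_of_dvd_right (pow_dvd_pow_of_dvd hpB y) _, ?_⟩, hKH⟩
      have h4 : Real.log B ≤ Real.log N :=
        Real.log_le_log hBR (by exact_mod_cast hBN)
      have h5 : κ₁ * Real.log N ≤ Real.log p := by
        have h6 := Real.log_le_log (Real.rpow_pos_of_pos hNpos κ₁) hNp.le
        rwa [Real.log_rpow hNpos] at h6
      have hy0 : (0:ℝ) ≤ y := by positivity
      calc κ * (((q - 1 : ℕ) : ℝ) * Real.log (lo q t) + Real.log H)
          ≤ κ * (2 * Real.log H) := by
            refine mul_le_mul_of_nonneg_left ?_ hκpos.le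
            linarith
        _ ≤ κ₁ / 8 * (2 * Real.log H) := by
            refine mul_le_mul_of_nonneg_right hκ8 (by linarith)
        _ ≤ κ₁ / 8 * (2 * (4 * (y * Real.log B))) := by
            refine mul_le_mul_of_nonneg_left ?_ (by positivity)
            linarith
        _ = y * (κ₁ * Real.log B) := by ring
        _ ≤ y * (κ₁ * Real.log N) := by gcongr
        _ ≤ y * Real.log p := by gcongr
    · right; left
      have hβ1 : 1 < β := by
        by_contra hcon
        have : β = 1 := by omega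
        rw [this] at hc2 h1
        simp only [Nat.cast_one, Real.log_one] at hc2 h1
        have : 0 ≤ y * Real.log B := by positivity
        linarith
      obtain ⟨ℓ, hℓS, hℓ, hℓβ⟩ := exists_ell hβ hβ1
      rw [← hc] at hℓβ
      have hv1 : 1 ≤ β.factorization ℓ := by
        by_contra hcon
        have h0 : β.factorization ℓ = 0 := by omega
        rw [h0] at hℓβ
        simp only [Nat.cast_zero, zero_mul, mul_zero] at hℓβ
        have : 0 < Real.log β := Real.log_pos (by exact_mod_cast hβ1)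
        linarith
      have hdvd : ℓ ^ β.factorization ℓ ∣ β := Nat.ordProj_dvd β ℓ
      refine ⟨ℓ, hℓS, hℓ, hs, ht, hT0, heq, hco,
        dvd_mul_of_dvd_left ((dvd_pow_self ℓ (by omega)).trans hdvd) _,
        ⟨β.factorization ℓ, dvd_mul_of_dvd_left hdvd _, ?_⟩, hKH⟩
      have h6 : Real.log H ≤ 4 * Real.log β := by linarith
      have h7 : Real.log H ≤ 4 * (c * (β.factorization ℓ * Real.log ℓ)) := by linarith
      have hvl : 0 ≤ (β.factorization ℓ : ℝ) * Real.log ℓ := by
        have := Real.log_natCast_nonneg ℓ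
        positivity
      calc κ * (((q - 1 : ℕ) : ℝ) * Real.log (lo q t) + Real.log H)
          ≤ κ * (2 * Real.log H) := by
            refine mul_le_mul_of_nonneg_left ?_ hκpos.le
            linarith
        _ ≤ κ * (2 * (4 * (c * (β.factorization ℓ * Real.log ℓ)))) := by
            refine mul_le_mul_of_nonneg_left ?_ hκpos.le
            linarith
        _ = (κ * c) * 8 * (β.factorization ℓ * Real.log ℓ) := by ring
        _ = κ₁ * (β.factorization ℓ * Real.log ℓ) := by rw [hκc]; ring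
        _ ≤ 1 * (β.factorization ℓ * Real.log ℓ) := mul_le_mul_of_nonneg_right hκ1 hvl
        _ = _ := one_mul _

end Pool.Agent.H755R4.SU
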