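import Mathlib
import Pool.Agent.H755R4.SU2

/-!
`S`-unit multiples of powers of almost all integers of a short interval as terms of abc triples.
-/

set_option autoImplicit false

namespace Pool.Agent.H755R4.SU

open Finset Filter Topology Pool.Agent.H374R2 Pool.Agent.H374R2.Z

theorem sq_count (b Y a P : ℕ) (ha : 1 ≤ a) :
    (({B : ℕ | b < B ∧ B ≤ b + Y ∧ ∃ d : ℕ, a < d ∧ d ≤ P ∧ d ^ 2 ∣ B}.ncard : ℕ) : ℝ) ≤
      Y * (a : ℝ)⁻¹ + P := by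
  classical
  have hY0 : (0 : ℝ) ≤ Y := Nat.cast_nonneg Y
  have hsub : {B : ℕ | b < B ∧ B ≤ b + Y ∧ ∃ d : ℕ, a < d ∧ d ≤ P ∧ d ^ 2 ∣ B} ⊆
      (((Ioc a P).biUnion (fun d => (Ioc b (b + Y)).filter (fun n => d ^ 2 ∣ n)) : Finset ℕ) :
        Set ℕ) := by
    rintro B ⟨h1, h2, d, h3, h4, h5⟩
    rw [Finset.mem_coe, mem_biUnion]
    exact ⟨d, mem_Ioc.2 ⟨h3, h4⟩, mem_filter.2 ⟨mem_Ioc.2 ⟨h1, h2⟩, h5⟩⟩
  have h0 := Set.ncard_le_ncard hsub (Finset.finite_toSet _)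
  rw [Set.ncard_coe_finset] at h0
  have hc : (({B : ℕ | b < B ∧ B ≤ b + Y ∧ ∃ d : ℕ, a < d ∧ d ≤ P ∧ d ^ 2 ∣ B}.ncard : ℕ) : ℝ) ≤
      ∑ d ∈ Ioc a P, ((Y : ℝ) * ((d : ℝ) ^ 2)⁻¹ + 1) := by
    have e1 : (({B : ℕ | b < B ∧ B ≤ b + Y ∧ ∃ d : ℕ, a < d ∧ d ≤ P ∧ d ^ 2 ∣ B}.ncard : ℕ) : ℝ) ≤
        ((∑ d ∈ Ioc a P, ((Ioc b (b + Y)).filter (fun n => d ^ 2 ∣ n)).card : ℕ) : ℝ) := by
      exact_mod_cast h0.trans card_biUnion_le
    refine e1.trans ?_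
    push_cast
    refine sum_le_sum fun d hd => ?_
    have hd0 : 0 < d ^ 2 := by
      have h0 := (mem_Ioc.mp hd).1
      have h1 : 0 < d := by omega
      positivity
    have h2 := (cnt_dvd b Y (d ^ 2) hd0).1
    rw [Finset.sum_boole] at h2
    push_cast at h2
    rw [div_eq_mul_inv] at h2
    exact h2
  refine hc.trans ?_
  rw [sum_add_distrib, ← mul_sum]
  have h2 : (∑ d ∈ Ioc a P, (1 : ℝ)) ≤ P := by
    rw [Finset.sum_const, nsmul_eq_mul, mul_one, Nat.card_Ioc]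
    exact_mod_cast Nat.sub_le _ _
  have h3 : ∑ d ∈ Ioc a P, ((d : ℝ) ^ 2)⁻¹ ≤ (a : ℝ)⁻¹ := by
    rcases le_or_gt a P with h | h
    · have := sum_Ioc_inv_sq_le_sub (α := ℝ) (k := a) (n := P) (by omega) h
      have h2 : (0:ℝ) ≤ (P:ℝ)⁻¹ := by positivity
      linarith
    · rw [Ioc_eq_empty (by omega)]; simp
  have h4 := mul_le_mul_of_nonneg_left h3 hY0
  linarith

/-- the set in question -/
def PSS (S : Finset ℕ) (b Y : ℕ) (ε : ℝ) : Set ℕ :=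
  {B : ℕ | b < B ∧ B ≤ b + Y ∧ ∃ y β s t : ℕ, 0 < y ∧ SUnit S β ∧ 0 < s ∧ 0 < t ∧
    Nat.Coprime s t ∧ (s + t = β * B ^ y ∨ s + β * B ^ y = t) ∧
    (rad (s * t) : ℝ) ≤ (Y : ℝ) ^ (1 - ε)}

theorem powersS (S : Finset ℕ) (hSp : ∀ p ∈ S, p.Prime) (K : ℕ) (hK : 1 ≤ K) {ε : ℝ}
    (hε : 0 < ε) (hε1 : ε < 1) : ∃ L : ℕ,
    ∀ Y b : ℕ, L ≤ Y → b + Y ≤ Y ^ K → ((PSS S b Y ε).ncard : ℝ) ≤ ε * Y := by
  classical
  obtain ⟨c, hc⟩ : ∃ c : ℕ, c = S.card := ⟨_, rfl⟩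
  have hKR : (1 : ℝ) ≤ K := by exact_mod_cast hK
  have hK0 : (0 : ℝ) < K := by linarith
  set θ : ℝ := ε / (8 * K) with hθ
  have hθ0 : 0 < θ := by positivity
  have hθK : θ * K = ε / 8 := by rw [hθ]; field_simp
  have hθ1 : θ ≤ 1 := by
    rw [hθ, div_le_one (by positivity)]
    linarith
  obtain ⟨κ₁, hκ0, hκθ, N₁, hN₁⟩ := prime_between (ε := ε / 8) (θ := θ) (by positivity)
    (by positivity) hθ1 K (by linarith)
  have hκ1 : κ₁ ≤ 1 := by linarith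
  obtain ⟨κ, hκ⟩ : ∃ κ : ℝ, κ = κ₁ / (8 * (S.card + 1)) := ⟨_, rfl⟩
  have hκ4 : 0 < κ := by rw [hκ]; positivity
  have hκ4' : κ ≤ 1 := by
    rw [hκ, div_le_one (by positivity)]
    have : (0 : ℝ) ≤ S.card := Nat.cast_nonneg _
    linarith
  -- the modulus
  obtain ⟨ϖ, hϖS, hϖp⟩ := Nat.exists_infinite_primes (S.sup id + 1)
  have hϖ : ∀ ℓ ∈ S, ℓ < ϖ := by
    intro ℓ hℓ
    have : ℓ ≤ S.sup id := Finset.le_sup (f := id) hℓ
    omega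
  obtain ⟨k, hk⟩ := pow_unbounded_of_one_lt (100 / κ ^ 2) (by norm_num : (1 : ℝ) < 2)
  set q : ℕ := ϖ ^ (k + 1) with hq
  have hqR : 100 / κ ^ 2 ≤ (q : ℝ) := by
    rw [hq]
    push_cast
    have h1 : (2 : ℝ) ^ k ≤ 2 ^ (k + 1) := pow_le_pow_right₀ (by norm_num) (by omega)
    have h2 : (2 : ℝ) ≤ ϖ := by exact_mod_cast hϖp.two_le
    have h3 : (2 : ℝ) ^ (k + 1) ≤ (ϖ : ℝ) ^ (k + 1) := pow_le_pow_left₀ (by norm_num) h2 _
    linarith
  have hqp : IsPrimePow q := ⟨ϖ, k + 1, hϖp.prime, by omega, rfl⟩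
  have hq2 : 2 ≤ q := by
    calc 2 ≤ ϖ := hϖp.two_le
      _ ≤ ϖ ^ (k + 1) := Nat.le_self_pow (by omega) ϖ
  obtain ⟨C3, hC3, h3⟩ := Q3.dataQ_card (q - 1) (show 0 < ε / 8 by positivity)
  obtain ⟨C4, hC4, h4⟩ := Q4.small_pairs (fun h1 => Q1.rankin h1) (fun h1 h2 => Q2.pow_omega h1 h2)
    (q ^ 2) hθ0
  obtain ⟨N₇, h7⟩ := kindsS S hκ0 hκ1 hq2
  rw [← hκ] at h7
  have ht1 : Tendsto (fun N : ℕ => (N : ℝ) ^ κ₁) atTop atTop :=
    (tendsto_rpow_atTop hκ0).comp tendsto_natCast_atTop_atTop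
  have ht2 : Tendsto (fun N : ℕ => (N : ℝ) ^ (ε / 2)) atTop atTop :=
    (tendsto_rpow_atTop (by positivity)).comp tendsto_natCast_atTop_atTop
  have ht3 := Gc.log_pow_le (k := c) (show (0 : ℝ) < ε / 8 by positivity)
    (show (0 : ℝ) < (3 * K) ^ c by positivity)
  have ht4 := Gc.log_pow_le (k := 0) (show (0 : ℝ) < 1 / 2 by norm_num)
    (show (0 : ℝ) < 16 / ε by positivity)
  set CC : ℝ := 2 * ((1 + c) * q * C3 + C3 + C4) with hCC
  obtain ⟨N₆, hN₆⟩ := eventually_atTop.mp ((ht1.eventually_ge_atTop (max ϖ (16 / ε + 1))).and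
    (((ht2.eventually_ge_atTop (CC / (ε / 4))).and (ht3.and ht4)).and
      (eventually_ge_atTop 3)))
  refine ⟨max N₁ (max N₇ N₆), fun Y b hY hbK => ?_⟩
  simp only [max_le_iff] at hY
  obtain ⟨g1, g7, g6⟩ := hY
  obtain ⟨_, ⟨b2, b4, b5⟩, b3⟩ := hN₆ Y g6
  rw [pow_zero, mul_one] at b5
  set N : ℕ := b + Y with hN
  have hYN : Y ≤ N := by omega
  obtain ⟨b1, _, _⟩ := hN₆ N (g6.trans hYN)
  have hb1ϖ : (ϖ : ℝ) ≤ (N : ℝ) ^ κ₁ := (le_max_left _ _).trans b1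
  have hb1ε : 16 / ε + 1 ≤ (N : ℝ) ^ κ₁ := (le_max_right _ _).trans b1
  have hNpos : 0 < N := by omega
  have hNR : (0 : ℝ) < N := by exact_mod_cast hNpos
  have hN1 : (1 : ℝ) ≤ N := by exact_mod_cast hNpos
  have hYpos : 0 < Y := by omega
  have hYR : (0 : ℝ) < Y := by exact_mod_cast hYpos
  have hY1 : (1 : ℝ) ≤ Y := by exact_mod_cast hYpos
  have hNYR : (N : ℝ) ≤ (Y : ℝ) ^ (K : ℝ) := by
    rw [Real.rpow_natCast]
    exact_mod_cast hbK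
  have hNθ : (N : ℝ) ^ θ ≤ (Y : ℝ) ^ (ε / 8) := by
    calc (N : ℝ) ^ θ ≤ ((Y : ℝ) ^ (K : ℝ)) ^ θ := by gcongr
      _ = (Y : ℝ) ^ (ε / 8) := by
          rw [← Real.rpow_mul hYR.le]; congr 1; rw [← hθK]; ring
  set M : ℕ := ⌊(Y : ℝ) ^ (1 - ε)⌋₊ with hM
  have hMle : (M : ℝ) ≤ (Y : ℝ) ^ (1 - ε) := Nat.floor_le (Real.rpow_nonneg hYR.le _)
  have hM1 : 1 ≤ M := by
    apply Nat.le_floor
    push_cast
    exact Real.one_le_rpow hY1 (by linarith)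
  have hMN : M ≤ N := by
    have : (M : ℝ) ≤ Y := by
      calc (M : ℝ) ≤ (Y : ℝ) ^ (1 - ε) := hMle
        _ ≤ (Y : ℝ) ^ (1 : ℝ) := Real.rpow_le_rpow_of_exponent_le hY1 (by linarith)
        _ = Y := Real.rpow_one _
    exact (by exact_mod_cast this : M ≤ Y).trans hYN
  set P : ℕ := ⌊(N : ℝ) ^ θ⌋₊ with hP
  have hPle : (P : ℝ) ≤ (Y : ℝ) ^ (ε / 8) :=
    (Nat.floor_le (Real.rpow_nonneg hNR.le _)).trans hNθ
  set a : ℕ := ⌊(N : ℝ) ^ κ₁⌋₊ with ha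
  have haR : 16 / ε ≤ (a : ℝ) := by
    have := Nat.lt_floor_add_one ((N : ℝ) ^ κ₁)
    rw [← ha] at this
    linarith
  have ha1 : 1 ≤ a := by
    have h1 : (0 : ℝ) < a := lt_of_lt_of_le (by positivity) haR
    exact_mod_cast h1
  set D : ℕ := (dataQ M (q - 1)).card with hD
  have hDle : (D : ℝ) ≤ C3 * (Y : ℝ) ^ (1 - 7 * ε / 8) := by
    refine (h3 M hM1).trans ?_
    apply mul_le_mul_of_nonneg_left _ (by linarith)
    calc (M : ℝ) ^ (1 + ε / 8) ≤ ((Y : ℝ) ^ (1 - ε)) ^ (1 + ε / 8) :=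
          Real.rpow_le_rpow (by positivity) hMle (by positivity)
      _ = (Y : ℝ) ^ ((1 - ε) * (1 + ε / 8)) := by rw [← Real.rpow_mul hYR.le]
      _ ≤ (Y : ℝ) ^ (1 - 7 * ε / 8) := by
          apply Real.rpow_le_rpow_of_exponent_le hY1
          nlinarith
  set E : ℕ := Nat.log 2 N + 1 with hE
  have hElog : (E : ℝ) ≤ 3 * K * Real.log Y := by
    have hN3 : 3 ≤ N := by omega
    have e1 : (2 : ℝ) ^ (Nat.log 2 N) ≤ N := by exact_mod_cast Nat.pow_log_le_self 2 (by omega)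
    have e2 := Real.log_le_log (by positivity) e1
    rw [Real.log_pow] at e2
    have e3 := Real.log_two_gt_d9
    have e4 : (Nat.log 2 N : ℝ) * (1 / 2) ≤ Nat.log 2 N * Real.log 2 := by
      apply mul_le_mul_of_nonneg_left _ (by positivity)
      linarith
    have e5 : 1 ≤ Real.log N := by
      rw [Real.le_log_iff_exp_le hNR]
      have h1 := Real.exp_one_lt_d9
      have h2 : (3 : ℝ) ≤ N := by exact_mod_cast hN3
      linarith
    have e6 : Real.log N ≤ K * Real.log Y := by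
      rw [← Real.log_rpow hYR]
      exact Real.log_le_log hNR hNYR
    rw [hE]
    push_cast
    linarith
  have hEc : (E : ℝ) ^ c ≤ (Y : ℝ) ^ (ε / 8) := by
    calc (E : ℝ) ^ c ≤ (3 * K * Real.log Y) ^ c := pow_le_pow_left₀ (Nat.cast_nonneg _) hElog c
      _ = (3 * K) ^ c * Real.log Y ^ c := mul_pow _ _ _
      _ ≤ _ := b4
  -- the pieces
  set T1 : Set ℕ := {B : ℕ | b < B ∧ B ≤ b + Y ∧ ∀ p : ℕ, p.Prime → (N : ℝ) ^ κ₁ < p →
    (p : ℝ) ≤ (N : ℝ) ^ θ → ¬ p ∣ B} with hT1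
  set T2 : Set ℕ := {B : ℕ | b < B ∧ B ≤ b + Y ∧ ∃ d : ℕ, a < d ∧ d ≤ P ∧ d ^ 2 ∣ B} with hT2
  have k1 : (T1.ncard : ℝ) ≤ ε / 8 * Y := hN₁ N b Y (g1.trans hYN) hbK
  have k2 : (T2.ncard : ℝ) ≤ ε / 8 * Y := by
    refine (sq_count b Y a P ha1).trans ?_
    have h1 : (Y : ℝ) * (a : ℝ)⁻¹ ≤ ε / 16 * Y := by
      have h2 : (a : ℝ)⁻¹ ≤ ε / 16 := by
        rw [inv_le_comm₀ (lt_of_lt_of_le (by positivity) haR) (by positivity), inv_div]
        exact haR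
      calc (Y : ℝ) * (a : ℝ)⁻¹ ≤ Y * (ε / 16) := by gcongr
        _ = _ := by ring
    have h2 : (P : ℝ) ≤ ε / 16 * Y := by
      calc (P : ℝ) ≤ (Y : ℝ) ^ (ε / 8) := hPle
        _ ≤ (Y : ℝ) ^ (1 / 2 : ℝ) := Real.rpow_le_rpow_of_exponent_le hY1 (by linarith)
        _ = ε / 16 * (16 / ε) * (Y : ℝ) ^ (1 / 2 : ℝ) := by field_simp
        _ ≤ ε / 16 * (Y : ℝ) ^ (1 / 2 : ℝ) * (Y : ℝ) ^ (1 / 2 : ℝ) := by gcongr
        _ = ε / 16 * ((Y : ℝ) ^ (1 / 2 : ℝ) * (Y : ℝ) ^ (1 / 2 : ℝ)) := by ring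
        _ = ε / 16 * Y := by
            rw [← Real.rpow_add hYR]
            norm_num
    linarith
  have hT1f : T1.Finite := (Set.finite_Ioc b (b + Y)).subset fun B hB => ⟨hB.1, hB.2.1⟩
  have hT2f : T2.Finite := (Set.finite_Ioc b (b + Y)).subset fun B hB => ⟨hB.1, hB.2.1⟩
  set Sg : Finset ℤ := {1, -1} with hSg
  have hSgc : Sg.card = 2 := by rw [hSg]; rfl
  -- the pairs
  set J3 : Finset ℕ := ((Finset.Icc 1 P) ∪ S).filter (fun p => p.Prime ∧ ¬ p ∣ q) with hJ3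
  have hJ3c : J3.card ≤ P + c := by
    rw [hJ3]
    refine (Finset.card_filter_le _ _).trans ((Finset.card_union_le _ _).trans ?_)
    rw [Nat.card_Icc, hc]; omega
  set W5 : Finset (ℕ × ℕ) := (Icc 1 (N ^ (q ^ 2)) ×ˢ Icc 1 (N ^ (q ^ 2))).filter
    (fun w : ℕ × ℕ => w.1.Coprime w.2 ∧ rad (w.1 * w.2) ≤ M) with hW5
  have hW5c : (W5.card : ℝ) ≤ C4 * M * (N : ℝ) ^ θ := h4 N M hNpos hM1 hMN
  have hV : ∀ σ ∈ Sg, ∃ F : Finset (ℕ × ℕ), F.card ≤ (P + c) * (D * q) + D * 1 + W5.card ∧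
      (∀ p ∈ J3, ∀ w ∈ PP κ q p σ M, w ∈ F) ∧ (∀ w ∈ RR κ q M, w ∈ F) ∧ W5 ⊆ F := by
    intro σ hσ
    have hσ' : σ = 1 ∨ σ = -1 := by simpa [hSg] using hσ
    have h1 := coverG J3 (fun p => PP κ q p σ M) (by
      intro p hp
      rw [hJ3, Finset.mem_filter] at hp
      exact pp_card hκ4 hκ4' hqp hqR hp.2.1 hp.2.2 hσ') {w | ∃ p ∈ J3, w ∈ PP κ q p σ M}
      (fun w hw => hw)
    have h2 := rr_card (M := M) hκ4 hκ4' hqp hqR
    refine ⟨h1.1.toFinset ∪ h2.1.toFinset ∪ W5, ?_, ?_, ?_, ?_⟩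
    · have e1 := Finset.card_union_le (h1.1.toFinset ∪ h2.1.toFinset) W5
      have e2 := Finset.card_union_le h1.1.toFinset h2.1.toFinset
      have e3 : h1.1.toFinset.card ≤ J3.card * (D * q) := by
        rw [← Set.ncard_eq_toFinset_card _ h1.1]
        exact h1.2
      have e4 : h2.1.toFinset.card ≤ D * 1 := by
        rw [← Set.ncard_eq_toFinset_card _ h2.1]
        exact h2.2
      have e5 : J3.card * (D * q) ≤ (P + c) * (D * q) := Nat.mul_le_mul_right _ hJ3c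
      omega
    · intro p hp w hw
      apply Finset.mem_union_left
      apply Finset.mem_union_left
      rw [Set.Finite.mem_toFinset]
      exact ⟨p, hp, hw⟩
    · intro w hw
      apply Finset.mem_union_left
      apply Finset.mem_union_right
      rw [Set.Finite.mem_toFinset]
      exact hw
    · exact Finset.subset_union_right
  choose! F hF1 hF2 hF3 hF4 using hV
  set J : Finset ℕ := Sg.biUnion (fun σ => (F σ).image (fun w => ((w.2 : ℤ) - σ * w.1).natAbs))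
    with hJ
  have hJc : J.card ≤ 2 * ((P + c) * (D * q) + D * 1 + W5.card) := by
    rw [hJ]
    refine Finset.card_biUnion_le.trans ?_
    rw [← hSgc, ← smul_eq_mul]
    apply Finset.sum_le_card_nsmul
    intro σ hσ
    exact Finset.card_image_le.trans (hF1 σ hσ)
  set U : Set ℕ := {B | ∃ T ∈ J, B ∈ Base S N P T} with hU
  have k3 := coverG J (fun T => Base S N P T) (fun T _ => base_card hSp N P T) U
    (fun B hB => hB)
  -- the covering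
  have hsub : PSS S b Y ε ⊆ T1 ∪ (T2 ∪ U) := by
    rintro B ⟨hB0', hBN, y, β, s, t, hy, hβ, hs, ht, hco, heq, hrad⟩
    have hB0 : 0 < B := by omega
    by_cases hB1 : B ∈ T1
    · exact Or.inl hB1
    by_cases hB2 : B ∈ T2
    · exact Or.inr (Or.inl hB2)
    right; right
    obtain ⟨p, hp, hpl, hpu, hpB⟩ : ∃ p : ℕ, p.Prime ∧ (N : ℝ) ^ κ₁ < p ∧
        (p : ℝ) ≤ (N : ℝ) ^ θ ∧ p ∣ B := by
      by_contra hn
      apply hB1
      exact ⟨hB0', hBN, fun p hp hpl hpu hpB => hn ⟨p, hp, hpl, hpu, hpB⟩⟩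
    have hpP : p ≤ P := Nat.le_floor hpu
    have hap : a < p := (Nat.floor_lt (by positivity)).mpr hpl
    have hpϖ : ϖ < p := by
      have : (ϖ : ℝ) < p := lt_of_le_of_lt hb1ϖ hpl
      exact_mod_cast this
    have hpS : p ∉ S := fun h => by
      have := hϖ p h
      omega
    have hp2 : ¬ p ^ 2 ∣ B := fun h => hB2 ⟨hB0', hBN, p, hap, hpP, h⟩
    have hpq : ¬ p ∣ q := by
      intro h
      have h2 : p ∣ ϖ := hp.dvd_of_dvd_pow h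
      have h3 := Nat.le_of_dvd hϖp.pos h2
      omega
    have hradM : rad (s * t) ≤ M := Nat.le_floor hrad
    obtain ⟨σ, hσ, heq'⟩ : ∃ σ : ℤ, (σ = 1 ∨ σ = -1) ∧
        (t : ℤ) - σ * s = ((β * B ^ y : ℕ) : ℤ) := by
      rcases heq with h | h
      · refine ⟨-1, Or.inr rfl, ?_⟩
        have h' : (s : ℤ) + t = ((β * B ^ y : ℕ) : ℤ) := by exact_mod_cast h
        linarith
      · refine ⟨1, Or.inl rfl, ?_⟩
        have h' : (s : ℤ) + ((β * B ^ y : ℕ) : ℤ) = t := by exact_mod_cast h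
        linarith
    have hσS : σ ∈ Sg := by rw [hSg]; simpa using hσ
    have hwF : (s, t) ∈ F σ := by
      by_cases hbig : N ^ (q ^ 2) ≤ max s t
      · rcases h7 N p B β y s t σ (g7.trans hYN) hp hpl hpB hB0 hBN hy hβ hs ht hco hσ heq'
          (hradM.trans hMN) hbig with h | ⟨ℓ, hℓS, hℓ, h⟩ | ⟨_, h⟩
        · refine hF2 σ hσS p ?_ (s, t) ⟨⟨_, h⟩, hradM⟩
          rw [hJ3, Finset.mem_filter, Finset.mem_union, Finset.mem_Icc]
          exact ⟨Or.inl ⟨hp.one_lt.le, hpP⟩, hp, hpq⟩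
        · refine hF2 σ hσS ℓ ?_ (s, t) ⟨⟨_, h⟩, hradM⟩
          rw [hJ3, Finset.mem_filter, Finset.mem_union]
          refine ⟨Or.inr hℓS, hℓ, fun hd => ?_⟩
          have h2 : ℓ ∣ ϖ := hℓ.dvd_of_dvd_pow hd
          have h3 := (Nat.prime_dvd_prime_iff_eq hℓ hϖp).mp h2
          have h4 := hϖ ℓ hℓS
          omega
        · exact hF3 σ hσS (s, t) ⟨⟨_, h⟩, hradM⟩
      · apply hF4 σ hσS
        rw [not_le, max_lt_iff] at hbig
        rw [hW5, Finset.mem_filter, Finset.mem_product, Finset.mem_Icc, Finset.mem_Icc]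
        exact ⟨⟨⟨hs, hbig.1.le⟩, ⟨ht, hbig.2.le⟩⟩, hco, hradM⟩
    refine ⟨β * B ^ y, ?_, hB0, hBN, ⟨p, hp, hpP, hpS, hpB, hp2⟩, y, β, hy, hβ, rfl⟩
    rw [hJ, Finset.mem_biUnion]
    refine ⟨σ, hσS, ?_⟩
    rw [Finset.mem_image]
    refine ⟨(s, t), hwF, ?_⟩
    show ((t : ℤ) - σ * s).natAbs = β * B ^ y
    rw [heq', Int.natAbs_natCast]
  have hfin : (T1 ∪ (T2 ∪ U)).Finite := hT1f.union (hT2f.union k3.1)
  have c1 := Set.ncard_le_ncard hsub hfin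
  have c2 := Set.ncard_union_le T1 (T2 ∪ U)
  have c3 := Set.ncard_union_le T2 U
  have c6 : (PSS S b Y ε).ncard ≤ T1.ncard + T2.ncard +
      (2 * ((P + c) * (D * q) + D * 1 + W5.card)) * (P * E ^ c) := by
    have e1 : J.card * (P * E ^ c) ≤ (2 * ((P + c) * (D * q) + D * 1 + W5.card)) * (P * E ^ c) :=
      Nat.mul_le_mul_right _ hJc
    have e2 := k3.2
    rw [← hE, ← hc] at e2
    omega
  have c7 : ((PSS S b Y ε).ncard : ℝ) ≤ T1.ncard + T2.ncard +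
      (2 * ((P + c) * (D * q) + D * 1 + W5.card)) * (P * (E : ℝ) ^ c) := by exact_mod_cast c6
  set X : ℝ := (Y : ℝ) ^ (1 - 3 * ε / 4) with hX
  have hXpos : 0 < X := Real.rpow_pos_of_pos hYR _
  have hle1 : (Y : ℝ) ^ (1 - 7 * ε / 8) ≤ X :=
    Real.rpow_le_rpow_of_exponent_le hY1 (by linarith)
  have hYe1 : (1 : ℝ) ≤ (Y : ℝ) ^ (ε / 8) := Real.one_le_rpow hY1 (by positivity)
  have hYe0 : (0 : ℝ) < (Y : ℝ) ^ (ε / 8) := by positivity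
  have hc0 : (0 : ℝ) ≤ c := Nat.cast_nonneg c
  have hq0 : (0 : ℝ) ≤ q := Nat.cast_nonneg q
  have d1 : ((P : ℝ) + c) * (D * q) ≤ (1 + c) * q * C3 * X := by
    have e0 : (P : ℝ) + c ≤ (1 + c) * (Y : ℝ) ^ (ε / 8) := by nlinarith
    have e2 : (Y : ℝ) ^ (ε / 8) * (Y : ℝ) ^ (1 - 7 * ε / 8) = X := by
      rw [hX, ← Real.rpow_add hYR]
      congr 1
      ring
    calc ((P : ℝ) + c) * (D * q) ≤
          ((1 + c) * (Y : ℝ) ^ (ε / 8)) * ((C3 * (Y : ℝ) ^ (1 - 7 * ε / 8)) * q) := by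
          apply mul_le_mul e0 _ (by positivity) (by positivity)
          exact mul_le_mul_of_nonneg_right hDle hq0
      _ = (1 + c) * q * C3 * ((Y : ℝ) ^ (ε / 8) * (Y : ℝ) ^ (1 - 7 * ε / 8)) := by ring
      _ = _ := by rw [e2]
  have d2 : (D : ℝ) * 1 ≤ C3 * X := by
    rw [mul_one]
    exact hDle.trans (mul_le_mul_of_nonneg_left hle1 (by linarith))
  have d3 : (W5.card : ℝ) ≤ C4 * X := by
    have e1 : (M : ℝ) * (N : ℝ) ^ θ ≤ X := by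
      calc (M : ℝ) * (N : ℝ) ^ θ ≤ (Y : ℝ) ^ (1 - ε) * (Y : ℝ) ^ (ε / 8) :=
            mul_le_mul hMle hNθ (by positivity) (by positivity)
        _ = (Y : ℝ) ^ (1 - 7 * ε / 8) := by
            rw [← Real.rpow_add hYR]; congr 1; ring
        _ ≤ X := hle1
    calc (W5.card : ℝ) ≤ C4 * M * (N : ℝ) ^ θ := hW5c
      _ = C4 * (M * (N : ℝ) ^ θ) := by ring
      _ ≤ C4 * X := mul_le_mul_of_nonneg_left e1 (by linarith)
  have d4 : (2 * (((P : ℝ) + c) * (D * q) + D * 1 + W5.card)) ≤ CC * X := by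
    rw [hCC]
    calc (2 * (((P : ℝ) + c) * (D * q) + D * 1 + W5.card)) ≤
        2 * ((1 + c) * q * C3 * X + C3 * X + C4 * X) := by linarith
      _ = _ := by ring
  have d5 : (P : ℝ) * (E : ℝ) ^ c ≤ (Y : ℝ) ^ (ε / 8) * (Y : ℝ) ^ (ε / 8) :=
    mul_le_mul hPle hEc (by positivity) (by positivity)
  have hCC0 : 0 ≤ CC := by
    rw [hCC]
    have h1 : 0 ≤ (1 + c) * q * C3 := by
      have : 0 ≤ C3 := by linarith
      positivity
    linarith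
  have d6 : (2 * (((P : ℝ) + c) * (D * q) + D * 1 + W5.card)) * (P * (E : ℝ) ^ c) ≤
      ε / 4 * Y := by
    rw [div_le_iff₀ (by positivity)] at b2
    have e1 : (Y : ℝ) ^ (ε / 2) * (X * ((Y : ℝ) ^ (ε / 8) * (Y : ℝ) ^ (ε / 8))) = Y := by
      rw [hX, ← Real.rpow_add hYR, ← Real.rpow_add hYR, ← Real.rpow_add hYR]
      have : ε / 2 + (1 - 3 * ε / 4 + (ε / 8 + ε / 8)) = 1 := by ring
      rw [this, Real.rpow_one]
    calc (2 * (((P : ℝ) + c) * (D * q) + D * 1 + W5.card)) * (P * (E : ℝ) ^ c) ≤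
        (CC * X) * ((Y : ℝ) ^ (ε / 8) * (Y : ℝ) ^ (ε / 8)) :=
          mul_le_mul d4 d5 (by positivity) (by positivity)
      _ = CC * (X * ((Y : ℝ) ^ (ε / 8) * (Y : ℝ) ^ (ε / 8))) := by ring
      _ ≤ ((Y : ℝ) ^ (ε / 2) * (ε / 4)) * (X * ((Y : ℝ) ^ (ε / 8) * (Y : ℝ) ^ (ε / 8))) :=
          mul_le_mul_of_nonneg_right b2 (by positivity)
      _ = ε / 4 * ((Y : ℝ) ^ (ε / 2) * (X * ((Y : ℝ) ^ (ε / 8) * (Y : ℝ) ^ (ε / 8)))) := by ring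
      _ = ε / 4 * Y := by rw [e1]
  have hεN : 0 ≤ ε * Y := by positivity
  linarith

end Pool.Agent.H755R4.SU
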